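import Mathlib
import Pool.Graph.R_pool_sql_team_seeded_b3bd081e.H635F.Per2

set_option autoImplicit false

open MeasureTheory Filter Topology
open scoped ENNReal NNReal

namespace Pool.Agent.H266.FD

open Pool.Agent.H635F

/-- The mean distance between `m x` and `n x`. -/
noncomputable def D (μ : PM) (m n : ℕ) : ℝ≥0∞ :=
  ∫⁻ x, (‖m • x - n • x‖₊ : ℝ≥0∞) ∂(μ : Measure UnitAddCircle)

/-- The multipliers. -/
def Sg (i j : ℕ) : ℕ := 2 ^ i * 3 ^ j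

lemma cont_mn (m n : ℕ) : Continuous fun x : UnitAddCircle => m • x - n • x :=
  (continuous_nsmul m).sub (continuous_nsmul n)

lemma meas_mn (m n : ℕ) : Measurable fun x : UnitAddCircle => (‖m • x - n • x‖₊ : ℝ≥0∞) :=
  (ENNReal.continuous_coe.comp (cont_mn m n).nnnorm).measurable

lemma continuous_D (m n : ℕ) : Continuous fun μ : PM => D μ m n :=
  ProbabilityMeasure.continuous_lintegral_continuousMap
    (⟨fun x : UnitAddCircle => ‖m • x - n • x‖₊, (cont_mn m n).nnnorm⟩ : C(UnitAddCircle, ℝ≥0))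

lemma D_comm (μ : PM) (m n : ℕ) : D μ m n = D μ n m := by
  unfold D
  refine lintegral_congr fun x => ?_
  rw [← nnnorm_neg, neg_sub]

lemma D_tri (μ : PM) (m n k : ℕ) : D μ m k ≤ D μ m n + D μ n k := by
  unfold D
  rw [← lintegral_add_left (meas_mn m n)]
  refine lintegral_mono fun x => ?_
  rw [← ENNReal.coe_add]
  refine ENNReal.coe_le_coe.2 ?_
  calc ‖m • x - k • x‖₊ = ‖(m • x - n • x) + (n • x - k • x)‖₊ := by congr 1; abel
    _ ≤ _ := nnnorm_add_le _ _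

lemma D_cv (σ τ : PM) (m n : ℕ) : D (cv σ τ) m n ≤ D σ m n + D τ m n := by
  unfold D
  rw [coe_cv, Measure.lintegral_conv (meas_mn m n)]
  calc ∫⁻ x, ∫⁻ y, (‖m • (x + y) - n • (x + y)‖₊ : ℝ≥0∞) ∂(τ : Measure UnitAddCircle)
        ∂(σ : Measure UnitAddCircle)
      ≤ ∫⁻ x, ∫⁻ y, ((‖m • x - n • x‖₊ : ℝ≥0∞) + ‖m • y - n • y‖₊) ∂(τ : Measure UnitAddCircle)
        ∂(σ : Measure UnitAddCircle) := by
        refine lintegral_mono fun x => lintegral_mono fun y => ?_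
        rw [← ENNReal.coe_add]
        refine ENNReal.coe_le_coe.2 ?_
        calc ‖m • (x + y) - n • (x + y)‖₊ = ‖(m • x - n • x) + (m • y - n • y)‖₊ := by
              congr 1; rw [nsmul_add, nsmul_add]; abel
          _ ≤ _ := nnnorm_add_le _ _
    _ = _ := by
        simp_rw [lintegral_add_left measurable_const]
        simp only [lintegral_const, measure_univ, mul_one]
        rw [lintegral_add_left (meas_mn m n)]
        simp

lemma J_push' (m : ℕ) (μ : PM) : J (push m μ) =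
    ∫⁻ x, (‖m • x‖₊ : ℝ≥0∞) ∂(μ : Measure UnitAddCircle) := by
  unfold J
  rw [coe_push, lintegral_map measurable_nn (continuous_nsmul m).measurable]

lemma D_le_J (μ : PM) (m n : ℕ) : D μ m n ≤ J (push m μ) + J (push n μ) := by
  rw [J_push', J_push']
  unfold D
  have hm : Measurable fun x : UnitAddCircle => (‖m • x‖₊ : ℝ≥0∞) :=
    measurable_nn.comp (continuous_nsmul m).measurable
  rw [← lintegral_add_left hm]
  refine lintegral_mono fun x => ?_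
  rw [← ENNReal.coe_add]
  refine ENNReal.coe_le_coe.2 ?_
  rw [sub_eq_add_neg]
  calc ‖m • x + -(n • x)‖₊ ≤ ‖m • x‖₊ + ‖-(n • x)‖₊ := nnnorm_add_le _ _
    _ = _ := by rw [nnnorm_neg]

lemma D_le_two (τ : PM) (h : Inv τ) (i j i' j' : ℕ) : D τ (Sg i j) (Sg i' j') ≤ 2 * J τ := by
  refine (D_le_J τ _ _).trans ?_
  unfold Sg
  rw [push_inv τ h, push_inv τ h, two_mul]

lemma D_push (k : ℕ) (μ : PM) (m n : ℕ) : D (push k μ) m n = D μ (k * m) (k * n) := by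
  unfold D
  rw [coe_push, lintegral_map (meas_mn m n) (continuous_nsmul k).measurable]
  refine lintegral_congr fun x => ?_
  rw [mul_nsmul, mul_nsmul]

lemma D_mul (μ : PM) (h : Inv μ) (i j m n : ℕ) : D μ (Sg i j * m) (Sg i j * n) = D μ m n := by
  rw [← D_push]
  unfold Sg
  rw [push_inv μ h]

lemma D_push_le (k : ℕ) (μ : PM) (m n : ℕ) : D (push k μ) m n ≤ k * D μ m n := by
  rw [D_push]
  unfold D
  rw [← lintegral_const_mul _ (meas_mn m n)]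
  refine lintegral_mono fun x => ?_
  have h : ‖(k * m) • x - (k * n) • x‖₊ ≤ (k : ℝ≥0) * ‖m • x - n • x‖₊ := by
    have e : (k * m) • x - (k * n) • x = k • (m • x - n • x) := by
      rw [mul_nsmul', mul_nsmul', nsmul_sub]
    rw [e]
    have h2 : ‖k • (m • x - n • x)‖ ≤ k * ‖m • x - n • x‖ := norm_nsmul_le
    exact NNReal.coe_le_coe.1 (by push_cast; exact h2)
  calc ((‖(k * m) • x - (k * n) • x‖₊ : ℝ≥0) : ℝ≥0∞) ≤ (((k : ℝ≥0) * ‖m • x - n • x‖₊ : ℝ≥0) : ℝ≥0∞) :=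
        ENNReal.coe_le_coe.2 h
    _ = _ := by push_cast; rfl

lemma J_push_sub (μ : PM) (m : ℕ) (hm : 1 ≤ m) : J (push (m - 1) μ) = D μ m 1 := by
  rw [J_push']
  unfold D
  refine lintegral_congr fun x => ?_
  have : m • x - 1 • x = (m - 1) • x := by
    conv_lhs => rw [← Nat.sub_add_cancel hm]
    rw [add_nsmul, add_sub_cancel_right]
  rw [this]

/-- Almost periodicity of the orbit `x ↦ m x`. -/
def AP (μ : PM) : Prop := ∀ ε : ℝ≥0∞, ε ≠ 0 → ∃ S : Finset (ℕ × ℕ), ∀ i j : ℕ, ∃ s ∈ S,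
  D μ (Sg i j) (Sg s.1 s.2) ≤ ε

/-- Periodicity of the orbit `x ↦ m x` up to small errors. -/
def PF (μ : PM) : Prop := ∀ ε : ℝ≥0∞, ε ≠ 0 → ∃ N : ℕ, 1 ≤ N ∧ ∀ i j : ℕ,
  D μ (Sg (N * i) (N * j)) 1 ≤ ε

lemma AP_push (k : ℕ) (hk : 1 ≤ k) (μ : PM) (h : AP μ) : AP (push k μ) := by
  intro ε hε
  have hk0 : (k : ℝ≥0∞) ≠ 0 := by exact_mod_cast (by omega : k ≠ 0)
  obtain ⟨S, hS⟩ := h (ε / k) (ENNReal.div_ne_zero.2 ⟨hε, by simp⟩)
  refine ⟨S, fun i j => ?_⟩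
  obtain ⟨s, hs, h1⟩ := hS i j
  refine ⟨s, hs, (D_push_le k μ _ _).trans ?_⟩
  calc (k : ℝ≥0∞) * D μ (Sg i j) (Sg s.1 s.2) ≤ k * (ε / k) := by gcongr
    _ ≤ ε := ENNReal.mul_div_le

/-- A form of total boundedness for two measures at once. -/
lemma AP_two (σ τ : PM) (hσ : AP σ) (hτ : AP τ) (ε : ℝ≥0∞) (hε : ε ≠ 0) :
    ∃ S : Finset (ℕ × ℕ), ∀ i j : ℕ, ∃ s ∈ S, D σ (Sg i j) (Sg s.1 s.2) ≤ ε ∧
      D τ (Sg i j) (Sg s.1 s.2) ≤ ε := by
  classical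
  have hε2 : ε / 2 ≠ 0 := ENNReal.div_ne_zero.2 ⟨hε, by simp⟩
  obtain ⟨S, hS⟩ := hσ (ε / 2) hε2
  obtain ⟨T, hT⟩ := hτ (ε / 2) hε2
  -- choose a representative of each nonempty class
  let P : (ℕ × ℕ) × (ℕ × ℕ) → ℕ × ℕ → Prop := fun st p =>
    D σ (Sg p.1 p.2) (Sg st.1.1 st.1.2) ≤ ε / 2 ∧ D τ (Sg p.1 p.2) (Sg st.2.1 st.2.2) ≤ ε / 2
  let r : (ℕ × ℕ) × (ℕ × ℕ) → ℕ × ℕ := fun st => if h : ∃ p, P st p then h.choose else (0, 0)
  refine ⟨(S ×ˢ T).image r, fun i j => ?_⟩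
  obtain ⟨s, hs, h1⟩ := hS i j
  obtain ⟨t, ht, h2⟩ := hT i j
  have hex : ∃ p, P (s, t) p := ⟨(i, j), h1, h2⟩
  have hr : r (s, t) = hex.choose := dif_pos hex
  have hspec := hex.choose_spec
  refine ⟨r (s, t), Finset.mem_image.2 ⟨(s, t), Finset.mem_product.2 ⟨hs, ht⟩, rfl⟩, ?_, ?_⟩
  · rw [hr]
    calc D σ (Sg i j) (Sg hex.choose.1 hex.choose.2)
        ≤ D σ (Sg i j) (Sg s.1 s.2) + D σ (Sg s.1 s.2) (Sg hex.choose.1 hex.choose.2) := D_tri _ _ _ _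
      _ ≤ ε / 2 + ε / 2 := by
          gcongr
          rw [D_comm]
          exact hspec.1
      _ = ε := ENNReal.add_halves ε
  · rw [hr]
    calc D τ (Sg i j) (Sg hex.choose.1 hex.choose.2)
        ≤ D τ (Sg i j) (Sg t.1 t.2) + D τ (Sg t.1 t.2) (Sg hex.choose.1 hex.choose.2) := D_tri _ _ _ _
      _ ≤ ε / 2 + ε / 2 := by
          gcongr
          rw [D_comm]
          exact hspec.2
      _ = ε := ENNReal.add_halves ε

lemma AP_cv (σ τ : PM) (hσ : AP σ) (hτ : AP τ) : AP (cv σ τ) := by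
  intro ε hε
  obtain ⟨S, hS⟩ := AP_two σ τ hσ hτ (ε / 2) (ENNReal.div_ne_zero.2 ⟨hε, by simp⟩)
  refine ⟨S, fun i j => ?_⟩
  obtain ⟨s, hs, h1, h2⟩ := hS i j
  refine ⟨s, hs, (D_cv σ τ _ _).trans ?_⟩
  calc _ ≤ ε / 2 + ε / 2 := by gcongr
    _ = ε := ENNReal.add_halves ε

lemma D_d0 (m n : ℕ) : D d0 m n = 0 := by
  unfold D d0
  simp

lemma AP_d0 : AP d0 := by
  intro ε _
  exact ⟨{(0, 0)}, fun i j => ⟨(0, 0), by simp, by rw [D_d0]; exact zero_le⟩⟩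

lemma AP_pc (s : ℕ → PM) (h : ∀ n, AP (s n)) (n : ℕ) : AP (pc s n) := by
  induction n with
  | zero => exact AP_d0
  | succ n ih => exact AP_cv _ _ ih (h n)

/-- Tails of infinite convolutions. -/
lemma decomp (s : ℕ → PM) (hs : ∀ n, J (s n) ≤ 2⁻¹ ^ (n + 5)) (hinv : ∀ n, Inv (s n)) (μ : PM)
    (hμ : MapClusterPt μ atTop (pc s)) (N : ℕ) :
    ∃ τ : PM, Inv τ ∧ μ = cv (pc s N) τ ∧ J τ ≤ 2⁻¹ ^ (N + 4) := by
  obtain ⟨U, hU, hμU⟩ := mapClusterPt_iff_ultrafilter.1 hμ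
  let t : ℕ → PM := fun k => pc (fun n => s (N + n)) k
  have ht0 : t 0 = d0 := rfl
  have hts : ∀ k, t (k + 1) = cv (t k) (s (N + k)) := fun k => rfl
  have hpt : ∀ k, pc s (N + k) = cv (pc s N) (t k) := by
    intro k
    induction k with
    | zero => rw [ht0, cv_d0]; rfl
    | succ k ih =>
      rw [hts, ← cv_assoc, ← ih]
      rfl
  have htinv : ∀ k, Inv (t k) := fun k => inv_pc _ (fun n => hinv _) k
  have htJ : ∀ k, J (t k) + 2⁻¹ ^ (N + k + 4) ≤ 2⁻¹ ^ (N + 4) := by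
    intro k
    induction k with
    | zero => rw [ht0, J_d0]; simp
    | succ k ih =>
      rw [hts]
      have e : (2⁻¹ : ℝ≥0∞) ^ (N + k + 4) = 2⁻¹ ^ (N + k + 5) + 2⁻¹ ^ (N + k + 5) := by
        rw [pow_succ _ (N + k + 4), ← mul_add, ENNReal.inv_two_add_inv_two, mul_one]
      calc J (cv (t k) (s (N + k))) + 2⁻¹ ^ (N + (k + 1) + 4)
          ≤ (J (t k) + 2⁻¹ ^ (N + k + 5)) + 2⁻¹ ^ (N + k + 5) := by
            have e2 : N + (k + 1) + 4 = N + k + 5 := by ring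
            rw [e2]
            gcongr
            exact (J_cv_le _ _).trans (by gcongr; exact hs _)
        _ = J (t k) + 2⁻¹ ^ (N + k + 4) := by rw [e, add_assoc]
        _ ≤ _ := ih
  obtain ⟨τ, hτ⟩ := exists_ulim (fun k => t (k - N)) U
  refine ⟨τ, ⟨?_, ?_⟩, ?_, ?_⟩
  · refine tendsto_nhds_unique (((continuous_push 2).tendsto τ).comp hτ) (hτ.congr fun n => ?_)
    exact (htinv _).1.symm
  · refine tendsto_nhds_unique (((continuous_push 3).tendsto τ).comp hτ) (hτ.congr fun n => ?_)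
    exact (htinv _).2.symm
  · have h1 : Tendsto (fun k => cv (pc s N) (t (k - N))) U (𝓝 (cv (pc s N) τ)) :=
      (continuous_cv.tendsto (pc s N, τ)).comp (tendsto_const_nhds.prodMk_nhds hτ)
    refine tendsto_nhds_unique hμU (h1.congr' ?_)
    have h2 : ∀ᶠ k in atTop, N ≤ k := eventually_ge_atTop N
    filter_upwards [hU h2] with k hk
    rw [← hpt, Nat.add_sub_cancel' hk]
  · refine le_of_tendsto ((continuous_J.tendsto τ).comp hτ) (Eventually.of_forall fun n => ?_)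
    exact le_self_add.trans (htJ _)

lemma exists_small_pow (ε : ℝ≥0∞) (hε : ε ≠ 0) : ∃ N : ℕ, 2 * (2⁻¹ : ℝ≥0∞) ^ (N + 4) ≤ ε := by
  have h1 : Tendsto (fun N : ℕ => (2⁻¹ : ℝ≥0∞) ^ N) atTop (𝓝 0) :=
    ENNReal.tendsto_pow_atTop_nhds_zero_of_lt_one (by
      rw [ENNReal.inv_lt_one]
      exact ENNReal.one_lt_two)
  obtain ⟨N, hN⟩ := (h1.eventually (Iic_mem_nhds (pos_iff_ne_zero.2 hε))).exists
  refine ⟨N, le_trans ?_ hN⟩
  calc 2 * (2⁻¹ : ℝ≥0∞) ^ (N + 4) = (2 * 2⁻¹) * 2⁻¹ ^ (N + 3) := by ring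
    _ = 2⁻¹ ^ (N + 3) := by rw [ENNReal.mul_inv_cancel (by simp) (by simp), one_mul]
    _ ≤ 2⁻¹ ^ N := pow_le_pow_of_le_one zero_le (by simp) (by omega)

theorem AP_limit (s : ℕ → PM) (hs : ∀ n, J (s n) ≤ 2⁻¹ ^ (n + 5)) (hinv : ∀ n, Inv (s n))
    (hAP : ∀ n, AP (s n)) (μ : PM) (hμ : MapClusterPt μ atTop (pc s)) : AP μ := by
  intro ε hε
  have hε2 : ε / 2 ≠ 0 := ENNReal.div_ne_zero.2 ⟨hε, by simp⟩
  obtain ⟨N, hN⟩ := exists_small_pow (ε / 2) hε2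
  obtain ⟨τ, hτ, rfl, hJ⟩ := decomp s hs hinv μ hμ N
  obtain ⟨S, hS⟩ := AP_pc s hAP N (ε / 2) hε2
  refine ⟨S, fun i j => ?_⟩
  obtain ⟨p, hp, h1⟩ := hS i j
  refine ⟨p, hp, (D_cv _ _ _ _).trans ?_⟩
  calc _ ≤ ε / 2 + ε / 2 := by
        gcongr
        exact (D_le_two τ hτ _ _ _ _).trans (le_trans (by gcongr) hN)
    _ = ε := ENNReal.add_halves ε

lemma FS_period (σ : PM) (h : σ ∈ FS) : ∃ N : ℕ, 1 ≤ N ∧ ∀ i j : ℕ,
    D σ (Sg (N * i) (N * j)) 1 = 0 := by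
  obtain ⟨hinv', hfin⟩ := h
  have hinv := (invt_iff _).1 hinv'
  obtain ⟨N, hN, h2⟩ := periodic_of_fs 2 σ hinv.1 hfin
  obtain ⟨M, hM, h3⟩ := periodic_of_fs 3 σ hinv.2 hfin
  refine ⟨N * M, Nat.mul_pos hN hM, fun i j => ?_⟩
  have hnull : ∀ᵐ x ∂(σ : Measure UnitAddCircle), ¬ ((σ : Measure UnitAddCircle) {x} = 0) := by
    rw [ae_iff]
    simp only [not_not]
    obtain ⟨T, hT, hT0⟩ := hfin
    have h2 : {x | (σ : Measure UnitAddCircle) {x} = 0} ⊆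
        Tᶜ ∪ (T ∩ {x | (σ : Measure UnitAddCircle) {x} = 0}) := by
      intro y hy
      by_cases hyT : y ∈ T
      · exact Or.inr ⟨hyT, hy⟩
      · exact Or.inl hyT
    refine measure_mono_null h2 (measure_union_null hT0 ?_)
    have hc : (T ∩ {x | (σ : Measure UnitAddCircle) {x} = 0}).Countable :=
      (hT.subset Set.inter_subset_left).countable
    rw [← Set.biUnion_of_singleton (T ∩ {x | (σ : Measure UnitAddCircle) {x} = 0}),
      measure_biUnion_null_iff hc]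
    intro y hy
    exact hy.2
  unfold D
  rw [lintegral_eq_zero_iff (meas_mn _ _)]
  filter_upwards [hnull] with x hx
  have e2 : ∀ k : ℕ, (2 ^ (N * k)) • x = x := fun k => pow_smul_per 2 N x (h2 x hx) k
  have e3 : ∀ k : ℕ, (3 ^ (M * k)) • x = x := fun k => pow_smul_per 3 M x (h3 x hx) k
  have : Sg (N * M * i) (N * M * j) • x = x := by
    unfold Sg
    rw [mul_nsmul', show N * M * i = N * (M * i) by ring, show N * M * j = M * (N * j) by ring,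
      e3, e2]
  simp [this]

theorem PF_limit (s : ℕ → PM) (hs : ∀ n, J (s n) ≤ 2⁻¹ ^ (n + 5)) (hinv : ∀ n, Inv (s n))
    (hO : ∀ n, IsOrb (s n)) (μ : PM) (hμ : MapClusterPt μ atTop (pc s)) : PF μ := by
  intro ε hε
  obtain ⟨N, hN⟩ := exists_small_pow ε hε
  obtain ⟨τ, hτ, rfl, hJ⟩ := decomp s hs hinv μ hμ N
  obtain ⟨M, hM, h⟩ := FS_period (pc s N) (fs_pc s hO N)
  refine ⟨M, hM, fun i j => (D_cv _ _ _ _).trans ?_⟩
  rw [h, zero_add]
  have h1 := D_le_two τ hτ (M * i) (M * j) 0 0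
  have e : Sg 0 0 = 1 := rfl
  rw [e] at h1
  exact h1.trans (le_trans (by gcongr) hN)

/-- From almost periodicity to rigidity. -/
theorem rigid_of_AP (μ : PM) (h : Inv μ) (hAP : AP μ) (ε : ℝ≥0∞) (hε : ε ≠ 0) :
    ∃ k : ℕ, 1 ≤ k ∧ D μ (2 ^ k) 1 ≤ ε := by
  classical
  obtain ⟨S, hS⟩ := hAP (ε / 2) (ENNReal.div_ne_zero.2 ⟨hε, by simp⟩)
  choose f hf1 hf2 using fun n : ℕ => hS n 0
  obtain ⟨a, b, hab, hfab⟩ := Finite.exists_ne_map_eq_of_infinite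
    (fun n : ℕ => (⟨f n, hf1 n⟩ : S))
  have hfab' : f a = f b := congrArg Subtype.val hfab
  wlog hlt : a < b generalizing a b
  · exact this b a (Ne.symm hab) hfab.symm hfab'.symm (lt_of_le_of_ne (not_lt.1 hlt) (Ne.symm hab))
  refine ⟨b - a, by omega, ?_⟩
  have e1 : Sg b 0 = Sg a 0 * 2 ^ (b - a) := by
    unfold Sg
    rw [pow_zero, mul_one, mul_one, ← pow_add]
    congr 1
    omega
  have e2 : Sg a 0 = Sg a 0 * 1 := (mul_one _).symm
  calc D μ (2 ^ (b - a)) 1 = D μ (Sg b 0) (Sg a 0) := by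
        rw [e1]
        conv_rhs => rw [e2, mul_one (Sg a 0)]
        rw [← D_mul μ h a 0 (2 ^ (b - a)) 1, mul_one]
    _ ≤ D μ (Sg b 0) (Sg (f b).1 (f b).2) + D μ (Sg (f b).1 (f b).2) (Sg a 0) := D_tri _ _ _ _
    _ ≤ ε / 2 + ε / 2 := by
        gcongr
        · exact hf2 b
        · rw [D_comm, ← hfab']
          exact hf2 a
    _ = ε := ENNReal.add_halves ε

end Pool.Agent.H266.FD
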