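import Mathlib
import Pool.Agent.H266.FD1

set_option autoImplicit false

open MeasureTheory Filter Topology
open scoped ENNReal NNReal

namespace Pool.Agent.H266.FD

open Pool.Agent.H635F

lemma mp_Sg (μ : PM) (h : Inv μ) (i j : ℕ) :
    MeasurePreserving (fun x : UnitAddCircle => Sg i j • x) (μ : Measure UnitAddCircle) μ :=
  ⟨(continuous_nsmul _).measurable, by
    have := congrArg ProbabilityMeasure.toMeasure (push_inv μ h i j)
    exact this⟩

lemma half_norm (x : UnitAddCircle) : ‖x‖ ≤ 1 / 2 := by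
  have h := nn_le_half x
  have h2 : ((‖x‖₊ : ℝ≥0∞)).toReal ≤ (2⁻¹ : ℝ≥0∞).toReal := ENNReal.toReal_mono (by simp) h
  rw [ENNReal.toReal_inv, ENNReal.toReal_ofNat] at h2
  simpa using h2

lemma eLpNorm_mn (μ : PM) (m n : ℕ) :
    eLpNorm (fun x : UnitAddCircle => ‖m • x - n • x‖) 2 (μ : Measure UnitAddCircle) ≤
      (D μ m n) ^ (1 / 2 : ℝ) := by
  rw [eLpNorm_eq_lintegral_rpow_enorm_toReal (by norm_num) (by norm_num)]
  rw [ENNReal.toReal_ofNat]
  refine ENNReal.rpow_le_rpow ?_ (by norm_num)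
  unfold D
  refine lintegral_mono fun x => ?_
  have h1 : ‖(‖m • x - n • x‖ : ℝ)‖ₑ = (‖m • x - n • x‖₊ : ℝ≥0∞) := by
    rw [enorm_norm]; rfl
  rw [h1]
  have h2 : (‖m • x - n • x‖₊ : ℝ≥0∞) ≤ 1 := by
    refine (nn_le_half _).trans ?_
    simp
  calc (‖m • x - n • x‖₊ : ℝ≥0∞) ^ (2 : ℝ) ≤ (‖m • x - n • x‖₊ : ℝ≥0∞) ^ (1 : ℝ) :=
        ENNReal.rpow_le_rpow_of_exponent_ge h2 (by norm_num)
    _ = _ := ENNReal.rpow_one _

/-- Multipliers which are close in measure are close on every square integrable function. -/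
theorem L2small (μ : PM) (hinv : Inv μ) (f : UnitAddCircle → ℂ)
    (hf : MemLp f 2 (μ : Measure UnitAddCircle)) (ε : ℝ) (hε : 0 < ε) :
    ∃ δ : ℝ≥0∞, δ ≠ 0 ∧ ∀ i j i' j' : ℕ, D μ (Sg i j) (Sg i' j') ≤ δ →
      eLpNorm (fun x => f (Sg i j • x) - f (Sg i' j' • x)) 2 (μ : Measure UnitAddCircle) ≤
        ENNReal.ofReal ε := by
  have hε4 : ENNReal.ofReal (ε / 4) ≠ 0 := by
    rw [ne_eq, ENNReal.ofReal_eq_zero, not_le]; positivity
  obtain ⟨g, hg, hg2⟩ := hf.exists_boundedContinuous_eLpNorm_sub_le (by norm_num) hε4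
  have huc : UniformContinuous g := CompactSpace.uniformContinuous_of_continuous g.continuous
  obtain ⟨r, hr, hrg⟩ := Metric.uniformContinuous_iff.1 huc (ε / 4) (by positivity)
  set C : ℝ := 2 * ‖g‖ / r with hC
  have hC0 : 0 ≤ C := by positivity
  have hpt : ∀ a b : UnitAddCircle, ‖g a - g b‖ ≤ ε / 4 + C * ‖a - b‖ := by
    intro a b
    by_cases h : dist a b < r
    · have h1 := hrg h
      rw [dist_eq_norm] at h1
      have : 0 ≤ C * ‖a - b‖ := by positivity
      linarith
    · rw [not_lt, dist_eq_norm] at h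
      have h1 : ‖g a - g b‖ ≤ 2 * ‖g‖ := by
        calc ‖g a - g b‖ ≤ ‖g a‖ + ‖g b‖ := norm_sub_le _ _
          _ ≤ ‖g‖ + ‖g‖ := add_le_add (g.norm_coe_le_norm a) (g.norm_coe_le_norm b)
          _ = _ := by ring
      have h2 : 2 * ‖g‖ ≤ C * ‖a - b‖ := by
        calc 2 * ‖g‖ = C * r := by rw [hC]; field_simp
          _ ≤ C * ‖a - b‖ := by gcongr
      linarith
  -- choice of delta
  have hδ : ∃ δ : ℝ≥0∞, δ ≠ 0 ∧ ENNReal.ofReal C * δ ^ (1 / 2 : ℝ) ≤ ENNReal.ofReal (ε / 4) := by
    refine ⟨(ENNReal.ofReal (ε / 4) / (ENNReal.ofReal (C + 1))) ^ (2 : ℝ), ?_, ?_⟩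
    · refine (ENNReal.rpow_pos ?_ ?_).ne'
      · exact ENNReal.div_pos hε4 ENNReal.ofReal_ne_top
      · refine ENNReal.div_ne_top ENNReal.ofReal_ne_top ?_
        rw [ne_eq, ENNReal.ofReal_eq_zero, not_le]; positivity
    · rw [← ENNReal.rpow_mul]
      norm_num
      have h0 : ENNReal.ofReal (C + 1) ≠ 0 := by
        rw [ne_eq, ENNReal.ofReal_eq_zero, not_le]; positivity
      calc ENNReal.ofReal C * (ENNReal.ofReal (ε / 4) / ENNReal.ofReal (C + 1))
          ≤ ENNReal.ofReal (C + 1) * (ENNReal.ofReal (ε / 4) / ENNReal.ofReal (C + 1)) := by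
            gcongr
            linarith
        _ = ENNReal.ofReal (ε / 4) := ENNReal.mul_div_cancel h0 ENNReal.ofReal_ne_top
  obtain ⟨δ, hδ0, hδ1⟩ := hδ
  refine ⟨δ, hδ0, fun i j i' j' hD => ?_⟩
  set m := Sg i j
  set n := Sg i' j'
  have hm : MeasurePreserving (fun x : UnitAddCircle => m • x) (μ : Measure UnitAddCircle) μ :=
    mp_Sg μ hinv i j
  have hn : MeasurePreserving (fun x : UnitAddCircle => n • x) (μ : Measure UnitAddCircle) μ :=
    mp_Sg μ hinv i' j'
  have hfg : AEStronglyMeasurable (f - ⇑g) (μ : Measure UnitAddCircle) := hf.1.sub hg2.1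
  have e1 : eLpNorm (fun x => (f - ⇑g) (m • x)) 2 (μ : Measure UnitAddCircle) ≤
      ENNReal.ofReal (ε / 4) := by
    have := eLpNorm_comp_measurePreserving (p := 2) hfg hm
    exact this.le.trans hg
  have e2 : eLpNorm (fun x => (f - ⇑g) (n • x)) 2 (μ : Measure UnitAddCircle) ≤
      ENNReal.ofReal (ε / 4) := by
    have := eLpNorm_comp_measurePreserving (p := 2) hfg hn
    exact this.le.trans hg
  have s1 : AEStronglyMeasurable (fun x => (f - ⇑g) (m • x)) (μ : Measure UnitAddCircle) :=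
    hfg.comp_measurePreserving hm
  have s2 : AEStronglyMeasurable (fun x => (f - ⇑g) (n • x)) (μ : Measure UnitAddCircle) :=
    hfg.comp_measurePreserving hn
  have hgc : Continuous fun x : UnitAddCircle => g (m • x) - g (n • x) :=
    (g.continuous.comp (continuous_nsmul m)).sub (g.continuous.comp (continuous_nsmul n))
  have s3 : AEStronglyMeasurable (fun x : UnitAddCircle => g (m • x) - g (n • x))
      (μ : Measure UnitAddCircle) := hgc.aestronglyMeasurable
  have e3 : eLpNorm (fun x : UnitAddCircle => g (m • x) - g (n • x)) 2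
      (μ : Measure UnitAddCircle) ≤ ENNReal.ofReal (ε / 4) + ENNReal.ofReal (ε / 4) := by
    have hc1 : Continuous fun x : UnitAddCircle => C * ‖m • x - n • x‖ :=
      continuous_const.mul (cont_mn m n).norm
    calc eLpNorm (fun x : UnitAddCircle => g (m • x) - g (n • x)) 2 (μ : Measure UnitAddCircle)
        ≤ eLpNorm ((fun _ : UnitAddCircle => ε / 4) + fun x : UnitAddCircle => C * ‖m • x - n • x‖) 2
            (μ : Measure UnitAddCircle) := by
          refine eLpNorm_mono_ae (Eventually.of_forall fun x => ?_)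
          refine (hpt (m • x) (n • x)).trans ?_
          exact le_abs_self _
      _ ≤ eLpNorm (fun _ : UnitAddCircle => ε / 4) 2 (μ : Measure UnitAddCircle) +
          eLpNorm (fun x : UnitAddCircle => C * ‖m • x - n • x‖) 2 (μ : Measure UnitAddCircle) :=
          eLpNorm_add_le aestronglyMeasurable_const hc1.aestronglyMeasurable (by norm_num)
      _ ≤ ENNReal.ofReal (ε / 4) + ENNReal.ofReal (ε / 4) := by
          gcongr
          · rw [eLpNorm_const _ (by norm_num) (IsProbabilityMeasure.ne_zero _)]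
            simp only [measure_univ, ENNReal.one_rpow, mul_one]
            rw [Real.enorm_eq_ofReal (by positivity)]
          · have h5 : eLpNorm (fun x : UnitAddCircle => C * ‖m • x - n • x‖) 2
                (μ : Measure UnitAddCircle) = ‖C‖ₑ * eLpNorm (fun x : UnitAddCircle =>
                  ‖m • x - n • x‖) 2 (μ : Measure UnitAddCircle) :=
              eLpNorm_const_smul C _ _ _
            rw [h5, Real.enorm_eq_ofReal hC0]
            calc ENNReal.ofReal C * eLpNorm (fun x : UnitAddCircle => ‖m • x - n • x‖) 2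
                  (μ : Measure UnitAddCircle) ≤ ENNReal.ofReal C * (D μ m n) ^ (1 / 2 : ℝ) := by
                  gcongr
                  exact eLpNorm_mn μ m n
              _ ≤ ENNReal.ofReal C * δ ^ (1 / 2 : ℝ) := by gcongr
              _ ≤ _ := hδ1
  have hdec : (fun x => f (m • x) - f (n • x)) = ((fun x => (f - ⇑g) (m • x)) -
      (fun x => (f - ⇑g) (n • x))) + fun x : UnitAddCircle => g (m • x) - g (n • x) := by
    funext x
    simp only [Pi.add_apply, Pi.sub_apply]
    ring
  rw [hdec]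
  calc _ ≤ eLpNorm ((fun x => (f - ⇑g) (m • x)) - (fun x => (f - ⇑g) (n • x))) 2
          (μ : Measure UnitAddCircle) +
        eLpNorm (fun x : UnitAddCircle => g (m • x) - g (n • x)) 2 (μ : Measure UnitAddCircle) :=
        eLpNorm_add_le (s1.sub s2) s3 (by norm_num)
    _ ≤ (eLpNorm (fun x => (f - ⇑g) (m • x)) 2 (μ : Measure UnitAddCircle) +
          eLpNorm (fun x => (f - ⇑g) (n • x)) 2 (μ : Measure UnitAddCircle)) +
        eLpNorm (fun x : UnitAddCircle => g (m • x) - g (n • x)) 2 (μ : Measure UnitAddCircle) := by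
        gcongr
        exact eLpNorm_sub_le s1 s2 (by norm_num)
    _ ≤ (ENNReal.ofReal (ε / 4) + ENNReal.ofReal (ε / 4)) +
        (ENNReal.ofReal (ε / 4) + ENNReal.ofReal (ε / 4)) := by gcongr
    _ = ENNReal.ofReal ε := by
        rw [← ENNReal.ofReal_add (by positivity) (by positivity),
          ← ENNReal.ofReal_add (by positivity) (by positivity)]
        congr 1
        ring

/-- `μ` is a compact system (in the sense of Furstenberg) under the joint action: every square
integrable function has a totally bounded orbit. -/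
def CompactSystem (μ : Measure UnitAddCircle) : Prop :=
  ∀ f : UnitAddCircle → ℂ, MemLp f 2 μ → ∀ ε : ℝ, 0 < ε → ∃ S : Finset (ℕ × ℕ), ∀ i j : ℕ, ∃ s ∈ S,
    eLpNorm (fun x => f ((2 ^ i * 3 ^ j) • x) - f ((2 ^ s.1 * 3 ^ s.2) • x)) 2 μ ≤
      ENNReal.ofReal ε

theorem compact_of_AP (μ : PM) (hinv : Inv μ) (h : AP μ) :
    CompactSystem (μ : Measure UnitAddCircle) := by
  intro f hf ε hε
  obtain ⟨δ, hδ, h1⟩ := L2small μ hinv f hf ε hε
  obtain ⟨S, hS⟩ := h δ hδ
  refine ⟨S, fun i j => ?_⟩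
  obtain ⟨s, hs, h2⟩ := hS i j
  exact ⟨s, hs, h1 i j s.1 s.2 h2⟩

/-- The inverse inequality. -/
lemma norm_le_fourier (x : UnitAddCircle) : 4 * ‖x‖ ≤ ‖(fourier 1 x : ℂ) - 1‖ := by
  induction x using QuotientAddGroup.induction_on with
  | H t =>
    have h1 : ((t : ℝ) : UnitAddCircle) = ((t - round t : ℝ) : UnitAddCircle) := by
      have h2 : ((round t : ℝ) : UnitAddCircle) = 0 := by
        rw [AddCircle.coe_eq_zero_iff]
        exact ⟨round t, by simp⟩
      rw [AddCircle.coe_sub, h2, sub_zero]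
    have h3 : ‖((t : ℝ) : UnitAddCircle)‖ = |t - round t| := UnitAddCircle.norm_eq
    change 4 * ‖((t : ℝ) : UnitAddCircle)‖ ≤ ‖(fourier 1 ((t : ℝ) : UnitAddCircle) : ℂ) - 1‖
    rw [h3, h1, fourier_coe_apply]
    set s := t - round t with hs
    have hs2 : |s| ≤ 1 / 2 := abs_sub_round t
    have h5 : (2 * (Real.pi : ℂ) * Complex.I * ((1 : ℤ) : ℂ) * ((s : ℝ) : ℂ) / ((1 : ℝ) : ℂ)) =
        Complex.I * ((2 * Real.pi * s : ℝ) : ℂ) := by
      push_cast
      ring
    rw [h5, Complex.norm_exp_I_mul_ofReal_sub_one]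
    have e1 : 2 * Real.pi * s / 2 = Real.pi * s := by ring
    rw [e1, norm_mul, Real.norm_ofNat, Real.norm_eq_abs]
    have h6 : 2 * |s| ≤ |Real.sin (Real.pi * s)| := by
      rcases le_total 0 s with h0 | h0
      · rw [abs_of_nonneg h0] at hs2 ⊢
        have h7 := Real.mul_le_sin (x := Real.pi * s) (by positivity) (by nlinarith [Real.pi_pos])
        have h8 : 2 / Real.pi * (Real.pi * s) = 2 * s := by
          field_simp
        rw [h8] at h7
        exact h7.trans (le_abs_self _)
      · rw [abs_of_nonpos h0] at hs2 ⊢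
        have h7 := Real.mul_le_sin (x := Real.pi * (-s)) (by nlinarith [Real.pi_pos])
          (by nlinarith [Real.pi_pos])
        have h8 : 2 / Real.pi * (Real.pi * (-s)) = 2 * (-s) := by
          field_simp
        rw [h8] at h7
        have h9 : Real.sin (Real.pi * (-s)) = -Real.sin (Real.pi * s) := by
          rw [mul_neg, Real.sin_neg]
        rw [h9] at h7
        exact h7.trans (neg_le_abs _)
    linarith

lemma fourier_mn (m n : ℕ) (x : UnitAddCircle) :
    4 * ‖m • x - n • x‖ ≤ ‖(fourier 1 (m • x) : ℂ) - fourier 1 (n • x)‖ := by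
  refine (norm_le_fourier (m • x - n • x)).trans ?_
  have h1 : (fourier 1 (m • x) : ℂ) = fourier 1 (m • x - n • x) * fourier 1 (n • x) := by
    simp only [fourier_apply, one_zsmul]
    rw [← Circle.coe_mul, ← AddCircle.toCircle_add, sub_add_cancel]
  have h2 : (fourier 1 (m • x) : ℂ) - fourier 1 (n • x) =
      ((fourier 1 (m • x - n • x) : ℂ) - 1) * fourier 1 (n • x) := by
    rw [h1]; ring
  rw [h2, norm_mul, norm_fourier, mul_one]

theorem AP_of_compact (μ : PM) (h : CompactSystem (μ : Measure UnitAddCircle)) : AP μ := by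
  intro ε hε
  have hf : MemLp (fun x : UnitAddCircle => (fourier 1 x : ℂ)) 2 (μ : Measure UnitAddCircle) := by
    refine MemLp.of_bound (fourier 1).continuous.aestronglyMeasurable 1
      (Eventually.of_forall fun x => (norm_fourier 1 x).le)
  by_cases htop : ε = ⊤
  · exact ⟨{(0, 0)}, fun i j => ⟨(0, 0), by simp, by rw [htop]; exact le_top⟩⟩
  obtain ⟨S, hS⟩ := h _ hf ε.toReal (ENNReal.toReal_pos hε htop)
  refine ⟨S, fun i j => ?_⟩
  obtain ⟨s, hs, h1⟩ := hS i j
  refine ⟨s, hs, ?_⟩
  rw [ENNReal.ofReal_toReal htop] at h1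
  refine le_trans ?_ h1
  set m := 2 ^ i * 3 ^ j with hm
  set n := 2 ^ s.1 * 3 ^ s.2 with hn
  have hc : Continuous fun x : UnitAddCircle => (fourier 1 (m • x) : ℂ) - fourier 1 (n • x) :=
    ((fourier 1).continuous.comp (continuous_nsmul m)).sub
      ((fourier 1).continuous.comp (continuous_nsmul n))
  calc D μ (Sg i j) (Sg s.1 s.2)
      ≤ eLpNorm (fun x : UnitAddCircle => (fourier 1 (m • x) : ℂ) - fourier 1 (n • x)) 1
        (μ : Measure UnitAddCircle) := by
        rw [eLpNorm_one_eq_lintegral_enorm]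
        unfold D
        refine lintegral_mono fun x => ?_
        have h2 := fourier_mn m n x
        have h3 : ‖m • x - n • x‖ ≤ ‖(fourier 1 (m • x) : ℂ) - fourier 1 (n • x)‖ := by
          have := norm_nonneg (m • x - n • x)
          linarith
        exact ENNReal.coe_le_coe.2 (NNReal.coe_le_coe.1 (by push_cast; exact h3))
    _ ≤ _ := eLpNorm_le_eLpNorm_of_exponent_le (by norm_num) hc.aestronglyMeasurable

end Pool.Agent.H266.FD
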