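import Mathlib
import Pool.Agent.H266.FD2

set_option autoImplicit false

open MeasureTheory Filter Topology
open scoped ENNReal NNReal

namespace Pool.Agent.H266.FD

open Pool.Agent.H635F

/-- The square integrable functions which are invariant under the multiplications by `2 ^ N` and
`3 ^ N`, for some `N ≥ 1`, are dense in `L²`. -/
def PeriodicDense (μ : Measure UnitAddCircle) : Prop :=
  ∀ f : UnitAddCircle → ℂ, MemLp f 2 μ → ∀ ε : ℝ, 0 < ε → ∃ (N : ℕ) (h : UnitAddCircle → ℂ),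
    1 ≤ N ∧ MemLp h 2 μ ∧ (∀ᵐ x ∂μ, h ((2 ^ N) • x) = h x) ∧ (∀ᵐ x ∂μ, h ((3 ^ N) • x) = h x) ∧
      eLpNorm (fun x => f x - h x) 2 μ ≤ ENNReal.ofReal ε

lemma per_iter {μ : Measure UnitAddCircle} (k : ℕ)
    (hk : MeasurePreserving (fun x : UnitAddCircle => k • x) μ μ) (h : UnitAddCircle → ℂ)
    (hper : ∀ᵐ x ∂μ, h (k • x) = h x) (a : ℕ) : ∀ᵐ x ∂μ, h ((k ^ a) • x) = h x := by
  induction a with
  | zero => simp
  | succ a ih =>
    have h1 : ∀ᵐ x ∂μ, h ((k ^ a) • (k • x)) = h (k • x) := hk.quasiMeasurePreserving.ae ih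
    filter_upwards [h1, hper] with x hx1 hx2
    rw [pow_succ, mul_nsmul', hx1, hx2]

theorem compact_of_periodicDense (μ : PM) (hinv : Inv μ)
    (h : PeriodicDense (μ : Measure UnitAddCircle)) :
    CompactSystem (μ : Measure UnitAddCircle) := by
  intro f hf ε hε
  obtain ⟨N, g, hN, hg, h2, h3, hle⟩ := h f hf (ε / 2) (by positivity)
  refine ⟨Finset.range N ×ˢ Finset.range N, fun i j => ⟨(i % N, j % N), ?_, ?_⟩⟩
  · simp only [Finset.mem_product, Finset.mem_range]
    exact ⟨Nat.mod_lt _ (by omega), Nat.mod_lt _ (by omega)⟩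
  · have m2 := mp_Sg μ hinv N 0
    have m3 := mp_Sg μ hinv 0 N
    have k2 : ∀ᵐ x ∂(μ : Measure UnitAddCircle), g ((2 ^ N) ^ (i / N) • x) = g x :=
      per_iter (2 ^ N) (by simpa [Sg] using m2) g h2 _
    have k3 : ∀ᵐ x ∂(μ : Measure UnitAddCircle), g ((3 ^ N) ^ (j / N) • x) = g x :=
      per_iter (3 ^ N) (by simpa [Sg] using m3) g h3 _
    have mr := mp_Sg μ hinv (i % N) (j % N)
    have m4 := mp_Sg μ hinv (i % N) j
    have hae : ∀ᵐ x ∂(μ : Measure UnitAddCircle),
        g ((2 ^ i * 3 ^ j) • x) = g ((2 ^ (i % N) * 3 ^ (j % N)) • x) := by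
      have a2 := m4.quasiMeasurePreserving.ae k2
      have a3 := mr.quasiMeasurePreserving.ae k3
      filter_upwards [a2, a3] with x hx2 hx3
      have e2 : (2 ^ i * 3 ^ j) • x = (2 ^ N) ^ (i / N) • (Sg (i % N) j • x) := by
        unfold Sg
        rw [← mul_nsmul', ← pow_mul, ← mul_assoc, ← pow_add, Nat.div_add_mod]
      have e3 : Sg (i % N) j • x = (3 ^ N) ^ (j / N) • (Sg (i % N) (j % N) • x) := by
        unfold Sg
        rw [← mul_nsmul', ← pow_mul]
        congr 1
        rw [mul_left_comm, ← pow_add, Nat.div_add_mod]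
      rw [e2, hx2, e3, hx3]
      rfl
    have mij := mp_Sg μ hinv i j
    have hfg : AEStronglyMeasurable (fun x => f x - g x) (μ : Measure UnitAddCircle) :=
      hf.1.sub hg.1
    have s1 : AEStronglyMeasurable (fun x => f (Sg i j • x) - g (Sg i j • x))
        (μ : Measure UnitAddCircle) := hfg.comp_measurePreserving mij
    have s2 : AEStronglyMeasurable (fun x => f (Sg (i % N) (j % N) • x) -
        g (Sg (i % N) (j % N) • x)) (μ : Measure UnitAddCircle) := hfg.comp_measurePreserving mr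
    have e1 : eLpNorm (fun x => f (Sg i j • x) - g (Sg i j • x)) 2 (μ : Measure UnitAddCircle) ≤
        ENNReal.ofReal (ε / 2) := by
      have := eLpNorm_comp_measurePreserving (p := 2) hfg mij
      exact this.le.trans hle
    have e2 : eLpNorm (fun x => f (Sg (i % N) (j % N) • x) - g (Sg (i % N) (j % N) • x)) 2
        (μ : Measure UnitAddCircle) ≤ ENNReal.ofReal (ε / 2) := by
      have := eLpNorm_comp_measurePreserving (p := 2) hfg mr
      exact this.le.trans hle
    have hdec : (fun x => f ((2 ^ i * 3 ^ j) • x) - f ((2 ^ (i % N) * 3 ^ (j % N)) • x)) =ᵐ[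
        (μ : Measure UnitAddCircle)] (fun x => f (Sg i j • x) - g (Sg i j • x)) -
          fun x => f (Sg (i % N) (j % N) • x) - g (Sg (i % N) (j % N) • x) := by
      filter_upwards [hae] with x hx
      change f (Sg i j • x) - f (Sg (i % N) (j % N) • x) =
        (f (Sg i j • x) - g (Sg i j • x)) -
          (f (Sg (i % N) (j % N) • x) - g (Sg (i % N) (j % N) • x))
      change g (Sg i j • x) = g (Sg (i % N) (j % N) • x) at hx
      rw [hx]; ring
    rw [eLpNorm_congr_ae hdec]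
    calc _ ≤ _ := eLpNorm_sub_le s1 s2 (by norm_num)
      _ ≤ ENNReal.ofReal (ε / 2) + ENNReal.ofReal (ε / 2) := by gcongr
      _ = ENNReal.ofReal ε := by
          rw [← ENNReal.ofReal_add (by positivity) (by positivity)]
          congr 1; ring

/-- The element of least norm in a closed convex set, mapped to itself by commuting isometries. -/
lemma fixed_min {H : Type*} [NormedAddCommGroup H] [InnerProductSpace ℝ H] [CompleteSpace H]
    (C : Set H) (hne : C.Nonempty) (hcl : IsClosed C) (hconv : Convex ℝ C) :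
    ∃ v ∈ C, ∀ U : H → H, (∀ w, ‖U w‖ = ‖w‖) → (∀ w ∈ C, U w ∈ C) → U v = v := by
  obtain ⟨v, hv, hmin⟩ := exists_norm_eq_iInf_of_complete_convex hne hcl.isComplete hconv 0
  rw [zero_sub, norm_neg] at hmin
  have hle : ∀ w ∈ C, ‖v‖ ≤ ‖w‖ := by
    intro w hw
    rw [hmin]
    refine (ciInf_le ⟨0, ?_⟩ (⟨w, hw⟩ : C)).trans ?_
    · rintro _ ⟨u, rfl⟩
      exact norm_nonneg _
    · simp
  refine ⟨v, hv, fun U hU hC => ?_⟩
  have h1 : (2⁻¹ : ℝ) • v + (2⁻¹ : ℝ) • U v ∈ C :=
    hconv hv (hC v hv) (by norm_num) (by norm_num) (by norm_num)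
  have h2 := hle _ h1
  rw [← smul_add, norm_smul] at h2
  have h3 : ‖v + U v‖ = ‖v‖ + ‖U v‖ := by
    refine le_antisymm (norm_add_le _ _) ?_
    rw [hU]
    have : ‖(2⁻¹ : ℝ)‖ = 2⁻¹ := by norm_num
    rw [this] at h2
    linarith
  exact (eq_of_norm_eq_of_norm_add_eq (hU v).symm h3).symm

theorem periodicDense_of_PF (μ : PM) (hinv : Inv μ) (h : PF μ) :
    PeriodicDense (μ : Measure UnitAddCircle) := by
  intro f hf ε hε
  obtain ⟨δ, hδ, hδ1⟩ := L2small μ hinv f hf ε hε
  obtain ⟨N, hN, hN1⟩ := h δ hδ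
  have hfN : ∀ i j : ℕ, eLpNorm (fun x => f (Sg (N * i) (N * j) • x) - f x) 2
      (μ : Measure UnitAddCircle) ≤ ENNReal.ofReal ε := by
    intro i j
    have h1 := hδ1 (N * i) (N * j) 0 0 (hN1 i j)
    have e : Sg 0 0 = 1 := rfl
    rw [e] at h1
    simpa only [one_nsmul] using h1
  set M : Measure UnitAddCircle := (μ : Measure UnitAddCircle) with hM
  let T : ∀ i j : ℕ, Lp ℂ 2 M →ₗᵢ[ℝ] Lp ℂ 2 M := fun i j =>
    Lp.compMeasurePreservingₗᵢ ℝ (fun x : UnitAddCircle => Sg (N * i) (N * j) • x)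
      (mp_Sg μ hinv (N * i) (N * j))
  have hT : ∀ i j (g : Lp ℂ 2 M), (T i j g : UnitAddCircle → ℂ) =ᵐ[M]
      fun x => g (Sg (N * i) (N * j) • x) := fun i j g =>
    Lp.coeFn_compMeasurePreserving g (mp_Sg μ hinv (N * i) (N * j))
  let F : Lp ℂ 2 M := hf.toLp f
  have hF : (F : UnitAddCircle → ℂ) =ᵐ[M] f := hf.coeFn_toLp
  have hmul : ∀ a b i j, T a b (T i j F) = T (a + i) (b + j) F := by
    intro a b i j
    refine Lp.ext ?_
    have h1 := hT a b (T i j F)
    have h2 := hT (a + i) (b + j) F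
    have h3 := (mp_Sg μ hinv (N * a) (N * b)).quasiMeasurePreserving.ae (hT i j F)
    filter_upwards [h1, h2, h3] with x hx1 hx2 hx3
    rw [hx1, hx2, hx3, ← mul_nsmul']
    congr 2
    unfold Sg
    rw [Nat.mul_add, Nat.mul_add, pow_add, pow_add]
    ring
  let A : Set (Lp ℂ 2 M) := Set.range fun p : ℕ × ℕ => T p.1 p.2 F
  let C : Set (Lp ℂ 2 M) := closure (convexHull ℝ A)
  have hAC : A ⊆ C := (subset_convexHull ℝ A).trans subset_closure
  have hconv : Convex ℝ C := (convex_convexHull ℝ A).closure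
  have hball : C ⊆ Metric.closedBall F ε := by
    refine closure_minimal (convexHull_min ?_ (convex_closedBall F ε)) Metric.isClosed_closedBall
    rintro _ ⟨⟨i, j⟩, rfl⟩
    rw [Metric.mem_closedBall, dist_eq_norm, Lp.norm_def]
    refine ENNReal.toReal_le_of_le_ofReal hε.le ?_
    have h1 : ((T i j F - F : Lp ℂ 2 M) : UnitAddCircle → ℂ) =ᵐ[M]
        fun x => f (Sg (N * i) (N * j) • x) - f x := by
      have h3 := (mp_Sg μ hinv (N * i) (N * j)).quasiMeasurePreserving.ae hF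
      filter_upwards [Lp.coeFn_sub (T i j F) F, hT i j F, hF, h3] with x a1 a2 a3 a4
      rw [a1, Pi.sub_apply, a2, a3, a4]
    rw [eLpNorm_congr_ae h1]
    exact hfN i j
  have hinvC : ∀ a b, ∀ w ∈ C, T a b w ∈ C := by
    intro a b w hw
    have h1 : Set.MapsTo (T a b) A A := by
      rintro _ ⟨⟨i, j⟩, rfl⟩
      exact ⟨(a + i, b + j), (hmul a b i j).symm⟩
    have h2 : Set.MapsTo (T a b) (convexHull ℝ A) (convexHull ℝ A) := by
      intro u hu
      have h3 : T a b u ∈ (T a b).toLinearMap '' convexHull ℝ A := ⟨u, hu, rfl⟩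
      rw [LinearMap.image_convexHull] at h3
      have h4 : (⇑(T a b).toLinearMap '' A) ⊆ A := h1.image_subset
      exact convexHull_mono h4 h3
    exact h2.closure (T a b).continuous hw
  obtain ⟨v, hv, hfix⟩ := fixed_min C ⟨T 0 0 F, hAC ⟨(0, 0), rfl⟩⟩ isClosed_closure hconv
  have hv2 := hfix (T 1 0) (fun w => (T 1 0).norm_map w) (hinvC 1 0)
  have hv3 := hfix (T 0 1) (fun w => (T 0 1).norm_map w) (hinvC 0 1)
  refine ⟨N, v, hN, Lp.memLp v, ?_, ?_, ?_⟩
  · have h1 := hT 1 0 v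
    rw [hv2] at h1
    filter_upwards [h1] with x hx
    have e : Sg (N * 1) (N * 0) = 2 ^ N := by simp [Sg]
    rw [e] at hx
    exact hx.symm
  · have h1 := hT 0 1 v
    rw [hv3] at h1
    filter_upwards [h1] with x hx
    have e : Sg (N * 0) (N * 1) = 3 ^ N := by simp [Sg]
    rw [e] at hx
    exact hx.symm
  · have h1 : ((F - v : Lp ℂ 2 M) : UnitAddCircle → ℂ) =ᵐ[M] fun x => f x - v x := by
      filter_upwards [Lp.coeFn_sub F v, hF] with x a1 a2
      rw [a1, Pi.sub_apply, a2]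
    rw [← eLpNorm_congr_ae h1]
    have h2 := hball hv
    rw [Metric.mem_closedBall, dist_comm, dist_eq_norm, Lp.norm_def] at h2
    exact (ENNReal.le_ofReal_iff_toReal_le (Lp.eLpNorm_ne_top _) hε.le).2 h2

end Pool.Agent.H266.FD
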