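import Mathlib
import Pool.Agent.H266.FD3

set_option autoImplicit false

open MeasureTheory Filter Topology
open scoped ENNReal NNReal

namespace Pool.Agent.H266.FD

open Pool.Agent.H635F

/-- Integral form of the mean distance. -/
lemma integral_mn (μ : PM) (m : ℕ) :
    ∫ x, ‖m • x - x‖ ∂(μ : Measure UnitAddCircle) = (D μ m 1).toReal := by
  have hc : Continuous fun x : UnitAddCircle => ‖m • x - x‖ :=
    ((continuous_nsmul m).sub continuous_id).norm
  rw [integral_eq_lintegral_of_nonneg_ae (Eventually.of_forall fun x => norm_nonneg _)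
    hc.aestronglyMeasurable]
  congr 1
  unfold D
  refine lintegral_congr fun x => ?_
  rw [one_nsmul, ofReal_norm]
  rfl

lemma D_ne_top (μ : PM) (m n : ℕ) : D μ m n ≠ ⊤ := by
  unfold D
  refine ne_top_of_le_ne_top (b := ∫⁻ _, (1 : ℝ≥0∞) ∂(μ : Measure UnitAddCircle)) ?_
    (lintegral_mono fun x => ?_)
  · simp
  · exact (nn_le_half _).trans (by simp)

lemma D_le_iff (μ : PM) (m : ℕ) (ε : ℝ) (hε : 0 < ε) :
    ∫ x, ‖m • x - x‖ ∂(μ : Measure UnitAddCircle) ≤ ε ↔ D μ m 1 ≤ ENNReal.ofReal ε := by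
  rw [integral_mn, ENNReal.le_ofReal_iff_toReal_le (D_ne_top μ m 1) hε.le]

/-- Rigidity: some multiplications of the semigroup, other than the identity, are arbitrarily close
to the identity in measure. -/
def Rigid (μ : Measure UnitAddCircle) : Prop := ∀ ε : ℝ, 0 < ε → ∃ i j : ℕ, 1 < 2 ^ i * 3 ^ j ∧
  ∫ x, ‖(2 ^ i * 3 ^ j) • x - x‖ ∂μ ≤ ε

/-- Rigidity along a common sequence of exponents. -/
def StronglyRigid (μ : Measure UnitAddCircle) : Prop := ∀ (ε : ℝ) (L : ℕ), 0 < ε → ∃ n : ℕ, L ≤ n ∧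
  ∫ x, ‖(2 ^ n) • x - x‖ ∂μ ≤ ε ∧ ∫ x, ‖(3 ^ n) • x - x‖ ∂μ ≤ ε

/-- The supremum of the absolute values of the Fourier coefficients of nonzero index is one. -/
def LargeCoeff (μ : Measure UnitAddCircle) : Prop := ∀ ε : ℝ, 0 < ε → ∃ k : ℕ, 1 ≤ k ∧
  1 - ε ≤ ‖∫ x, (fourier k x : ℂ) ∂μ‖

lemma rigid_of_strong (μ : Measure UnitAddCircle) (h : StronglyRigid μ) : Rigid μ := by
  intro ε hε
  obtain ⟨n, hn, h2, -⟩ := h ε 1 hε
  refine ⟨n, 0, ?_, by simpa using h2⟩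
  rw [pow_zero, mul_one]
  exact Nat.one_lt_two_pow (by omega)

lemma rigid_of_compact (μ : PM) (hinv : Inv μ) (h : CompactSystem (μ : Measure UnitAddCircle)) :
    Rigid (μ : Measure UnitAddCircle) := by
  intro ε hε
  obtain ⟨k, hk, h1⟩ := rigid_of_AP μ hinv (AP_of_compact μ h) (ENNReal.ofReal ε)
    (by rw [ne_eq, ENNReal.ofReal_eq_zero, not_le]; exact hε)
  refine ⟨k, 0, ?_, ?_⟩
  · rw [pow_zero, mul_one]
    exact Nat.one_lt_two_pow (by omega)
  · rw [pow_zero, mul_one]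
    exact (D_le_iff μ _ ε hε).2 h1

lemma small_of_rigid (μ : PM) (h : Rigid (μ : Measure UnitAddCircle)) (c : ℝ≥0∞) (hc : c ≠ 0) :
    ∃ k : ℕ, 1 ≤ k ∧ J (push k μ) ≤ c := by
  have hc' : 0 < (min c 1).toReal := ENNReal.toReal_pos
    (by rw [← pos_iff_ne_zero, lt_min_iff]; exact ⟨pos_iff_ne_zero.2 hc, one_pos⟩)
    (ne_top_of_le_ne_top ENNReal.one_ne_top (min_le_right _ _))
  obtain ⟨i, j, h1, h2⟩ := h _ hc'
  refine ⟨2 ^ i * 3 ^ j - 1, by omega, ?_⟩
  rw [J_push_sub μ _ h1.le]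
  refine ((D_le_iff μ _ _ hc').1 h2).trans ?_
  rw [ENNReal.ofReal_toReal (ne_top_of_le_ne_top ENNReal.one_ne_top (min_le_right _ _))]
  exact min_le_left _ _

lemma large_of_small (μ : PM) (h : ∀ c : ℝ≥0∞, c ≠ 0 → ∃ k : ℕ, 1 ≤ k ∧ J (push k μ) ≤ c) :
    LargeCoeff (μ : Measure UnitAddCircle) := by
  intro ε hε
  have hpos : 0 < ε / (2 * Real.pi) := by positivity
  obtain ⟨k, hk, h1⟩ := h (ENNReal.ofReal (ε / (2 * Real.pi)))
    (by rw [ne_eq, ENNReal.ofReal_eq_zero, not_le]; exact hpos)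
  refine ⟨k, hk, ?_⟩
  have h2 := norm_F_sub_one 1 (push k μ)
  rw [F_push] at h2
  have h3 : (J (push k μ)).toReal ≤ ε / (2 * Real.pi) :=
    (ENNReal.le_ofReal_iff_toReal_le (J_ne_top _) hpos.le).1 h1
  have h4 : 2 * Real.pi * |((1 : ℤ) : ℝ)| * (J (push k μ)).toReal ≤ ε := by
    have : |((1 : ℤ) : ℝ)| = 1 := by norm_num
    rw [this, mul_one]
    calc 2 * Real.pi * (J (push k μ)).toReal ≤ 2 * Real.pi * (ε / (2 * Real.pi)) := by
          have := Real.pi_pos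
          gcongr
      _ = ε := by field_simp
  have h5 : ‖(1 : ℂ)‖ - ‖F k μ‖ ≤ ‖(1 : ℂ) - F k μ‖ := norm_sub_norm_le _ _
  rw [norm_one, norm_sub_rev] at h5
  change 1 - ε ≤ ‖F k μ‖
  linarith

lemma small_of_large (μ : PM) (hinv : Inv μ) (h : LargeCoeff (μ : Measure UnitAddCircle))
    (c : ℝ≥0∞) (hc : c ≠ 0) : ∃ k : ℕ, 1 ≤ k ∧ J (push k μ) ≤ c := by
  obtain ⟨r, hr0, hr1, hr⟩ := exists_r c hc
  obtain ⟨k, hk, h1⟩ := h ((1 - r) / 2) (by linarith)
  refine ⟨k, hk, ?_⟩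
  by_contra hcon
  have h2 := hr (push k μ) (hinv.push k) (not_le.1 hcon).le
  rw [F_push] at h2
  change 1 - (1 - r) / 2 ≤ ‖F k μ‖ at h1
  linarith

lemma atomless_push (μ : PM) (k : ℕ) (hk : 1 ≤ k)
    (h : ∀ x, (μ : Measure UnitAddCircle) {x} = 0) (x : UnitAddCircle) :
    (push k μ : Measure UnitAddCircle) {x} = 0 := by
  rw [coe_push, Measure.map_apply (continuous_nsmul k).measurable (measurableSet_singleton _)]
  have hfin : ((fun y : UnitAddCircle => k • y) ⁻¹' {x}).Countable := by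
    by_cases hne : ((fun y : UnitAddCircle => k • y) ⁻¹' {x}).Nonempty
    · obtain ⟨y, hy⟩ := hne
      have hT : {z : UnitAddCircle | k • z = 0}.Finite :=
        AddCircle.finite_torsion (1 : ℝ) (by omega)
      refine (hT.image fun z => y + z).countable.mono ?_
      intro w hw
      refine ⟨w - y, ?_, by simp⟩
      change k • (w - y) = 0
      have h1 : k • y = x := hy
      have h2 : k • w = x := hw
      rw [nsmul_sub, h1, h2, sub_self]
    · rw [Set.not_nonempty_iff_eq_empty.1 hne]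
      exact Set.countable_empty
  have : NullSingletonClass (μ : Measure UnitAddCircle) := ⟨h⟩
  exact hfin.measure_zero _

lemma fs_push (k : ℕ) (ν : PM) (h : ν ∈ FS) : push k ν ∈ FS := by
  obtain ⟨h1, S, hS, hS0⟩ := h
  refine ⟨(invt_iff _).2 (((invt_iff _).1 h1).push k), (fun x => k • x) '' S, hS.image _, ?_⟩
  rw [coe_push, Measure.map_apply (continuous_nsmul k).measurable
    (hS.image _).measurableSet.compl]
  refine measure_mono_null ?_ hS0
  intro x hx hxS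
  exact hx ⟨x, hxS, rfl⟩

lemma cl_push (k : ℕ) (ν : PM) (h : ν ∈ closure FS) : push k ν ∈ closure FS :=
  map_mem_closure (continuous_push k) h fun a ha => fs_push k a ha

lemma inv_of_cl (ν : PM) (h : ν ∈ closure FS) : Inv ν := by
  have h1 : ν ∈ {μ : PM | Invt (μ : Measure UnitAddCircle)} :=
    closure_minimal (fun μ hμ => hμ.1) isClosed_inv h
  exact (invt_iff _).1 h1

theorem noGapOrb_of_small (H : ∀ c : ℝ≥0∞, c ≠ 0 → ∃ κ : PM, κ ∈ closure FS ∧
    (∀ x, (κ : Measure UnitAddCircle) {x} = 0) ∧ J κ ≤ c) : NoGapOrb := by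
  refine noGapOrb_of_dense {μ : CM | ∀ x, (μ.1 : Measure UnitAddCircle) {x} = 0}
    (fun μ hμ => hμ) ?_
  intro ν
  have hc : ∀ n : ℕ, ∃ κ : PM, κ ∈ closure FS ∧ (∀ x, (κ : Measure UnitAddCircle) {x} = 0) ∧
      J κ ≤ ((n : ℝ≥0∞) + 1)⁻¹ := fun n => H _ (by simp)
  choose κ hκ1 hκ2 hκ3 using hc
  have hJ0 : Tendsto (fun n => J (κ n)) atTop (𝓝 0) := by
    have h1 : Tendsto (fun n : ℕ => ((n : ℝ≥0∞) + 1)⁻¹) atTop (𝓝 0) := by
      have h2 := ENNReal.tendsto_inv_nat_nhds_zero.comp (tendsto_add_atTop_nat 1)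
      refine h2.congr fun n => ?_
      simp
    exact tendsto_of_tendsto_of_tendsto_of_le_of_le tendsto_const_nhds h1 (fun n => zero_le) hκ3
  have hlim : Tendsto (fun n => cv ν.1 (κ n)) atTop (𝓝 ν.1) := by
    have h1 : Tendsto (fun n => cv ν.1 (κ n)) atTop (𝓝 (cv ν.1 d0)) :=
      (continuous_cv.tendsto (ν.1, d0)).comp (tendsto_const_nhds.prodMk_nhds (tendsto_d0 κ hJ0))
    rwa [cv_d0] at h1
  have hlim2 : Tendsto (fun n => (⟨cv ν.1 (κ n), cl_cv _ _ ν.2 (hκ1 n)⟩ : CM)) atTop (𝓝 ν) :=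
    tendsto_subtype_rng.2 hlim
  refine mem_closure_of_tendsto hlim2 (Eventually.of_forall fun n => ?_)
  exact cv_atomless _ _ (hκ2 n)

theorem noGapOrb_of_large (μ : CM) (hat : ∀ x, (μ.1 : Measure UnitAddCircle) {x} = 0)
    (h : LargeCoeff (μ.1 : Measure UnitAddCircle)) : NoGapOrb := by
  refine noGapOrb_of_small fun c hc => ?_
  obtain ⟨k, hk, h1⟩ := small_of_large μ.1 (inv_of_cl _ μ.2) h c hc
  exact ⟨push k μ.1, cl_push k _ μ.2, atomless_push _ k hk hat, h1⟩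

/-- The strongly rigid measures are residual among the approximable measures. -/
theorem strong_residual : {μ : CM | StronglyRigid (μ.1 : Measure UnitAddCircle)} ∈ residual CM := by
  let O : ℕ → ℕ → Set CM := fun l L => ⋃ n ∈ Set.Ici L,
    {μ : CM | D μ.1 (2 ^ n) 1 < ENNReal.ofReal (1 / ((l : ℝ) + 1)) ∧
      D μ.1 (3 ^ n) 1 < ENNReal.ofReal (1 / ((l : ℝ) + 1))}
  have hopen : ∀ l L, IsOpen (O l L) := fun l L => isOpen_biUnion fun n _ =>
    (isOpen_lt ((continuous_D _ _).comp continuous_subtype_val) continuous_const).inter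
      (isOpen_lt ((continuous_D _ _).comp continuous_subtype_val) continuous_const)
  have hdense : ∀ l L, Dense (O l L) := by
    intro l L ν
    rw [closure_subtype]
    refine closure_mono ?_ ν.2
    intro κ hκ
    refine ⟨⟨κ, subset_closure hκ⟩, ?_, rfl⟩
    obtain ⟨N, hN, h⟩ := FS_period κ hκ
    have hpos : 0 < ENNReal.ofReal (1 / ((l : ℝ) + 1)) := by
      rw [ENNReal.ofReal_pos]; positivity
    refine Set.mem_biUnion (x := N * L) ?_ ⟨?_, ?_⟩
    · change L ≤ N * L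
      exact Nat.le_mul_of_pos_left L hN
    · have h1 := h L 0
      have e : Sg (N * L) (N * 0) = 2 ^ (N * L) := by simp [Sg]
      rw [e] at h1
      change D κ (2 ^ (N * L)) 1 < _
      rw [h1]; exact hpos
    · have h1 := h 0 L
      have e : Sg (N * 0) (N * L) = 3 ^ (N * L) := by simp [Sg]
      rw [e] at h1
      change D κ (3 ^ (N * L)) 1 < _
      rw [h1]; exact hpos
  have hres : (⋂ l, ⋂ L, O l L) ∈ residual CM := by
    rw [countable_iInter_mem]
    intro l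
    rw [countable_iInter_mem]
    intro L
    exact residual_of_dense_open (hopen l L) (hdense l L)
  refine mem_of_superset hres ?_
  intro μ hμ ε L hε
  obtain ⟨l, hl⟩ := exists_nat_one_div_lt hε
  have h1 := Set.mem_iInter.1 (Set.mem_iInter.1 hμ l) L
  obtain ⟨n, hn, h2, h3⟩ := Set.mem_iUnion₂.1 h1
  have hle : ENNReal.ofReal (1 / ((l : ℝ) + 1)) ≤ ENNReal.ofReal ε :=
    ENNReal.ofReal_le_ofReal hl.le
  exact ⟨n, hn, (D_le_iff _ _ ε hε).2 (h2.le.trans hle), (D_le_iff _ _ ε hε).2 (h3.le.trans hle)⟩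

theorem exists_profinite (H : NoGapOrb) : ∃ μ : CM, (∀ x, (μ.1 : Measure UnitAddCircle) {x} = 0) ∧
    PeriodicDense (μ.1 : Measure UnitAddCircle) := by
  obtain ⟨s, hs, hJs, μ, hμ, hinv, hat, -⟩ := exists_atomless_gen IsOrb 1 one_ne_zero
    (orbs_small H)
  have hJ : ∀ n, J (s n) ≤ 2⁻¹ ^ (n + 5) := fun n => (hJs n).trans (by simp)
  have hsi : ∀ n, Inv (s n) := fun n => by
    obtain ⟨x, N, M, hN, hM, h2, h3, he⟩ := hs n
    rw [he]
    exact orb_inv x N M hN hM h2 h3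
  obtain ⟨U, hU, hμU⟩ := mapClusterPt_iff_ultrafilter.1 hμ
  refine ⟨⟨μ, mem_closure_of_tendsto hμU (Eventually.of_forall fun n => fs_pc s hs n)⟩, hat, ?_⟩
  exact periodicDense_of_PF μ hinv (PF_limit s hJ hsi hs μ hμ)

/-- The equivalences for approximable measures. -/
theorem approximable : [NoGapOrb,
    ∃ μ : CM, (∀ x, (μ.1 : Measure UnitAddCircle) {x} = 0) ∧
      PeriodicDense (μ.1 : Measure UnitAddCircle),
    ∃ μ : CM, (∀ x, (μ.1 : Measure UnitAddCircle) {x} = 0) ∧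
      CompactSystem (μ.1 : Measure UnitAddCircle),
    ∃ μ : CM, (∀ x, (μ.1 : Measure UnitAddCircle) {x} = 0) ∧
      Rigid (μ.1 : Measure UnitAddCircle),
    ∃ μ : CM, (∀ x, (μ.1 : Measure UnitAddCircle) {x} = 0) ∧
      LargeCoeff (μ.1 : Measure UnitAddCircle),
    {μ : CM | (∀ x, (μ.1 : Measure UnitAddCircle) {x} = 0) ∧
      (μ.1 : Measure UnitAddCircle) ≠ volume ∧
        StronglyRigid (μ.1 : Measure UnitAddCircle)} ∈ residual CM].TFAE := by
  tfae_have 1 → 2 := exists_profinite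
  tfae_have 2 → 3 := fun ⟨μ, h1, h2⟩ =>
    ⟨μ, h1, compact_of_periodicDense μ.1 (inv_of_cl _ μ.2) h2⟩
  tfae_have 3 → 4 := fun ⟨μ, h1, h2⟩ => ⟨μ, h1, rigid_of_compact μ.1 (inv_of_cl _ μ.2) h2⟩
  tfae_have 4 → 5 := fun ⟨μ, h1, h2⟩ => ⟨μ, h1, large_of_small μ.1 (small_of_rigid μ.1 h2)⟩
  tfae_have 5 → 1 := fun ⟨μ, h1, h2⟩ => noGapOrb_of_large μ h1 h2
  tfae_have 1 → 6 := by
    intro H
    refine mem_of_superset (Filter.inter_mem (ce2_residual H) strong_residual) ?_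
    rintro μ ⟨⟨h1, h2⟩, h3⟩
    exact ⟨h1, h2, h3⟩
  tfae_have 6 → 4 := by
    intro H
    have hne : Nonempty CM := ⟨⟨d0, subset_closure fs_d0⟩⟩
    obtain ⟨μ, h1, -, h3⟩ := (dense_of_mem_residual H).nonempty
    exact ⟨μ, h1, rigid_of_strong _ h3⟩
  tfae_finish

end Pool.Agent.H266.FD
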