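import Mathlib
import Pool.Agent.H266.FD4

set_option autoImplicit false

open MeasureTheory Filter Topology
open scoped ENNReal NNReal

namespace Pool.Agent.H266.FD

open Pool.Agent.H635F

/-- The equivalences for compact systems. -/
theorem compact_tfae : [
    ∀ c : ℝ≥0∞, c ≠ 0 → ∃ ν : PM, Inv ν ∧ (CompactSystem (ν : Measure UnitAddCircle) ∧
      (ν : Measure UnitAddCircle) {0} = 0) ∧ J ν ≤ c,
    ∀ c : ℝ≥0∞, c ≠ 0 → ∃ ν : PM, Inv ν ∧ (CompactSystem (ν : Measure UnitAddCircle) ∧
      ∀ x, (ν : Measure UnitAddCircle) {x} = 0) ∧ J ν ≤ c,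
    ∃ μ : PM, Inv μ ∧ CompactSystem (μ : Measure UnitAddCircle) ∧
      ∀ x, (μ : Measure UnitAddCircle) {x} = 0].TFAE := by
  tfae_have 1 → 2 := by
    intro H c hc
    obtain ⟨s, hs, hJs, μ, hμ, hinv, hat, hJ⟩ := exists_atomless_gen
      (fun ν => CompactSystem (ν : Measure UnitAddCircle) ∧ Inv ν) c hc (by
        intro c hc
        obtain ⟨ν, h1, ⟨h2, h3⟩, h4⟩ := H c hc
        exact ⟨ν, ⟨h2, h1⟩, h1, atom_le_half ν h1.1 h3, h4⟩)
    have hJ5 : ∀ n, J (s n) ≤ 2⁻¹ ^ (n + 5) := fun n => (hJs n).trans (by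
      calc min c 1 * 2⁻¹ ^ (n + 5) ≤ 1 * 2⁻¹ ^ (n + 5) := by
            gcongr
            exact min_le_right _ _
        _ = _ := one_mul _)
    refine ⟨μ, hinv, ⟨compact_of_AP μ hinv (AP_limit s hJ5 (fun n => (hs n).2)
      (fun n => AP_of_compact _ (hs n).1) μ hμ), hat⟩, hJ.trans ?_⟩
    calc min c 1 * 2⁻¹ ^ 4 ≤ c * 1 := by
          gcongr
          · exact min_le_left _ _
          · exact pow_le_one₀ zero_le (by simp)
      _ = c := mul_one c
  tfae_have 2 → 3 := by
    intro H
    obtain ⟨ν, h1, ⟨h2, h3⟩, -⟩ := H 1 one_ne_zero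
    exact ⟨ν, h1, h2, h3⟩
  tfae_have 3 → 1 := by
    rintro ⟨μ, h1, h2, h3⟩ c hc
    obtain ⟨k, hk, hJ⟩ := small_of_rigid μ (rigid_of_compact μ h1 h2) c hc
    exact ⟨push k μ, h1.push k, ⟨compact_of_AP _ (h1.push k) (AP_push k hk μ (AP_of_compact μ h2)),
      atomless_push μ k hk h3 0⟩, hJ⟩
  tfae_finish

theorem residual_of_large (μ : PM) (hinv : Inv μ) (hat : ∀ x, (μ : Measure UnitAddCircle) {x} = 0)
    (h : LargeCoeff (μ : Measure UnitAddCircle)) : CE ∈ residual IM := by
  have key : NoGap ↔ CE ∈ residual IM := dichotomy.out 0 3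
  refine key.1 fun c hc => ?_
  obtain ⟨k, hk, hJ⟩ := small_of_large μ hinv h c hc
  exact ⟨push k μ, hinv.push k, atomless_push μ k hk hat 0, hJ⟩

/-- Ergodicity for the joint action. -/
def JointlyErgodic (μ : Measure UnitAddCircle) : Prop := ∀ E : Set UnitAddCircle, MeasurableSet E →
  (fun x : UnitAddCircle => 2 • x) ⁻¹' E = E → (fun x : UnitAddCircle => 3 • x) ⁻¹' E = E →
    μ E = 0 ∨ μ E = 1

/-- An almost everywhere invariant set is equal to an invariant set up to a null set. -/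
lemma ergodic_ae (μ : PM) (hinv : Inv μ) (herg : JointlyErgodic (μ : Measure UnitAddCircle))
    (E : Set UnitAddCircle) (hE : MeasurableSet E)
    (h2 : ∀ᵐ x ∂(μ : Measure UnitAddCircle), x ∈ E → 2 • x ∈ E)
    (h3 : ∀ᵐ x ∂(μ : Measure UnitAddCircle), x ∈ E → 3 • x ∈ E) :
    (μ : Measure UnitAddCircle) E = 0 ∨ (μ : Measure UnitAddCircle) E = 1 := by
  have p2 : MeasurePreserving (fun x : UnitAddCircle => 2 • x) (μ : Measure UnitAddCircle) μ :=
    ⟨(continuous_nsmul _).measurable, congrArg ProbabilityMeasure.toMeasure hinv.1⟩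
  have p3 : MeasurePreserving (fun x : UnitAddCircle => 3 • x) (μ : Measure UnitAddCircle) μ :=
    ⟨(continuous_nsmul _).measurable, congrArg ProbabilityMeasure.toMeasure hinv.2⟩
  have key : ∀ (k : ℕ) (hk : MeasurePreserving (fun x : UnitAddCircle => k • x)
      (μ : Measure UnitAddCircle) μ), (∀ᵐ x ∂(μ : Measure UnitAddCircle), x ∈ E → k • x ∈ E) →
      ∀ᵐ x ∂(μ : Measure UnitAddCircle), (k • x ∈ E ↔ x ∈ E) := by
    intro k hk h
    have h4 : E =ᵐ[(μ : Measure UnitAddCircle)] (fun x : UnitAddCircle => k • x) ⁻¹' E := by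
      refine ae_eq_of_ae_subset_of_measure_ge h ?_ hE.nullMeasurableSet (measure_ne_top _ _)
      rw [hk.measure_preimage hE.nullMeasurableSet]
    filter_upwards [h4.mem_iff] with x hx
    exact hx.symm
  have k2 := key 2 p2 h2
  have k3 := key 3 p3 h3
  have hall : ∀ᵐ x ∂(μ : Measure UnitAddCircle), ∀ i j : ℕ, (Sg i j • x ∈ E ↔ x ∈ E) := by
    rw [ae_all_iff]
    intro i
    rw [ae_all_iff]
    intro j
    induction i with
    | zero =>
      induction j with
      | zero => simp [Sg]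
      | succ j ih =>
        have h5 := p3.quasiMeasurePreserving.ae ih
        filter_upwards [h5, k3] with x hx1 hx2
        have e : Sg 0 (j + 1) • x = Sg 0 j • (3 • x) := by
          rw [← mul_nsmul']; congr 1; unfold Sg; ring
        rw [e, hx1, hx2]
    | succ i ih =>
      have h5 := p2.quasiMeasurePreserving.ae ih
      filter_upwards [h5, k2] with x hx1 hx2
      have e : Sg (i + 1) j • x = Sg i j • (2 • x) := by
        rw [← mul_nsmul']; congr 1; unfold Sg; ring
      rw [e, hx1, hx2]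
  let G : Set UnitAddCircle := {x | ∃ n : ℕ, ∀ i j : ℕ, n ≤ i → n ≤ j → Sg i j • x ∈ E}
  have hG : MeasurableSet G := by
    have e : G = ⋃ n : ℕ, ⋂ i : ℕ, ⋂ j : ℕ, ⋂ (_ : n ≤ i), ⋂ (_ : n ≤ j),
        (fun x : UnitAddCircle => Sg i j • x) ⁻¹' E := by
      ext x
      simp [G]
    rw [e]
    exact MeasurableSet.iUnion fun n => MeasurableSet.iInter fun i => MeasurableSet.iInter fun j =>
      MeasurableSet.iInter fun _ => MeasurableSet.iInter fun _ =>
        (continuous_nsmul (Sg i j)).measurable hE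
  have hG2 : (fun x : UnitAddCircle => 2 • x) ⁻¹' G = G := by
    ext x
    constructor
    · rintro ⟨n, hn⟩
      refine ⟨n + 1, fun i j hi hj => ?_⟩
      obtain ⟨i, rfl⟩ : ∃ i', i = i' + 1 := ⟨i - 1, by omega⟩
      have := hn i j (by omega) (by omega)
      rw [← mul_nsmul'] at this
      have e : Sg (i + 1) j = Sg i j * 2 := by unfold Sg; ring
      rw [e]
      exact this
    · rintro ⟨n, hn⟩
      refine ⟨n, fun i j hi hj => ?_⟩
      have := hn (i + 1) j (by omega) hj
      have e : Sg (i + 1) j = Sg i j * 2 := by unfold Sg; ring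
      rw [← mul_nsmul', ← e]
      exact this
  have hG3 : (fun x : UnitAddCircle => 3 • x) ⁻¹' G = G := by
    ext x
    constructor
    · rintro ⟨n, hn⟩
      refine ⟨n + 1, fun i j hi hj => ?_⟩
      obtain ⟨j, rfl⟩ : ∃ j', j = j' + 1 := ⟨j - 1, by omega⟩
      have := hn i j (by omega) (by omega)
      rw [← mul_nsmul'] at this
      have e : Sg i (j + 1) = Sg i j * 3 := by unfold Sg; ring
      rw [e]
      exact this
    · rintro ⟨n, hn⟩
      refine ⟨n, fun i j hi hj => ?_⟩
      have := hn i (j + 1) hi (by omega)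
      have e : Sg i (j + 1) = Sg i j * 3 := by unfold Sg; ring
      rw [← mul_nsmul', ← e]
      exact this
  have hGE : G =ᵐ[(μ : Measure UnitAddCircle)] E := by
    filter_upwards [hall] with x hx
    refine propext ⟨?_, ?_⟩
    · rintro ⟨n, hn⟩
      exact (hx n n).1 (hn n n le_rfl le_rfl)
    · intro h
      exact ⟨0, fun i j _ _ => (hx i j).2 h⟩
  rw [← measure_congr hGE]
  exact herg G hG hG2 hG3

/-- Small equivariant maps make the counterexamples generic. -/
theorem residual_of_maps (μ : PM) (hinv : Inv μ)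
    (H : ∀ ε : ℝ, 0 < ε → ∃ φ : UnitAddCircle → UnitAddCircle, Measurable φ ∧
      (∀ᵐ x ∂(μ : Measure UnitAddCircle), φ (2 • x) = 2 • φ x) ∧
      (∀ᵐ x ∂(μ : Measure UnitAddCircle), φ (3 • x) = 3 • φ x) ∧
      ((∀ᵐ x ∂(μ : Measure UnitAddCircle), φ x ≠ 0) ∨
        (JointlyErgodic (μ : Measure UnitAddCircle) ∧
          ¬ ∀ᵐ x ∂(μ : Measure UnitAddCircle), φ x = 0)) ∧
      ∫ x, ‖φ x‖ ∂(μ : Measure UnitAddCircle) ≤ ε) : CE ∈ residual IM := by
  have key : NoGap ↔ CE ∈ residual IM := dichotomy.out 0 3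
  refine key.1 fun c hc => ?_
  have hc' : 0 < (min c 1).toReal := ENNReal.toReal_pos
    (by rw [← pos_iff_ne_zero, lt_min_iff]; exact ⟨pos_iff_ne_zero.2 hc, one_pos⟩)
    (ne_top_of_le_ne_top ENNReal.one_ne_top (min_le_right _ _))
  obtain ⟨φ, hφ, h2, h3, hne, hle⟩ := H _ hc'
  let ν : PM := μ.map (f := φ) hφ.aemeasurable
  have hν : (ν : Measure UnitAddCircle) = Measure.map φ (μ : Measure UnitAddCircle) := rfl
  have p2 : MeasurePreserving (fun x : UnitAddCircle => 2 • x) (μ : Measure UnitAddCircle) μ :=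
    ⟨(continuous_nsmul _).measurable, congrArg ProbabilityMeasure.toMeasure hinv.1⟩
  have p3 : MeasurePreserving (fun x : UnitAddCircle => 3 • x) (μ : Measure UnitAddCircle) μ :=
    ⟨(continuous_nsmul _).measurable, congrArg ProbabilityMeasure.toMeasure hinv.2⟩
  have hpush : ∀ k : ℕ, MeasurePreserving (fun x : UnitAddCircle => k • x)
      (μ : Measure UnitAddCircle) μ →
      (∀ᵐ x ∂(μ : Measure UnitAddCircle), φ (k • x) = k • φ x) → push k ν = ν := by
    intro k hk h
    apply ProbabilityMeasure.toMeasure_injective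
    rw [coe_push, hν, Measure.map_map (continuous_nsmul k).measurable hφ]
    have e1 : ((fun x : UnitAddCircle => k • x) ∘ φ) =ᵐ[(μ : Measure UnitAddCircle)]
        (φ ∘ fun x : UnitAddCircle => k • x) := by
      filter_upwards [h] with x hx
      exact hx.symm
    rw [Measure.map_congr e1, ← Measure.map_map hφ (continuous_nsmul k).measurable, hk.map_eq]
  refine ⟨ν, ⟨hpush 2 p2 h2, hpush 3 p3 h3⟩, ?_, ?_⟩
  · rw [hν, Measure.map_apply hφ (measurableSet_singleton 0)]
    rcases hne with h0 | ⟨herg, h0⟩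
    · have h9 : ∀ᵐ x ∂(μ : Measure UnitAddCircle), x ∉ φ ⁻¹' {0} := by
        filter_upwards [h0] with x hx
        exact hx
      exact measure_eq_zero_iff_ae_notMem.2 h9
    · have hE : MeasurableSet (φ ⁻¹' {0}) := hφ (measurableSet_singleton 0)
      rcases ergodic_ae μ hinv herg _ hE (by
        filter_upwards [h2] with x hx h4
        change φ (2 • x) = 0
        have h5 : φ x = 0 := h4
        rw [hx, h5, smul_zero]) (by
        filter_upwards [h3] with x hx h4
        change φ (3 • x) = 0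
        have h5 : φ x = 0 := h4
        rw [hx, h5, smul_zero]) with h | h
      · exact h
      · exfalso
        apply h0
        have h5 : (μ : Measure UnitAddCircle) (φ ⁻¹' {0})ᶜ = 0 := by
          rw [prob_compl_eq_zero_iff hE]
          exact h
        rw [ae_iff]
        exact h5
  · have h6 : J ν = ∫⁻ x, (‖φ x‖₊ : ℝ≥0∞) ∂(μ : Measure UnitAddCircle) := by
      unfold J
      rw [hν, lintegral_map measurable_nn hφ]
    have h7 : ∫ x, ‖φ x‖ ∂(μ : Measure UnitAddCircle) = (J ν).toReal := by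
      rw [h6, integral_eq_lintegral_of_nonneg_ae (Eventually.of_forall fun x => norm_nonneg _)
        hφ.norm.aestronglyMeasurable]
      congr 1
      refine lintegral_congr fun x => ?_
      rw [ofReal_norm]
      rfl
    rw [h7] at hle
    have h8 := (ENNReal.toReal_le_toReal (J_ne_top _) (ne_top_of_le_ne_top ENNReal.one_ne_top
      (min_le_right _ _))).1 hle
    exact h8.trans (min_le_left _ _)

end Pool.Agent.H266.FD
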