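import Mathlib
import Pool.Agent.H266.FD5

set_option autoImplicit false

open MeasureTheory Filter Topology
open scoped ENNReal NNReal

namespace Pool.Agent.H266.FE

open Pool.Agent.H635F Pool.Agent.H266.FD

/-- `N` is a period of `x` for both multiplications. -/
def Per (x : UnitAddCircle) (N : ℕ) : Prop := (2 ^ N) • x = x ∧ (3 ^ N) • x = x

lemma Per.mul {x : UnitAddCircle} {N : ℕ} (h : Per x N) (K : ℕ) : Per x (N * K) :=
  ⟨pow_smul_per 2 N x h.1 K, pow_smul_per 3 N x h.2 K⟩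

lemma Per.mul' {x : UnitAddCircle} {N : ℕ} (h : Per x N) (K : ℕ) : Per x (K * N) := by
  rw [mul_comm]; exact h.mul K

lemma Per.add {x y : UnitAddCircle} {N : ℕ} (hx : Per x N) (hy : Per y N) : Per (x + y) N :=
  ⟨by rw [nsmul_add, hx.1, hy.1], by rw [nsmul_add, hx.2, hy.2]⟩

lemma Per.smul {x : UnitAddCircle} {N : ℕ} (hx : Per x N) (k : ℕ) : Per (k • x) N :=
  ⟨by rw [smul_comm, hx.1], by rw [smul_comm, hx.2]⟩

lemma per_zero' (N : ℕ) : Per 0 N := ⟨by simp, by simp⟩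

/-- The orbit measure for a common period. -/
noncomputable def ob (x : UnitAddCircle) (N : ℕ) (hN : 1 ≤ N) : PM := orb x N N hN hN

lemma orb_integralC (x : UnitAddCircle) (N M : ℕ) (hN : 1 ≤ N) (hM : 1 ≤ M)
    (f : UnitAddCircle → ℂ) (hf : Continuous f) :
    ∫ y, f y ∂(orb x N M hN hM : Measure UnitAddCircle) =
      ((N : ℂ) * M)⁻¹ * ∑ i ∈ Finset.range N, ∑ j ∈ Finset.range M, f (Sg i j • x) := by
  change ∫ y, f y ∂(((N : ℝ≥0∞) * M)⁻¹ • orbSum x N M) = _
  rw [integral_smul_measure, Complex.real_smul]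
  congr 1
  · simp
  · unfold orbSum
    have hi : ∀ y : UnitAddCircle, Integrable f (Measure.dirac y) := fun y =>
      hf.integrable_of_hasCompactSupport (HasCompactSupport.of_compactSpace _)
    rw [integral_finsetSum_measure]
    · refine Finset.sum_congr rfl fun i _ => ?_
      rw [integral_finsetSum_measure]
      · refine Finset.sum_congr rfl fun j _ => ?_
        rw [integral_dirac]
        rfl
      · exact fun j _ => hi _
    · intro i _
      rw [integrable_finsetSum_measure]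
      exact fun j _ => hi _

lemma sum_per {A : Type*} [AddCommMonoid A] (f : ℕ → A) (N : ℕ) (hf : ∀ i, f (N + i) = f i)
    (K : ℕ) : ∑ i ∈ Finset.range (N * K), f i = K • ∑ i ∈ Finset.range N, f i := by
  have hf2 : ∀ K i, f (N * K + i) = f i := by
    intro K
    induction K with
    | zero => intro i; simp
    | succ K ih =>
      intro i
      rw [Nat.mul_succ, add_assoc, ih, hf]
  induction K with
  | zero => simp
  | succ K ih =>
    rw [Nat.mul_succ, Finset.sum_range_add, ih, succ_nsmul]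
    congr 1
    exact Finset.sum_congr rfl fun i _ => hf2 K i

lemma orb_mul (x : UnitAddCircle) (N M : ℕ) (hN : 1 ≤ N) (hM : 1 ≤ M)
    (h2 : (2 ^ N) • x = x) (h3 : (3 ^ M) • x = x) (K L : ℕ) (hK : 1 ≤ K) (hL : 1 ≤ L) :
    orb x (N * K) (M * L) (Nat.mul_pos hN hK) (Nat.mul_pos hM hL) = orb x N M hN hM := by
  apply ProbabilityMeasure.toMeasure_injective
  refine ext_fourier _ _ fun k => ?_
  rw [orb_integralC _ _ _ _ _ _ (fourier k).continuous, orb_integralC _ _ _ _ _ _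
    (fourier k).continuous]
  have e1 : ∀ i, ∑ j ∈ Finset.range (M * L), (fourier k (Sg i j • x) : ℂ) =
      L • ∑ j ∈ Finset.range M, (fourier k (Sg i j • x) : ℂ) := by
    intro i
    refine sum_per (fun j => (fourier k (Sg i j • x) : ℂ)) M (fun j => ?_) L
    have : Sg i (M + j) • x = Sg i j • x := by
      have e : Sg i (M + j) = Sg i j * 3 ^ M := by unfold Sg; ring
      rw [e, mul_nsmul', h3]
    rw [this]
  have e2 : ∑ i ∈ Finset.range (N * K), ∑ j ∈ Finset.range (M * L), (fourier k (Sg i j • x) : ℂ) =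
      K • ∑ i ∈ Finset.range N, ∑ j ∈ Finset.range (M * L), (fourier k (Sg i j • x) : ℂ) := by
    refine sum_per (fun i => ∑ j ∈ Finset.range (M * L), (fourier k (Sg i j • x) : ℂ)) N
      (fun i => Finset.sum_congr rfl fun j _ => ?_) K
    have : Sg (N + i) j • x = Sg i j • x := by
      have e : Sg (N + i) j = Sg i j * 2 ^ N := by unfold Sg; ring
      rw [e, mul_nsmul', h2]
    rw [this]
  rw [e2, Finset.sum_congr rfl fun i _ => e1 i, ← Finset.smul_sum]
  have hN0 : (N : ℂ) ≠ 0 := by exact_mod_cast (by omega : N ≠ 0)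
  have hM0 : (M : ℂ) ≠ 0 := by exact_mod_cast (by omega : M ≠ 0)
  have hK0 : (K : ℂ) ≠ 0 := by exact_mod_cast (by omega : K ≠ 0)
  have hL0 : (L : ℂ) ≠ 0 := by exact_mod_cast (by omega : L ≠ 0)
  rw [nsmul_eq_mul, nsmul_eq_mul]
  push_cast
  field_simp

lemma isOrb_iff (ν : PM) : IsOrb ν ↔ ∃ (x : UnitAddCircle) (N : ℕ) (hN : 1 ≤ N), Per x N ∧
    ν = ob x N hN := by
  constructor
  · rintro ⟨x, N, M, hN, hM, h2, h3, rfl⟩
    refine ⟨x, N * M, Nat.mul_pos hN hM, ⟨pow_smul_per 2 N x h2 M, ?_⟩, ?_⟩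
    · rw [mul_comm]; exact pow_smul_per 3 M x h3 N
    · rw [← orb_mul x N M hN hM h2 h3 M N hM hN]
      unfold ob
      congr 1
      exact mul_comm _ _
  · rintro ⟨x, N, hN, h, rfl⟩
    exact ⟨x, N, N, hN, hN, h.1, h.2, rfl⟩

lemma ob_mul {x : UnitAddCircle} {N : ℕ} (hN : 1 ≤ N) (h : Per x N) (K : ℕ) (hK : 1 ≤ K)
    (hNK : 1 ≤ N * K) : ob x (N * K) hNK = ob x N hN :=
  orb_mul x N N hN hN h.1 h.2 K K hK hK

lemma ob_mul' {x : UnitAddCircle} {N : ℕ} (hN : 1 ≤ N) (h : Per x N) (K : ℕ) (hK : 1 ≤ K)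
    (hNK : 1 ≤ K * N) : ob x (K * N) hNK = ob x N hN := by
  rw [← ob_mul hN h K hK (by rw [mul_comm]; exact hNK)]
  congr 1
  exact mul_comm _ _

lemma inv_ob {x : UnitAddCircle} {N : ℕ} (hN : 1 ≤ N) (h : Per x N) : Inv (ob x N hN) :=
  orb_inv x N N hN hN h.1 h.2

lemma F_ob (x : UnitAddCircle) (N : ℕ) (hN : 1 ≤ N) (k : ℤ) : F k (ob x N hN) =
    ((N : ℂ) * N)⁻¹ * ∑ i ∈ Finset.range N, ∑ j ∈ Finset.range N, (fourier k (Sg i j • x) : ℂ) :=
  orb_integralC x N N hN hN _ (fourier k).continuous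

lemma J_ob (x : UnitAddCircle) (N : ℕ) (hN : 1 ≤ N) : (J (ob x N hN)).toReal =
    ((N : ℝ) * N)⁻¹ * ∑ i ∈ Finset.range N, ∑ j ∈ Finset.range N, ‖Sg i j • x‖ := by
  rw [← integral_norm_eq]
  exact orb_integral x N N hN hN _ continuous_norm

lemma J_ob_add (x y : UnitAddCircle) (N : ℕ) (hN : 1 ≤ N) :
    (J (ob (x + y) N hN)).toReal ≤ (J (ob x N hN)).toReal + (J (ob y N hN)).toReal := by
  rw [J_ob, J_ob, J_ob, ← mul_add, ← Finset.sum_add_distrib]
  refine mul_le_mul_of_nonneg_left ?_ (by positivity)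
  refine Finset.sum_le_sum fun i _ => ?_
  rw [← Finset.sum_add_distrib]
  refine Finset.sum_le_sum fun j _ => ?_
  rw [nsmul_add]
  exact norm_add_le _ _

/-- Changing the point of a periodic orbit by a small orbit. -/
lemma F_ob_add (x y : UnitAddCircle) (N : ℕ) (hN : 1 ≤ N) (k : ℤ) :
    ‖F k (ob (x + y) N hN) - F k (ob x N hN)‖ ≤
      2 * Real.pi * |(k : ℝ)| * (J (ob y N hN)).toReal := by
  rw [F_ob, F_ob, J_ob, ← mul_sub, ← Finset.sum_sub_distrib, norm_mul]
  have hN0 : ‖((N : ℂ) * N)⁻¹‖ = ((N : ℝ) * N)⁻¹ := by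
    rw [norm_inv, norm_mul, Complex.norm_natCast]
  rw [hN0, mul_left_comm]
  refine mul_le_mul_of_nonneg_left ?_ (by positivity)
  refine (norm_sum_le _ _).trans ?_
  rw [Finset.mul_sum]
  refine Finset.sum_le_sum fun i _ => ?_
  rw [← Finset.sum_sub_distrib, Finset.mul_sum]
  refine (norm_sum_le _ _).trans ?_
  refine Finset.sum_le_sum fun j _ => ?_
  have e : (fourier k (Sg i j • (x + y)) : ℂ) = fourier k (Sg i j • x) * fourier k (Sg i j • y) := by
    rw [nsmul_add]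
    simp only [fourier_apply]
    rw [← Circle.coe_mul, ← AddCircle.toCircle_add, smul_add]
  have e2 : (fourier k (Sg i j • (x + y)) : ℂ) - fourier k (Sg i j • x) =
      fourier k (Sg i j • x) * ((fourier k (Sg i j • y) : ℂ) - 1) := by rw [e]; ring
  rw [e2, norm_mul, norm_fourier, one_mul]
  exact fourier_sub_one_le k _

lemma tendsto_of_F {l : Filter ℕ} (κ : ℕ → PM) (μ : PM)
    (h : ∀ k : ℤ, Tendsto (fun n => F k (κ n)) l (𝓝 (F k μ))) : Tendsto κ l (𝓝 μ) := by
  rw [tendsto_iff_ultrafilter]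
  intro U hU
  obtain ⟨μ', -, hμ'⟩ := (isCompact_univ (X := PM)).ultrafilter_le_nhds (U.map κ) (by simp)
  have : μ' = μ := by
    apply ProbabilityMeasure.toMeasure_injective
    refine ext_fourier _ _ fun k => ?_
    exact tendsto_nhds_unique (((continuous_F k).tendsto μ').comp (show Tendsto κ U (𝓝 μ') from hμ'))
      ((h k).mono_left hU)
  rw [← this]
  exact hμ'

/-- The points of a small periodic orbit. -/
lemma exists_seq (H : NoGapOrb) : ∃ (x : ℕ → UnitAddCircle) (N : ℕ → ℕ) (hN : ∀ n, 1 ≤ N n),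
    (∀ n, Per (x n) (N n)) ∧ (∀ n, x n ≠ 0) ∧
      ∀ n, (J (ob (x n) (N n) (hN n))).toReal ≤ 1 / ((n : ℝ) + 1) := by
  have h1 : ∀ n : ℕ, ∃ (x : UnitAddCircle) (N : ℕ) (hN : 1 ≤ N), Per x N ∧ x ≠ 0 ∧
      (J (ob x N hN)).toReal ≤ 1 / ((n : ℝ) + 1) := by
    intro n
    obtain ⟨x, N, M, hN, hM, h2, h3, hx, hle⟩ := H (1 / ((n : ℝ) + 1)) (by positivity)
    refine ⟨x, N * M, Nat.mul_pos hN hM, ⟨pow_smul_per 2 N x h2 M, ?_⟩, hx, ?_⟩
    · rw [mul_comm]; exact pow_smul_per 3 M x h3 N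
    · have e : ob x (N * M) (Nat.mul_pos hN hM) = orb x N M hN hM := by
        rw [← orb_mul x N M hN hM h2 h3 M N hM hN]
        unfold ob
        congr 1
        exact mul_comm _ _
      rw [e, ← integral_norm_eq, orb_integral x N M hN hM _ continuous_norm]
      exact hle
  choose x N hN hP hx hJ using h1
  exact ⟨x, N, hN, hP, hx, hJ⟩

end Pool.Agent.H266.FE
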