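import Mathlib
import Pool.Agent.H266.FE1

set_option autoImplicit false

open MeasureTheory Filter Topology
open scoped ENNReal NNReal Nat

namespace Pool.Agent.H266.FE

open Pool.Agent.H635F Pool.Agent.H266.FD

lemma isOpen_En (c : ℝ≥0∞) : IsOpen {μ : PM | En μ < c} := by
  have hd : IsClosed {p : UnitAddCircle × UnitAddCircle | p.1 = p.2} :=
    isClosed_eq continuous_fst continuous_snd
  let Φ : ℕ → PM → ℝ≥0∞ := fun n μ =>
    ∫⁻ p, (hd.apprSeq n p : ℝ≥0∞) ∂((μ.prod μ : ProbabilityMeasure _) : Measure (UnitAddCircle ×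
      UnitAddCircle))
  have hΦc : ∀ n, Continuous (Φ n) := by
    intro n
    have h1 : Continuous fun μ : PM => μ.prod μ :=
      ProbabilityMeasure.continuous_prod.comp (continuous_id.prodMk continuous_id)
    exact (ProbabilityMeasure.continuous_lintegral_boundedContinuousFunction
      (hd.apprSeq n)).comp h1
  have hle : ∀ n μ, En μ ≤ Φ n μ := by
    intro n μ
    rw [En_eq_diag]
    exact HasOuterApproxClosed.measure_le_lintegral hd _ n
  have hlim : ∀ μ, Tendsto (fun n => Φ n μ) atTop (𝓝 (En μ)) := by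
    intro μ
    rw [En_eq_diag]
    exact HasOuterApproxClosed.tendsto_lintegral_apprSeq hd _
  have e : {μ : PM | En μ < c} = ⋃ n : ℕ, {μ : PM | Φ n μ < c} := by
    ext μ
    simp only [Set.mem_ofPred_eq, Set.mem_iUnion]
    constructor
    · intro h
      exact ((hlim μ).eventually (Iio_mem_nhds h)).exists
    · rintro ⟨n, hn⟩
      exact lt_of_le_of_lt (hle n μ) hn
  rw [e]
  exact isOpen_iUnion fun n => isOpen_lt (hΦc n) continuous_const

lemma torsion_norm (q : ℕ) (hq : 1 ≤ q) (x : UnitAddCircle) (hx : x ≠ 0) (h : q • x = 0) :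
    1 / (q : ℝ) ≤ ‖x‖ := by
  have hfin : IsOfFinAddOrder x := isOfFinAddOrder_iff_nsmul_eq_zero.2 ⟨q, hq, h⟩
  have h1 := AddCircle.le_add_order_smul_norm_of_isOfFinAddOrder hfin hx
  have h2 : addOrderOf x ≤ q := Nat.le_of_dvd hq (addOrderOf_dvd_of_nsmul_eq_zero h)
  rw [nsmul_eq_mul] at h1
  have h3 : (addOrderOf x : ℝ) ≤ q := by exact_mod_cast h2
  have hq0 : (0 : ℝ) < q := by exact_mod_cast hq
  rw [div_le_iff₀ hq0]
  calc (1 : ℝ) ≤ addOrderOf x * ‖x‖ := h1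
    _ ≤ q * ‖x‖ := by gcongr
    _ = ‖x‖ * q := mul_comm _ _

lemma J_lower (x : UnitAddCircle) (N : ℕ) (hN : 1 ≤ N) (hP : Per x N) (hx : x ≠ 0) (q : ℕ)
    (hq : 1 ≤ q) (h : q • x = 0) : 1 / (q : ℝ) ≤ (J (ob x N hN)).toReal := by
  rw [J_ob]
  have hN0 : (0 : ℝ) < N := by exact_mod_cast hN
  have h1 : ∀ i ∈ Finset.range N, ∀ j ∈ Finset.range N, 1 / (q : ℝ) ≤ ‖Sg i j • x‖ := by
    intro i _ j _
    refine torsion_norm q hq _ (orbit_ne_zero x N N hN hN hP.1 hP.2 hx i j) ?_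
    rw [smul_comm, h, smul_zero]
  have h2 : ∑ i ∈ Finset.range N, ∑ j ∈ Finset.range N, (1 / (q : ℝ)) ≤
      ∑ i ∈ Finset.range N, ∑ j ∈ Finset.range N, ‖Sg i j • x‖ :=
    Finset.sum_le_sum fun i hi => Finset.sum_le_sum fun j hj => h1 i hi j hj
  simp only [Finset.sum_const, Finset.card_range, nsmul_eq_mul] at h2
  rw [le_inv_mul_iff₀ (by positivity)]
  linarith

lemma per_torsion (x : UnitAddCircle) (N : ℕ) (h : (2 ^ N) • x = x) : (2 ^ N - 1) • x = 0 := by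
  have h5 : (2 ^ N) • x = (2 ^ N - 1) • x + x := by
    conv_lhs => rw [← Nat.sub_add_cancel (Nat.one_le_two_pow (n := N))]
    rw [add_nsmul, one_nsmul]
  rw [h] at h5
  exact right_eq_add.1 h5

/-- Sums of a periodic point and of the points of small orbits have large order. -/
lemma eventually_large (x : ℕ → UnitAddCircle) (N : ℕ → ℕ) (hN : ∀ n, 1 ≤ N n)
    (hP : ∀ n, Per (x n) (N n)) (hx : ∀ n, x n ≠ 0)
    (hJ : ∀ n, (J (ob (x n) (N n) (hN n))).toReal ≤ 1 / ((n : ℝ) + 1))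
    (x0 : UnitAddCircle) (N0 : ℕ) (hN0 : 1 ≤ N0) (hP0 : Per x0 N0) (E : ℕ) (hE : 1 ≤ E) :
    ∀ᶠ n in atTop, E • (x0 + x n) ≠ 0 := by
  have hq : 1 ≤ (2 ^ N0 - 1) * E := by
    refine Nat.mul_pos ?_ hE
    have : 2 ^ 1 ≤ 2 ^ N0 := Nat.pow_le_pow_right (by norm_num) hN0
    omega
  filter_upwards [eventually_ge_atTop ((2 ^ N0 - 1) * E)] with n hn h0
  have h1 : ((2 ^ N0 - 1) * E) • x n = 0 := by
    have h2 : ((2 ^ N0 - 1) * E) • (x0 + x n) = 0 := by rw [mul_nsmul', h0, smul_zero]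
    have h3 : ((2 ^ N0 - 1) * E) • x0 = 0 := by
      rw [mul_comm, mul_nsmul', per_torsion x0 N0 hP0.1, smul_zero]
    rw [nsmul_add, h3, zero_add] at h2
    exact h2
  have h4 := (J_lower (x n) (N n) (hN n) (hP n) (hx n) _ hq h1).trans (hJ n)
  have h5 : (((2 ^ N0 - 1) * E : ℕ) : ℝ) < (n : ℝ) + 1 := by
    have : (((2 ^ N0 - 1) * E : ℕ) : ℝ) ≤ n := by exact_mod_cast hn
    linarith
  have h6 : (0 : ℝ) < (((2 ^ N0 - 1) * E : ℕ) : ℝ) := by exact_mod_cast hq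
  exact absurd h4 (not_le.2 (one_div_lt_one_div_of_lt h6 h5))

lemma atom_mono (μ : PM) (h : push 2 μ = μ) (z : UnitAddCircle) (i : ℕ) :
    (μ : Measure UnitAddCircle) {z} ≤ (μ : Measure UnitAddCircle) {(2 ^ i) • z} := by
  have h1 := push_pow 2 μ h i
  calc (μ : Measure UnitAddCircle) {z} ≤
        (μ : Measure UnitAddCircle) ((fun y : UnitAddCircle => (2 ^ i) • y) ⁻¹' {(2 ^ i) • z}) :=
        measure_mono (by simp)
    _ = (push (2 ^ i) μ : Measure UnitAddCircle) {(2 ^ i) • z} := by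
        rw [coe_push, Measure.map_apply (continuous_nsmul _).measurable (measurableSet_singleton _)]
    _ = _ := by rw [h1]

lemma atom_mono' (μ : PM) (h : Inv μ) (z : UnitAddCircle) (i j : ℕ) :
    (μ : Measure UnitAddCircle) {z} ≤ (μ : Measure UnitAddCircle) {Sg i j • z} := by
  have h1 : push (Sg i j) μ = μ := push_inv μ h i j
  calc (μ : Measure UnitAddCircle) {z} ≤
        (μ : Measure UnitAddCircle) ((fun y : UnitAddCircle => (Sg i j) • y) ⁻¹' {Sg i j • z}) :=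
        measure_mono (by simp)
    _ = (push (Sg i j) μ : Measure UnitAddCircle) {Sg i j • z} := by
        rw [coe_push, Measure.map_apply (continuous_nsmul _).measurable (measurableSet_singleton _)]
    _ = _ := by rw [h1]

lemma mem_orbit (x : UnitAddCircle) (N : ℕ) (hN : 1 ≤ N) (z : UnitAddCircle)
    (hz : (ob x N hN : Measure UnitAddCircle) {z} ≠ 0) : ∃ i j : ℕ, Sg i j • x = z := by
  by_contra hcon
  push Not at hcon
  exact hz (orb_null x N N hN hN {z} (measurableSet_singleton z) fun i j => hcon i j)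

lemma orbit_symm (x : UnitAddCircle) (N : ℕ) (hN : 1 ≤ N) (hP : Per x N) (a b : ℕ) :
    Sg (N * a - a) (N * b - b) • (Sg a b • x) = x := by
  rw [← mul_nsmul']
  have ha : a ≤ N * a := Nat.le_mul_of_pos_left a hN
  have hb : b ≤ N * b := Nat.le_mul_of_pos_left b hN
  have e : Sg (N * a - a) (N * b - b) * Sg a b = 2 ^ (N * a) * 3 ^ (N * b) := by
    unfold Sg
    calc 2 ^ (N * a - a) * 3 ^ (N * b - b) * (2 ^ a * 3 ^ b) =
        (2 ^ (N * a - a) * 2 ^ a) * (3 ^ (N * b - b) * 3 ^ b) := by ring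
      _ = _ := by rw [← pow_add, ← pow_add, Nat.sub_add_cancel ha, Nat.sub_add_cancel hb]
  rw [e, mul_nsmul', (hP.mul b).2, (hP.mul a).1]

/-- Periodic orbits with a large atom are short. -/
lemma small_orbit (m : ℕ) (hm : 1 ≤ m) (x : UnitAddCircle) (N : ℕ) (hN : 1 ≤ N) (hP : Per x N)
    (z : UnitAddCircle) (hz : (m : ℝ≥0∞)⁻¹ ≤ (ob x N hN : Measure UnitAddCircle) {z}) :
    (2 ^ (m !)) • x = x := by
  have hm0 : (m : ℝ≥0∞)⁻¹ ≠ 0 := by simp
  obtain ⟨a, b, hab⟩ := mem_orbit x N hN z (lt_of_lt_of_le (pos_iff_ne_zero.2 hm0) hz).ne'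
  have hPz : Per z N := by rw [← hab]; exact hP.smul _
  -- two coinciding points
  have hex : ∃ i ∈ Finset.range (m + 1), ∃ j ∈ Finset.range (m + 1), i ≠ j ∧
      (2 ^ i) • z = (2 ^ j) • z := by
    by_contra hcon
    push Not at hcon
    have hinj : Set.InjOn (fun i : ℕ => (2 ^ i) • z) (Finset.range (m + 1)) := by
      intro i hi j hj hij
      by_contra hne
      exact hcon i hi j hj hne hij
    classical
    have h1 : ∑ w ∈ (Finset.range (m + 1)).image (fun i : ℕ => (2 ^ i) • z),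
        (ob x N hN : Measure UnitAddCircle) {w} ≤ 1 := by
      rw [sum_measure_singleton]
      exact prob_le_one
    rw [Finset.sum_image hinj] at h1
    have h2 : ∑ i ∈ Finset.range (m + 1), (m : ℝ≥0∞)⁻¹ ≤
        ∑ i ∈ Finset.range (m + 1), (ob x N hN : Measure UnitAddCircle) {(2 ^ i) • z} :=
      Finset.sum_le_sum fun i _ => hz.trans (atom_mono _ (inv_ob hN hP).1 z i)
    rw [Finset.sum_const, Finset.card_range, nsmul_eq_mul] at h2
    have h3 : ((m + 1 : ℕ) : ℝ≥0∞) * (m : ℝ≥0∞)⁻¹ ≤ 1 := h2.trans h1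
    have h4 : (m : ℝ≥0∞) ≠ 0 := by exact_mod_cast (by omega : m ≠ 0)
    rw [← div_eq_mul_inv, ENNReal.div_le_iff h4 (by simp), one_mul] at h3
    have h5 : m + 1 ≤ m := by exact_mod_cast h3
    omega
  obtain ⟨i, hi, j, hj, hne, hij⟩ := hex
  wlog hlt : i < j generalizing i j
  · exact this j hj i hi hne.symm hij.symm (lt_of_le_of_ne (not_lt.1 hlt) hne.symm)
  have hd : (2 ^ (j - i)) • z = z := by
    have h1 : i ≤ N * i := Nat.le_mul_of_pos_left i hN
    have h2 : (2 ^ (N * i)) • z = z := (hPz.mul i).1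
    have h3 : (2 ^ (N * i - i)) • ((2 ^ i) • z) = z := by
      rw [← mul_nsmul', ← pow_add, Nat.sub_add_cancel h1, h2]
    have h4 : (2 ^ (N * i - i)) • ((2 ^ j) • z) = (2 ^ (j - i)) • z := by
      have e : 2 ^ (N * i - i) * 2 ^ j = 2 ^ (j - i) * 2 ^ (N * i) := by
        rw [← pow_add, ← pow_add]
        congr 1
        omega
      rw [← mul_nsmul', e, mul_nsmul', h2]
    rw [← hij, h3] at h4
    exact h4.symm
  have hdvd : (j - i) ∣ m ! := by
    refine Nat.dvd_factorial (by omega) ?_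
    have := Finset.mem_range.1 hj
    omega
  obtain ⟨k, hk⟩ := hdvd
  have h6 : (2 ^ (m !)) • z = z := by
    rw [hk]
    exact pow_smul_per 2 (j - i) z hd k
  have h7 := orbit_symm x N hN hP a b
  rw [hab] at h7
  rw [← h7, smul_comm, h6]

lemma En_ob_le (m : ℕ) (hm : 1 ≤ m) (x : UnitAddCircle) (N : ℕ) (hN : 1 ≤ N) (hP : Per x N)
    (h : (2 ^ (m !)) • x ≠ x) : En (ob x N hN) ≤ (m : ℝ≥0∞)⁻¹ := by
  unfold En
  calc _ ≤ ∫⁻ _, (m : ℝ≥0∞)⁻¹ ∂(ob x N hN : Measure UnitAddCircle) := by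
        refine lintegral_mono fun z => ?_
        by_contra hcon
        exact h (small_orbit m hm x N hN hP z (not_le.1 hcon).le)
    _ = _ := by simp

/-- The closure of the set of the periodic orbit measures. -/
abbrev EE := {μ : PM // μ ∈ closure {ν : PM | IsOrb ν}}

instance : CompactSpace EE := isCompact_iff_compactSpace.1 isClosed_closure.isCompact

lemma dense_isOrb : Dense {μ : EE | IsOrb μ.1} := by
  intro ν
  rw [closure_subtype]
  refine closure_mono ?_ ν.2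
  intro κ hκ
  exact ⟨⟨κ, subset_closure hκ⟩, hκ, rfl⟩

lemma dense_of_orb (O : Set EE) (h : ∀ μ : EE, IsOrb μ.1 → μ ∈ closure O) : Dense O := by
  have h1 : Dense (closure O) := dense_isOrb.mono fun μ hμ => h μ hμ
  exact dense_closure.1 h1

lemma isOrb_d0 : IsOrb d0 := by
  rw [isOrb_iff]
  refine ⟨0, 1, le_rfl, per_zero' 1, ?_⟩
  apply ProbabilityMeasure.toMeasure_injective
  refine ext_fourier _ _ fun k => ?_
  have h1 := F_ob 0 1 le_rfl k
  unfold F at h1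
  rw [h1]
  change ∫ x, (fourier k x : ℂ) ∂(Measure.dirac 0) = _
  rw [integral_dirac]
  simp

instance : Nonempty EE := ⟨⟨d0, subset_closure isOrb_d0⟩⟩

lemma orbs_sub_cl : closure {ν : PM | IsOrb ν} ⊆ closure FS :=
  closure_mono fun ν hν => fs_orb ν hν

lemma inv_EE (μ : EE) : Inv μ.1 := inv_of_cl _ (orbs_sub_cl μ.2)

/-- The sequence of the orbits of `x0 + x n`. -/
lemma tendsto_shift (x : ℕ → UnitAddCircle) (N : ℕ → ℕ) (hN : ∀ n, 1 ≤ N n)
    (hP : ∀ n, Per (x n) (N n))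
    (hJ : ∀ n, (J (ob (x n) (N n) (hN n))).toReal ≤ 1 / ((n : ℝ) + 1))
    (x0 : UnitAddCircle) (N0 : ℕ) (hN0 : 1 ≤ N0) (hP0 : Per x0 N0) :
    Tendsto (fun n => ob (x0 + x n) (N0 * N n) (Nat.mul_pos hN0 (hN n))) atTop
      (𝓝 (ob x0 N0 hN0)) := by
  refine tendsto_of_F _ _ fun k => ?_
  rw [tendsto_iff_norm_sub_tendsto_zero]
  have hlim : Tendsto (fun n : ℕ => 2 * Real.pi * |(k : ℝ)| * (1 / ((n : ℝ) + 1))) atTop
      (𝓝 (2 * Real.pi * |(k : ℝ)| * 0)) := tendsto_one_div_add_atTop_nhds_zero_nat.const_mul _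
  rw [mul_zero] at hlim
  refine squeeze_zero (fun n => norm_nonneg _) (fun n => ?_) hlim
  have h1 : ob x0 N0 hN0 = ob x0 (N0 * N n) (Nat.mul_pos hN0 (hN n)) :=
    (ob_mul hN0 hP0 (N n) (hN n) _).symm
  have h2 : ob (x n) (N n) (hN n) = ob (x n) (N0 * N n) (Nat.mul_pos hN0 (hN n)) :=
    (ob_mul' (hN n) (hP n) N0 hN0 _).symm
  rw [h1]
  refine (F_ob_add x0 (x n) _ _ k).trans ?_
  rw [← h2]
  exact mul_le_mul_of_nonneg_left (hJ n) (by positivity)

/-- Orbit measures with small energy are dense. -/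
lemma dense_En (H : NoGapOrb) (m : ℕ) (hm : 1 ≤ m) : Dense {μ : EE | En μ.1 ≤ (m : ℝ≥0∞)⁻¹} := by
  refine dense_of_orb _ fun μ hμ => ?_
  obtain ⟨x0, N0, hN0, hP0, hμ0⟩ := (isOrb_iff _).1 hμ
  obtain ⟨x, N, hN, hP, hx, hJ⟩ := exists_seq H
  have hP' : ∀ n, Per (x0 + x n) (N0 * N n) := fun n => (hP0.mul (N n)).add ((hP n).mul' N0)
  have hlim := tendsto_shift x N hN hP hJ x0 N0 hN0 hP0
  have hor : ∀ n, IsOrb (ob (x0 + x n) (N0 * N n) (Nat.mul_pos hN0 (hN n))) := fun n =>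
    (isOrb_iff _).2 ⟨_, _, _, hP' n, rfl⟩
  have hlim2 : Tendsto (fun n => (⟨_, subset_closure (hor n)⟩ : EE)) atTop (𝓝 μ) := by
    rw [tendsto_subtype_rng]
    rw [hμ0]
    exact hlim
  refine mem_closure_of_tendsto hlim2 ?_
  have hE : 1 ≤ 2 ^ (m !) - 1 := by
    have h1 : 2 ^ 1 ≤ 2 ^ (m !) := Nat.pow_le_pow_right (by norm_num) (Nat.factorial_pos m)
    omega
  filter_upwards [eventually_large x N hN hP hx hJ x0 N0 hN0 hP0 _ hE] with n hn
  refine En_ob_le m hm _ _ _ (hP' n) fun h => hn (per_torsion _ _ h)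

theorem atomless_residual (H : NoGapOrb) :
    {μ : EE | ∀ x, (μ.1 : Measure UnitAddCircle) {x} = 0} ∈ residual EE := by
  have hres : (⋂ m : ℕ, {μ : EE | En μ.1 < ((m : ℝ≥0∞) + 1)⁻¹}) ∈ residual EE := by
    rw [countable_iInter_mem]
    intro m
    refine residual_of_dense_open ((isOpen_En _).preimage continuous_subtype_val) ?_
    refine (dense_En H (m + 2) (by omega)).mono fun μ hμ => ?_
    have h1 : ((m + 2 : ℕ) : ℝ≥0∞)⁻¹ < ((m : ℝ≥0∞) + 1)⁻¹ := by
      rw [ENNReal.inv_lt_inv]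
      have : ((m + 1 : ℕ) : ℝ≥0∞) < ((m + 2 : ℕ) : ℝ≥0∞) := by exact_mod_cast (by omega)
      have e : ((m : ℝ≥0∞) + 1) = ((m + 1 : ℕ) : ℝ≥0∞) := by push_cast; rfl
      rw [e]
      exact this
    exact lt_of_le_of_lt hμ h1
  refine mem_of_superset hres fun μ hμ => ?_
  refine (En_eq_zero_iff μ.1).1 ?_
  by_contra hne
  obtain ⟨m, hm⟩ := ENNReal.exists_inv_nat_lt hne
  have h1 : En μ.1 < ((m : ℝ≥0∞) + 1)⁻¹ := Set.mem_iInter.1 hμ m
  have h2 : ((m : ℝ≥0∞) + 1)⁻¹ ≤ (m : ℝ≥0∞)⁻¹ := ENNReal.inv_le_inv.2 le_self_add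
  exact absurd (h1.trans (lt_of_le_of_lt h2 hm)) (lt_irrefl _)

end Pool.Agent.H266.FE
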