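import Mathlib
import Pool.Agent.H266.FE2

set_option autoImplicit false

open MeasureTheory Filter Topology
open scoped ENNReal NNReal Nat

namespace Pool.Agent.H266.FE

open Pool.Agent.H635F Pool.Agent.H266.FD

/-- The averages of the characters along the semigroup. -/
noncomputable def avk (N : ℕ) (k : ℤ) (x : UnitAddCircle) : ℂ :=
  ((N : ℂ) * N)⁻¹ * ∑ i ∈ Finset.range N, ∑ j ∈ Finset.range N, (fourier k (Sg i j • x) : ℂ)

lemma continuous_avk (N : ℕ) (k : ℤ) : Continuous (avk N k) := by
  unfold avk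
  refine continuous_const.mul (continuous_finsetSum _ fun i _ => continuous_finsetSum _
    fun j _ => (fourier k).continuous.comp (continuous_nsmul _))

/-- The variance of the averages. -/
noncomputable def V (N : ℕ) (k : ℤ) (μ : PM) : ℝ :=
  ∫ x, ‖avk N k x‖ ^ 2 ∂(μ : Measure UnitAddCircle) - ‖F k μ‖ ^ 2

lemma continuous_V (N : ℕ) (k : ℤ) : Continuous (V N k) := by
  unfold V
  refine Continuous.sub ?_ ((continuous_F k).norm.pow 2)
  rw [continuous_iff_continuousAt]
  intro μ
  have h := (ProbabilityMeasure.tendsto_iff_forall_integral_tendsto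
    (γ := PM) (F := 𝓝 μ) (μs := id) (μ := μ)).1 tendsto_id
  have hc : Continuous fun x : UnitAddCircle => ‖avk N k x‖ ^ 2 := (continuous_avk N k).norm.pow 2
  exact h (BoundedContinuousFunction.mkOfCompact ⟨_, hc⟩)

lemma integrable_c (μ : PM) (f : UnitAddCircle → ℂ) (hf : Continuous f) :
    Integrable f (μ : Measure UnitAddCircle) :=
  hf.integrable_of_hasCompactSupport (HasCompactSupport.of_compactSpace _)

lemma integrable_r (μ : PM) (f : UnitAddCircle → ℝ) (hf : Continuous f) :
    Integrable f (μ : Measure UnitAddCircle) :=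
  hf.integrable_of_hasCompactSupport (HasCompactSupport.of_compactSpace _)

/-- Integrals of the averages over invariant sets. -/
lemma setIntegral_avk (μ : PM) (hinv : Inv μ) (E : Set UnitAddCircle) (hE : MeasurableSet E)
    (h2 : (fun x : UnitAddCircle => 2 • x) ⁻¹' E = E)
    (h3 : (fun x : UnitAddCircle => 3 • x) ⁻¹' E = E) (N : ℕ) (hN : 1 ≤ N) (k : ℤ) :
    ∫ x in E, avk N k x ∂(μ : Measure UnitAddCircle) =
      ∫ x in E, (fourier k x : ℂ) ∂(μ : Measure UnitAddCircle) := by
  have hpow : ∀ (a : ℕ), (fun x : UnitAddCircle => a • x) ⁻¹' E = E → ∀ i : ℕ,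
      (fun x : UnitAddCircle => (a ^ i) • x) ⁻¹' E = E := by
    intro a ha i
    induction i with
    | zero => ext x; simp
    | succ i ih =>
      ext x
      have e : (a ^ (i + 1)) • x = (a ^ i) • (a • x) := by rw [← mul_nsmul', pow_succ]
      rw [Set.mem_preimage, e]
      have h4 : (a ^ i) • (a • x) ∈ E ↔ a • x ∈ E := by
        conv_rhs => rw [← ih]
        rfl
      rw [h4]
      conv_rhs => rw [← ha]
      rfl
  have hS : ∀ i j : ℕ, (fun x : UnitAddCircle => Sg i j • x) ⁻¹' E = E := by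
    intro i j
    ext x
    rw [Set.mem_preimage]
    unfold Sg
    rw [mul_nsmul']
    have a1 : (2 ^ i) • ((3 ^ j) • x) ∈ E ↔ (3 ^ j) • x ∈ E := by
      conv_rhs => rw [← hpow 2 h2 i]
      rfl
    have a2 : (3 ^ j) • x ∈ E ↔ x ∈ E := by
      conv_rhs => rw [← hpow 3 h3 j]
      rfl
    rw [a1, a2]
  have hone : ∀ i j : ℕ, ∫ x in E, (fourier k (Sg i j • x) : ℂ) ∂(μ : Measure UnitAddCircle) =
      ∫ x in E, (fourier k x : ℂ) ∂(μ : Measure UnitAddCircle) := by
    intro i j
    have hmp := mp_Sg μ hinv i j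
    have h4 : MeasurePreserving (fun x : UnitAddCircle => Sg i j • x)
        ((μ : Measure UnitAddCircle).restrict E) ((μ : Measure UnitAddCircle).restrict E) := by
      have := MeasurePreserving.restrict_preimage hmp hE
      rwa [hS i j] at this
    have h5 : ∫ y, (fourier k y : ℂ) ∂(Measure.map (fun x : UnitAddCircle => Sg i j • x)
        ((μ : Measure UnitAddCircle).restrict E)) =
        ∫ x, (fourier k (Sg i j • x) : ℂ) ∂((μ : Measure UnitAddCircle).restrict E) :=
      integral_map h4.measurable.aemeasurable (fourier k).continuous.aestronglyMeasurable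
    rw [h4.map_eq] at h5
    exact h5.symm
  have hint : ∀ i j : ℕ, Integrable (fun x : UnitAddCircle => (fourier k (Sg i j • x) : ℂ))
      ((μ : Measure UnitAddCircle).restrict E) := fun i j =>
    (integrable_c μ _ ((fourier k).continuous.comp (continuous_nsmul _))).restrict
  unfold avk
  rw [integral_const_mul, integral_finsetSum _ fun i _ => integrable_finsetSum _ fun j _ => hint i j]
  have h6 : ∀ i ∈ Finset.range N, ∫ x in E, ∑ j ∈ Finset.range N, (fourier k (Sg i j • x) : ℂ)
      ∂(μ : Measure UnitAddCircle) = N * ∫ x in E, (fourier k x : ℂ) ∂(μ : Measure UnitAddCircle) := by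
    intro i _
    rw [integral_finsetSum _ fun j _ => hint i j, Finset.sum_congr rfl fun j _ => hone i j]
    simp
  rw [Finset.sum_congr rfl h6]
  simp only [Finset.sum_const, Finset.card_range, nsmul_eq_mul]
  have hN0 : (N : ℂ) ≠ 0 := by exact_mod_cast (by omega : N ≠ 0)
  field_simp

lemma integral_avk (μ : PM) (hinv : Inv μ) (N : ℕ) (hN : 1 ≤ N) (k : ℤ) :
    ∫ x, avk N k x ∂(μ : Measure UnitAddCircle) = F k μ := by
  have h := setIntegral_avk μ hinv Set.univ MeasurableSet.univ (by simp) (by simp) N hN k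
  rw [setIntegral_univ, setIntegral_univ] at h
  exact h

lemma V_eq (μ : PM) (hinv : Inv μ) (N : ℕ) (hN : 1 ≤ N) (k : ℤ) :
    V N k μ = ∫ x, ‖avk N k x - F k μ‖ ^ 2 ∂(μ : Measure UnitAddCircle) := by
  have hc := continuous_avk N k
  have e4 : ∀ x, ‖avk N k x - F k μ‖ ^ 2 =
      (‖avk N k x‖ ^ 2 - 2 * (avk N k x * star (F k μ)).re) + ‖F k μ‖ ^ 2 := by
    intro x
    rw [← Complex.normSq_eq_norm_sq, ← Complex.normSq_eq_norm_sq, ← Complex.normSq_eq_norm_sq,
      Complex.normSq_sub]
    simp only [Complex.star_def]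
    ring
  have c1 : Continuous fun x => ‖avk N k x‖ ^ 2 := hc.norm.pow 2
  have c2 : Continuous fun x => 2 * (avk N k x * star (F k μ)).re :=
    continuous_const.mul (Complex.continuous_re.comp (hc.mul continuous_const))
  simp_rw [e4]
  have j1 : ∫ x, ((‖avk N k x‖ ^ 2 - 2 * (avk N k x * star (F k μ)).re) + ‖F k μ‖ ^ 2)
      ∂(μ : Measure UnitAddCircle) =
      ∫ x, (‖avk N k x‖ ^ 2 - 2 * (avk N k x * star (F k μ)).re) ∂(μ : Measure UnitAddCircle) +
        ∫ _, ‖F k μ‖ ^ 2 ∂(μ : Measure UnitAddCircle) :=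
    integral_add (f := fun x => ‖avk N k x‖ ^ 2 - 2 * (avk N k x * star (F k μ)).re)
      ((integrable_r μ _ c1).sub (integrable_r μ _ c2)) (integrable_const _)
  rw [j1, integral_sub (integrable_r μ _ c1) (integrable_r μ _ c2), integral_const_mul]
  have i3 : Integrable (fun x => avk N k x * star (F k μ)) (μ : Measure UnitAddCircle) :=
    (integrable_c μ _ hc).mul_const _
  have e5 : ∫ x, (avk N k x * star (F k μ)).re ∂(μ : Measure UnitAddCircle) =
      (∫ x, avk N k x * star (F k μ) ∂(μ : Measure UnitAddCircle)).re := integral_re i3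
  rw [e5, integral_mul_const, integral_avk μ hinv N hN k]
  have e6 : (F k μ * star (F k μ)).re = ‖F k μ‖ ^ 2 := by
    rw [Complex.star_def, Complex.mul_conj, Complex.normSq_eq_norm_sq, Complex.ofReal_re]
  rw [e6]
  unfold V
  simp only [integral_const, smul_eq_mul, probReal_univ, one_mul]
  ring

/-- Small variances give ergodicity. -/
theorem erg_of_V (μ : PM) (hinv : Inv μ)
    (h : ∀ (k : ℤ) (ε : ℝ), 0 < ε → ∃ N : ℕ, 1 ≤ N ∧ V N k μ < ε) :
    JointlyErgodic (μ : Measure UnitAddCircle) := by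
  intro E hE h2 h3
  have key : ∀ k : ℤ, ∫ x in E, (fourier k x : ℂ) ∂(μ : Measure UnitAddCircle) =
      F k μ * ((μ : Measure UnitAddCircle).real E : ℂ) := by
    intro k
    have hle : ∀ ε : ℝ, 0 < ε → ‖∫ x in E, (fourier k x : ℂ) ∂(μ : Measure UnitAddCircle) -
        F k μ * ((μ : Measure UnitAddCircle).real E : ℂ)‖ ^ 2 ≤ ε := by
      intro ε hε
      obtain ⟨N, hN, hV⟩ := h k ε hε
      rw [V_eq μ hinv N hN k] at hV
      have hc := continuous_avk N k
      have e1 : ∫ x in E, (fourier k x : ℂ) ∂(μ : Measure UnitAddCircle) -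
          F k μ * ((μ : Measure UnitAddCircle).real E : ℂ) =
          ∫ x in E, (avk N k x - F k μ) ∂(μ : Measure UnitAddCircle) := by
        rw [integral_sub (integrable_c μ _ hc).restrict (integrable_const _),
          setIntegral_avk μ hinv E hE h2 h3 N hN k, setIntegral_const]
        rw [Complex.real_smul, mul_comm]
      have c1 : Continuous fun x => ‖avk N k x - F k μ‖ := (hc.sub continuous_const).norm
      have e2 : ‖∫ x in E, (avk N k x - F k μ) ∂(μ : Measure UnitAddCircle)‖ ≤
          ∫ x, ‖avk N k x - F k μ‖ ∂(μ : Measure UnitAddCircle) := by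
        refine (norm_integral_le_integral_norm _).trans ?_
        exact setIntegral_le_integral (integrable_r μ _ c1)
          (Eventually.of_forall fun x => norm_nonneg _)
      set A := ∫ x, ‖avk N k x - F k μ‖ ∂(μ : Measure UnitAddCircle) with hA
      have e10 : 0 ≤ ∫ x, (‖avk N k x - F k μ‖ - A) ^ 2 ∂(μ : Measure UnitAddCircle) :=
        integral_nonneg fun x => sq_nonneg _
      have i4 := integrable_r μ _ c1
      have i5 : Integrable (fun x => ‖avk N k x - F k μ‖ ^ 2) (μ : Measure UnitAddCircle) :=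
        integrable_r μ _ (c1.pow 2)
      have e11 : ∫ x, (‖avk N k x - F k μ‖ - A) ^ 2 ∂(μ : Measure UnitAddCircle) =
          ∫ x, ‖avk N k x - F k μ‖ ^ 2 ∂(μ : Measure UnitAddCircle) - A ^ 2 := by
        have e12 : ∀ x, (‖avk N k x - F k μ‖ - A) ^ 2 =
            (‖avk N k x - F k μ‖ ^ 2 - 2 * A * ‖avk N k x - F k μ‖) + A ^ 2 := fun x => by ring
        simp_rw [e12]
        have j1 : ∫ x, ((‖avk N k x - F k μ‖ ^ 2 - 2 * A * ‖avk N k x - F k μ‖) + A ^ 2)
            ∂(μ : Measure UnitAddCircle) =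
            ∫ x, (‖avk N k x - F k μ‖ ^ 2 - 2 * A * ‖avk N k x - F k μ‖)
              ∂(μ : Measure UnitAddCircle) + ∫ _, A ^ 2 ∂(μ : Measure UnitAddCircle) :=
          integral_add (f := fun x => ‖avk N k x - F k μ‖ ^ 2 - 2 * A * ‖avk N k x - F k μ‖)
            (i5.sub (i4.const_mul _)) (integrable_const _)
        rw [j1, integral_sub i5 (i4.const_mul _), integral_const_mul, ← hA]
        simp only [integral_const, smul_eq_mul, probReal_univ, one_mul]
        ring
      have e13 : A ^ 2 ≤ ε := by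
        rw [e11] at e10
        have : ∫ x, ‖avk N k x - F k μ‖ ^ 2 ∂(μ : Measure UnitAddCircle) < ε := hV
        linarith
      rw [e1]
      have : 0 ≤ ‖∫ x in E, (avk N k x - F k μ) ∂(μ : Measure UnitAddCircle)‖ := norm_nonneg _
      nlinarith
    have h0 : ‖∫ x in E, (fourier k x : ℂ) ∂(μ : Measure UnitAddCircle) -
        F k μ * ((μ : Measure UnitAddCircle).real E : ℂ)‖ ^ 2 ≤ 0 :=
      le_of_forall_pos_le_add fun ε hε => by
        rw [zero_add]; exact hle ε hε
    have h1 : ‖∫ x in E, (fourier k x : ℂ) ∂(μ : Measure UnitAddCircle) -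
        F k μ * ((μ : Measure UnitAddCircle).real E : ℂ)‖ = 0 :=
      pow_eq_zero_iff (two_ne_zero) |>.1 (le_antisymm h0 (sq_nonneg _))
    exact sub_eq_zero.1 (norm_eq_zero.1 h1)
  by_cases h0 : (μ : Measure UnitAddCircle) E = 0
  · exact Or.inl h0
  · right
    have hr : (μ : Measure UnitAddCircle).real E ≠ 0 := by
      rw [Measure.real, ENNReal.toReal_ne_zero]
      exact ⟨h0, measure_ne_top _ _⟩
    set ν : Measure UnitAddCircle :=
      ((μ : Measure UnitAddCircle) E)⁻¹ • (μ : Measure UnitAddCircle).restrict E with hν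
    have hprob : IsProbabilityMeasure ν := ⟨by
      rw [hν, Measure.smul_apply, Measure.restrict_apply_univ, smul_eq_mul,
        ENNReal.inv_mul_cancel h0 (measure_ne_top _ _)]⟩
    have hνμ : ν = (μ : Measure UnitAddCircle) := by
      refine ext_fourier _ _ fun k => ?_
      rw [hν, integral_smul_measure, key k, ENNReal.toReal_inv, Complex.real_smul]
      change (((((μ : Measure UnitAddCircle).real E)⁻¹ : ℝ)) : ℂ) * (F k μ *
        ((μ : Measure UnitAddCircle).real E : ℂ)) = F k μ
      have hr' : ((μ : Measure UnitAddCircle).real E : ℂ) ≠ 0 := by exact_mod_cast hr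
      push_cast
      field_simp
    have h5 : (μ : Measure UnitAddCircle) Eᶜ = 0 := by
      rw [← hνμ, hν, Measure.smul_apply, Measure.restrict_apply hE.compl]
      simp
    exact (prob_compl_eq_zero_iff hE).1 h5

lemma avk_orbit (x : UnitAddCircle) (N : ℕ) (hN : 1 ≤ N) (hP : Per x N) (k : ℤ) (a b : ℕ) :
    avk N k (Sg a b • x) = avk N k x := by
  have key : ∀ (a b : ℕ), avk N k (Sg a b • x) = avk N k x := by
    intro a b
    induction a with
    | zero =>
      induction b with
      | zero => simp [Sg]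
      | succ b ih =>
        have e : Sg 0 (b + 1) • x = 3 • (Sg 0 b • x) := by
          rw [← mul_nsmul']; congr 1; unfold Sg; ring
        rw [← ih, e]
        have hP' : Per (Sg 0 b • x) N := hP.smul _
        unfold avk
        congr 1
        refine Finset.sum_congr rfl fun i _ => ?_
        rw [← sum_shift (fun j => (fourier k (Sg i j • (Sg 0 b • x)) : ℂ)) N hN]
        · refine Finset.sum_congr rfl fun j _ => ?_
          have e : Sg i (j + 1) = Sg i j * 3 := by unfold Sg; ring
          rw [e, mul_nsmul']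
        · have e : Sg i N = Sg i 0 * 3 ^ N := by unfold Sg; ring
          rw [e, mul_nsmul' (Sg 0 b • x), hP'.2]
    | succ a ih =>
      have e : Sg (a + 1) b • x = 2 • (Sg a b • x) := by
        rw [← mul_nsmul']; congr 1; unfold Sg; ring
      rw [← ih, e]
      have hP' : Per (Sg a b • x) N := hP.smul _
      unfold avk
      congr 1
      rw [← sum_shift (fun i => ∑ j ∈ Finset.range N, (fourier k (Sg i j • (Sg a b • x)) : ℂ)) N hN]
      · refine Finset.sum_congr rfl fun i _ => Finset.sum_congr rfl fun j _ => ?_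
        have e : Sg (i + 1) j = Sg i j * 2 := by unfold Sg; ring
        rw [e, mul_nsmul']
      · refine Finset.sum_congr rfl fun j _ => ?_
        have e : Sg N j = Sg 0 j * 2 ^ N := by unfold Sg; ring
        rw [e, mul_nsmul' (Sg a b • x), hP'.1]
  exact key a b

lemma V_ob (x : UnitAddCircle) (N : ℕ) (hN : 1 ≤ N) (hP : Per x N) (k : ℤ) :
    V N k (ob x N hN) = 0 := by
  rw [V_eq _ (inv_ob hN hP) N hN k]
  have h1 := orb_integral x N N hN hN (fun y => ‖avk N k y - F k (ob x N hN)‖ ^ 2)
    (((continuous_avk N k).sub continuous_const).norm.pow 2)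
  change ∫ y, _ ∂(orb x N N hN hN : Measure UnitAddCircle) = 0
  rw [h1]
  have h2 : ∀ i j : ℕ, ‖avk N k ((2 ^ i * 3 ^ j) • x) - F k (ob x N hN)‖ ^ 2 = 0 := by
    intro i j
    have h3 : avk N k ((2 ^ i * 3 ^ j) • x) = avk N k x := avk_orbit x N hN hP k i j
    rw [h3, F_ob]
    unfold avk
    simp
  simp [h2]

/-- The measures of `EE` are generically ergodic. -/
theorem erg_residual : {μ : EE | JointlyErgodic (μ.1 : Measure UnitAddCircle)} ∈ residual EE := by
  have hres : (⋂ k : ℤ, ⋂ m : ℕ, {μ : EE | ∃ N : ℕ, 1 ≤ N ∧ V N k μ.1 < 1 / ((m : ℝ) + 1)}) ∈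
      residual EE := by
    rw [countable_iInter_mem]
    intro k
    rw [countable_iInter_mem]
    intro m
    refine residual_of_dense_open ?_ (dense_of_orb _ fun μ hμ => subset_closure ?_)
    · have e : {μ : EE | ∃ N : ℕ, 1 ≤ N ∧ V N k μ.1 < 1 / ((m : ℝ) + 1)} =
          ⋃ N ∈ Set.Ici 1, {μ : EE | V N k μ.1 < 1 / ((m : ℝ) + 1)} := by
        ext μ
        simp
      rw [e]
      exact isOpen_biUnion fun N _ =>
        isOpen_lt ((continuous_V N k).comp continuous_subtype_val) continuous_const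
    · obtain ⟨x, N, hN, hP, hx⟩ := (isOrb_iff _).1 hμ
      refine ⟨N, hN, ?_⟩
      rw [hx, V_ob x N hN hP k]
      positivity
  refine mem_of_superset hres fun μ hμ => erg_of_V μ.1 (inv_EE μ) fun k ε hε => ?_
  obtain ⟨m, hm⟩ := exists_nat_one_div_lt hε
  obtain ⟨N, hN, hV⟩ := Set.mem_iInter.1 (Set.mem_iInter.1 hμ k) m
  exact ⟨N, hN, lt_of_lt_of_le hV hm.le⟩

/-- Finitely supported measures with vanishing variances are orbit measures. -/
theorem orb_of_V (μ : PM) (hμ : μ ∈ FS) (h : ∀ k : ℤ, ∃ N : ℕ, 1 ≤ N ∧ V N k μ = 0) :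
    IsOrb μ := by
  obtain ⟨hinv', hfin⟩ := hμ
  have hinv := (invt_iff _).1 hinv'
  obtain ⟨N2, hN2, h2⟩ := periodic_of_fs 2 μ hinv.1 hfin
  obtain ⟨N3, hN3, h3⟩ := periodic_of_fs 3 μ hinv.2 hfin
  obtain ⟨x, hx⟩ : ∃ x, (μ : Measure UnitAddCircle) {x} ≠ 0 := by
    by_contra hcon
    push Not at hcon
    obtain ⟨S, hS, hS0⟩ := hfin
    have h1 : (μ : Measure UnitAddCircle) S = 0 := by
      rw [← Set.biUnion_of_singleton S, measure_biUnion_null_iff hS.countable]
      exact fun y _ => hcon y
    have h4 : (μ : Measure UnitAddCircle) Set.univ = 0 :=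
      measure_mono_null (t := S ∪ Sᶜ) (by simp) (measure_union_null h1 hS0)
    rw [measure_univ] at h4
    exact one_ne_zero h4
  have hN : 1 ≤ N2 * N3 := Nat.mul_pos hN2 hN3
  have hP : Per x (N2 * N3) := by
    refine ⟨pow_smul_per 2 N2 x (h2 x hx) N3, ?_⟩
    rw [mul_comm]
    exact pow_smul_per 3 N3 x (h3 x hx) N2
  refine (isOrb_iff _).2 ⟨x, N2 * N3, hN, hP, ?_⟩
  apply ProbabilityMeasure.toMeasure_injective
  refine ext_fourier _ _ fun k => ?_
  change F k μ = F k (ob x (N2 * N3) hN)
  obtain ⟨N, hN1, hV⟩ := h k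
  rw [V_eq μ hinv N hN1 k] at hV
  have c1 : Continuous fun x => ‖avk N k x - F k μ‖ ^ 2 :=
    ((continuous_avk N k).sub continuous_const).norm.pow 2
  have hae := (integral_eq_zero_iff_of_nonneg (fun x => sq_nonneg _) (integrable_r μ _ c1)).1 hV
  have hpt : ∀ i j : ℕ, avk N k (Sg i j • x) = F k μ := by
    intro i j
    by_contra hne
    have h5 : (μ : Measure UnitAddCircle) {Sg i j • x} = 0 := by
      refine measure_mono_null ?_ (ae_iff.1 hae)
      intro y hy
      rw [Set.mem_singleton_iff] at hy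
      rw [hy]
      change ¬ (‖avk N k (Sg i j • x) - F k μ‖ ^ 2 = 0)
      intro h6
      exact hne (sub_eq_zero.1 (norm_eq_zero.1 (pow_eq_zero_iff two_ne_zero |>.1 h6)))
    exact hx (le_antisymm ((atom_mono' μ hinv x i j).trans h5.le) zero_le)
  rw [← integral_avk (ob x (N2 * N3) hN) (inv_ob hN hP) N hN1 k]
  unfold ob
  rw [orb_integralC _ _ _ _ _ _ (continuous_avk N k)]
  have hK0 : ((N2 * N3 : ℕ) : ℂ) ≠ 0 := by exact_mod_cast (by omega : N2 * N3 ≠ 0)
  simp only [hpt, Finset.sum_const, Finset.card_range, nsmul_eq_mul]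
  field_simp

end Pool.Agent.H266.FE
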