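import Mathlib
import Pool.Agent.H266.FE3

set_option autoImplicit false

open MeasureTheory Filter Topology
open scoped ENNReal NNReal Nat

namespace Pool.Agent.H266.FE

open Pool.Agent.H635F Pool.Agent.H266.FD

theorem ne_vol_residual3 : {μ : EE | (μ.1 : Measure UnitAddCircle) ≠ volume} ∈ residual EE := by
  have hop : IsOpen {μ : EE | (μ.1 : Measure UnitAddCircle) ≠ volume} := by
    have e : {μ : EE | (μ.1 : Measure UnitAddCircle) ≠ volume} = Subtype.val ⁻¹' {vol}ᶜ := by
      ext μ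
      simp only [Set.mem_ofPred_eq, Set.mem_preimage, Set.mem_compl_iff, Set.mem_singleton_iff]
      refine not_congr ⟨fun h => ?_, fun h => ?_⟩
      · exact ProbabilityMeasure.toMeasure_injective h
      · rw [h]; rfl
    rw [e]
    exact isClosed_singleton.isOpen_compl.preimage continuous_subtype_val
  refine residual_of_dense_open hop (dense_of_orb _ fun μ hμ => subset_closure ?_)
  exact fs_ne_vol μ.1 (fs_orb μ.1 hμ)

/-- The strongly rigid measures are residual. -/
theorem strong_residual' : {μ : EE | StronglyRigid (μ.1 : Measure UnitAddCircle)} ∈ residual EE := by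
  let O : ℕ → ℕ → Set EE := fun l L => ⋃ n ∈ Set.Ici L,
    {μ : EE | D μ.1 (2 ^ n) 1 < ENNReal.ofReal (1 / ((l : ℝ) + 1)) ∧
      D μ.1 (3 ^ n) 1 < ENNReal.ofReal (1 / ((l : ℝ) + 1))}
  have hopen : ∀ l L, IsOpen (O l L) := fun l L => isOpen_biUnion fun n _ =>
    (isOpen_lt ((continuous_D _ _).comp continuous_subtype_val) continuous_const).inter
      (isOpen_lt ((continuous_D _ _).comp continuous_subtype_val) continuous_const)
  have hdense : ∀ l L, Dense (O l L) := by
    intro l L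
    refine dense_of_orb _ fun κ hκ => subset_closure ?_
    obtain ⟨N, hN, h⟩ := FS_period κ.1 (fs_orb κ.1 hκ)
    have hpos : 0 < ENNReal.ofReal (1 / ((l : ℝ) + 1)) := by
      rw [ENNReal.ofReal_pos]; positivity
    refine Set.mem_biUnion (x := N * L) ?_ ⟨?_, ?_⟩
    · change L ≤ N * L
      exact Nat.le_mul_of_pos_left L hN
    · have h1 := h L 0
      have e : Sg (N * L) (N * 0) = 2 ^ (N * L) := by simp [Sg]
      rw [e] at h1
      change D κ.1 (2 ^ (N * L)) 1 < _
      rw [h1]; exact hpos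
    · have h1 := h 0 L
      have e : Sg (N * 0) (N * L) = 3 ^ (N * L) := by simp [Sg]
      rw [e] at h1
      change D κ.1 (3 ^ (N * L)) 1 < _
      rw [h1]; exact hpos
  have hres : (⋂ l, ⋂ L, O l L) ∈ residual EE := by
    rw [countable_iInter_mem]
    intro l
    rw [countable_iInter_mem]
    intro L
    exact residual_of_dense_open (hopen l L) (hdense l L)
  refine mem_of_superset hres ?_
  intro μ hμ ε L hε
  obtain ⟨l, hl⟩ := exists_nat_one_div_lt hε
  have h1 := Set.mem_iInter.1 (Set.mem_iInter.1 hμ l) L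
  obtain ⟨n, hn, h2, h3⟩ := Set.mem_iUnion₂.1 h1
  have hle : ENNReal.ofReal (1 / ((l : ℝ) + 1)) ≤ ENNReal.ofReal ε :=
    ENNReal.ofReal_le_ofReal hl.le
  exact ⟨n, hn, (D_le_iff _ _ ε hε).2 (h2.le.trans hle), (D_le_iff _ _ ε hε).2 (h3.le.trans hle)⟩

/-- The counterexamples are generic. -/
theorem generic (H : NoGapOrb) : {μ : EE | (∀ x, (μ.1 : Measure UnitAddCircle) {x} = 0) ∧
    JointlyErgodic (μ.1 : Measure UnitAddCircle) ∧ (μ.1 : Measure UnitAddCircle) ≠ volume ∧
      StronglyRigid (μ.1 : Measure UnitAddCircle)} ∈ residual EE :=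
  Filter.inter_mem (atomless_residual H) (Filter.inter_mem erg_residual
    (Filter.inter_mem ne_vol_residual3 strong_residual'))

lemma fs_atom (μ : PM) (hμ : μ ∈ FS) : ∃ x, (μ : Measure UnitAddCircle) {x} ≠ 0 := by
  obtain ⟨-, S, hS, hS0⟩ := hμ
  by_contra hcon
  push Not at hcon
  have h1 : (μ : Measure UnitAddCircle) S = 0 := by
    rw [← Set.biUnion_of_singleton S, measure_biUnion_null_iff hS.countable]
    exact fun y _ => hcon y
  have h4 : (μ : Measure UnitAddCircle) Set.univ = 0 :=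
    measure_mono_null (t := S ∪ Sᶜ) (by simp) (measure_union_null h1 hS0)
  rw [measure_univ] at h4
  exact one_ne_zero h4

/-- There are no isolated points. -/
theorem no_isolated (H : NoGapOrb) (μ : EE) : (𝓝[≠] μ).NeBot := by
  by_contra hcon
  rw [not_neBot, ← isOpen_singleton_iff_punctured_nhds] at hcon
  obtain ⟨ν, hν, hν2⟩ := dense_isOrb.inter_open_nonempty _ hcon ⟨μ, rfl⟩
  obtain ⟨κ, hκ, hκ2⟩ := (dense_of_mem_residual (atomless_residual H)).inter_open_nonempty _ hcon
    ⟨μ, rfl⟩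
  rw [Set.mem_singleton_iff] at hν hκ
  rw [hν] at hν2
  rw [hκ] at hκ2
  obtain ⟨x, hx⟩ := fs_atom μ.1 (fs_orb μ.1 hν2)
  exact hx (hκ2 x)

/-! ### The profinite example -/

lemma D_toReal (μ : PM) (m n : ℕ) :
    (D μ m n).toReal = ∫ x, ‖m • x - n • x‖ ∂(μ : Measure UnitAddCircle) := by
  have hc : Continuous fun x : UnitAddCircle => ‖m • x - n • x‖ := (cont_mn m n).norm
  rw [integral_eq_lintegral_of_nonneg_ae (Eventually.of_forall fun x => norm_nonneg _)
    hc.aestronglyMeasurable]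
  congr 1
  unfold D
  refine lintegral_congr fun x => ?_
  rw [ofReal_norm]
  rfl

lemma D_ob (x : UnitAddCircle) (N : ℕ) (hN : 1 ≤ N) (m n : ℕ) : (D (ob x N hN) m n).toReal =
    ((N : ℝ) * N)⁻¹ * ∑ i ∈ Finset.range N, ∑ j ∈ Finset.range N,
      ‖m • (Sg i j • x) - n • (Sg i j • x)‖ := by
  rw [D_toReal]
  exact orb_integral x N N hN hN _ (cont_mn m n).norm

lemma D_ob_add (x y : UnitAddCircle) (N : ℕ) (hN : 1 ≤ N) (m n : ℕ) :
    (D (ob (x + y) N hN) m n).toReal ≤ (D (ob x N hN) m n).toReal + (D (ob y N hN) m n).toReal := by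
  rw [D_ob, D_ob, D_ob, ← mul_add, ← Finset.sum_add_distrib]
  refine mul_le_mul_of_nonneg_left ?_ (by positivity)
  refine Finset.sum_le_sum fun i _ => ?_
  rw [← Finset.sum_add_distrib]
  refine Finset.sum_le_sum fun j _ => ?_
  have e : m • (Sg i j • (x + y)) - n • (Sg i j • (x + y)) =
      (m • (Sg i j • x) - n • (Sg i j • x)) + (m • (Sg i j • y) - n • (Sg i j • y)) := by
    simp only [nsmul_add]
    abel
  rw [e]
  exact norm_add_le _ _

lemma D_ob_add' (x y : UnitAddCircle) (N : ℕ) (hN : 1 ≤ N) (m n : ℕ) :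
    (D (ob x N hN) m n).toReal ≤ (D (ob (x + y) N hN) m n).toReal + (D (ob y N hN) m n).toReal := by
  rw [D_ob, D_ob, D_ob, ← mul_add, ← Finset.sum_add_distrib]
  refine mul_le_mul_of_nonneg_left ?_ (by positivity)
  refine Finset.sum_le_sum fun i _ => ?_
  rw [← Finset.sum_add_distrib]
  refine Finset.sum_le_sum fun j _ => ?_
  have e : m • (Sg i j • x) - n • (Sg i j • x) =
      (m • (Sg i j • (x + y)) - n • (Sg i j • (x + y))) - (m • (Sg i j • y) - n • (Sg i j • y)) := by
    simp only [nsmul_add]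
    abel
  rw [e]
  exact norm_sub_le _ _

lemma D_ob_le (x : UnitAddCircle) (N : ℕ) (hN : 1 ≤ N) (hP : Per x N) (i j i' j' : ℕ) :
    (D (ob x N hN) (Sg i j) (Sg i' j')).toReal ≤ 2 * (J (ob x N hN)).toReal := by
  have h := D_le_two (ob x N hN) (inv_ob hN hP) i j i' j'
  have h2 : 2 * J (ob x N hN) ≠ ⊤ := ENNReal.mul_ne_top (by simp) (J_ne_top _)
  have h3 := ENNReal.toReal_mono h2 h
  rwa [ENNReal.toReal_mul, ENNReal.toReal_ofNat] at h3

lemma norm_avk_sub (N : ℕ) (hN : 1 ≤ N) (k : ℤ) (x y : UnitAddCircle) :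
    ‖avk N k (x + y) - avk N k x‖ ≤ 2 * Real.pi * |(k : ℝ)| *
      (((N : ℝ) * N)⁻¹ * ∑ i ∈ Finset.range N, ∑ j ∈ Finset.range N, ‖Sg i j • y‖) := by
  have h := F_ob_add x y N hN k
  rw [F_ob, F_ob, J_ob] at h
  exact h

/-- The variances of the sum of a periodic point and of a point of small orbit. -/
lemma V_ob_add (x w : UnitAddCircle) (N : ℕ) (hN : 1 ≤ N) (hPx : Per x N) (P : ℕ) (hP : 1 ≤ P)
    (hPw : Per w P) (hPx' : Per x P) (k : ℤ) :
    V N k (ob (x + w) P hP) ≤ 4 * Real.pi * |(k : ℝ)| * (J (ob w P hP)).toReal := by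
  have hP' : Per (x + w) P := hPx'.add hPw
  set c := avk N k x with hc
  have hcc := continuous_avk N k
  have hinv := inv_ob hP hP'
  -- minimality of the mean
  have h1 : V N k (ob (x + w) P hP) ≤
      ∫ y, ‖avk N k y - c‖ ^ 2 ∂(ob (x + w) P hP : Measure UnitAddCircle) := by
    set ν : PM := ob (x + w) P hP with hν
    have e4 : ∀ y, ‖avk N k y - c‖ ^ 2 = (‖avk N k y‖ ^ 2 - 2 * (avk N k y * star c).re) +
        ‖c‖ ^ 2 := by
      intro y
      rw [← Complex.normSq_eq_norm_sq, ← Complex.normSq_eq_norm_sq, ← Complex.normSq_eq_norm_sq,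
        Complex.normSq_sub]
      simp only [Complex.star_def]
      ring
    have c1 : Continuous fun y => ‖avk N k y‖ ^ 2 := hcc.norm.pow 2
    have c2 : Continuous fun y => 2 * (avk N k y * star c).re :=
      continuous_const.mul (Complex.continuous_re.comp (hcc.mul continuous_const))
    simp_rw [e4]
    have j1 : ∫ y, ((‖avk N k y‖ ^ 2 - 2 * (avk N k y * star c).re) + ‖c‖ ^ 2)
        ∂(ν : Measure UnitAddCircle) =
        ∫ y, (‖avk N k y‖ ^ 2 - 2 * (avk N k y * star c).re) ∂(ν : Measure UnitAddCircle) +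
          ∫ _, ‖c‖ ^ 2 ∂(ν : Measure UnitAddCircle) :=
      integral_add (f := fun y => ‖avk N k y‖ ^ 2 - 2 * (avk N k y * star c).re)
        ((integrable_r ν _ c1).sub (integrable_r ν _ c2)) (integrable_const _)
    rw [j1, integral_sub (integrable_r ν _ c1) (integrable_r ν _ c2), integral_const_mul]
    have i3 : Integrable (fun y => avk N k y * star c) (ν : Measure UnitAddCircle) :=
      (integrable_c ν _ hcc).mul_const _
    have e5 : ∫ y, (avk N k y * star c).re ∂(ν : Measure UnitAddCircle) =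
        (∫ y, avk N k y * star c ∂(ν : Measure UnitAddCircle)).re := integral_re i3
    rw [e5, integral_mul_const, integral_avk ν hinv N hN k]
    unfold V
    simp only [integral_const, smul_eq_mul, probReal_univ, one_mul]
    have e7 : 0 ≤ ‖F k ν - c‖ ^ 2 := by positivity
    have e8 : ‖F k ν - c‖ ^ 2 = ‖F k ν‖ ^ 2 - 2 * (F k ν * star c).re + ‖c‖ ^ 2 := by
      rw [← Complex.normSq_eq_norm_sq, ← Complex.normSq_eq_norm_sq, ← Complex.normSq_eq_norm_sq,
        Complex.normSq_sub]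
      simp only [Complex.star_def]
      ring
    linarith
  refine h1.trans ?_
  have h2 := orb_integral (x + w) P P hP hP (fun y => ‖avk N k y - c‖ ^ 2)
    ((hcc.sub continuous_const).norm.pow 2)
  change ∫ y, _ ∂(orb (x + w) P P hP hP : Measure UnitAddCircle) ≤ _
  rw [h2]
  have hle1 : ∀ y, ‖avk N k y‖ ≤ 1 := by
    intro y
    unfold avk
    rw [norm_mul, norm_inv, norm_mul, Complex.norm_natCast]
    have hN0 : (0 : ℝ) < N := by exact_mod_cast hN
    rw [inv_mul_le_iff₀ (by positivity), mul_one]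
    refine (norm_sum_le _ _).trans ?_
    calc ∑ i ∈ Finset.range N, ‖∑ j ∈ Finset.range N, (fourier k (Sg i j • y) : ℂ)‖
        ≤ ∑ i ∈ Finset.range N, (N : ℝ) := by
          refine Finset.sum_le_sum fun i _ => (norm_sum_le _ _).trans ?_
          refine (Finset.sum_le_sum fun j _ => (norm_fourier k _).le).trans ?_
          simp
      _ = N * N := by simp
  -- pointwise bound on the orbit
  have h3 : ∀ i j : ℕ, ‖avk N k (Sg i j • (x + w)) - c‖ ^ 2 ≤
      2 * (2 * Real.pi * |(k : ℝ)| * (((N : ℝ) * N)⁻¹ *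
        ∑ a ∈ Finset.range N, ∑ b ∈ Finset.range N, ‖Sg a b • (Sg i j • w)‖)) := by
    intro i j
    have h4 := norm_avk_sub N hN k (Sg i j • x) (Sg i j • w)
    rw [avk_orbit x N hN hPx k i j, ← nsmul_add] at h4
    have h5 : ‖avk N k (Sg i j • (x + w)) - c‖ ≤ 2 := by
      calc _ ≤ ‖avk N k (Sg i j • (x + w))‖ + ‖c‖ := norm_sub_le _ _
        _ ≤ 1 + 1 := add_le_add (hle1 _) (hle1 _)
        _ = 2 := by norm_num
    calc ‖avk N k (Sg i j • (x + w)) - c‖ ^ 2 =
          ‖avk N k (Sg i j • (x + w)) - c‖ * ‖avk N k (Sg i j • (x + w)) - c‖ := sq _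
      _ ≤ 2 * _ := by gcongr
  -- the mean over the orbit
  have h6 : ∀ a b : ℕ, ((P : ℝ) * P)⁻¹ * ∑ i ∈ Finset.range P, ∑ j ∈ Finset.range P,
      ‖Sg a b • (Sg i j • w)‖ = (J (ob w P hP)).toReal := by
    intro a b
    have h7 := integral_norm_push (Sg a b) (ob w P hP)
    unfold Sg at h7
    rw [push_inv _ (inv_ob hP hPw)] at h7
    rw [← h7]
    exact (orb_integral w P P hP hP _ (continuous_nsmul _).norm).symm
  have hP0 : (0 : ℝ) < P := by exact_mod_cast hP
  have hN0 : (0 : ℝ) < N := by exact_mod_cast hN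
  calc ((P : ℝ) * P)⁻¹ * ∑ i ∈ Finset.range P, ∑ j ∈ Finset.range P,
        ‖avk N k ((2 ^ i * 3 ^ j) • (x + w)) - c‖ ^ 2
      ≤ ((P : ℝ) * P)⁻¹ * ∑ i ∈ Finset.range P, ∑ j ∈ Finset.range P,
        2 * (2 * Real.pi * |(k : ℝ)| * (((N : ℝ) * N)⁻¹ *
        ∑ a ∈ Finset.range N, ∑ b ∈ Finset.range N, ‖Sg a b • (Sg i j • w)‖)) := by
        refine mul_le_mul_of_nonneg_left ?_ (by positivity)
        exact Finset.sum_le_sum fun i _ => Finset.sum_le_sum fun j _ => h3 i j
    _ = 4 * Real.pi * |(k : ℝ)| * (((N : ℝ) * N)⁻¹ * ∑ a ∈ Finset.range N,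
          ∑ b ∈ Finset.range N, (((P : ℝ) * P)⁻¹ * ∑ i ∈ Finset.range P,
            ∑ j ∈ Finset.range P, ‖Sg a b • (Sg i j • w)‖)) := by
        have e1 : ∑ i ∈ Finset.range P, ∑ j ∈ Finset.range P,
            ∑ a ∈ Finset.range N, ∑ b ∈ Finset.range N, ‖Sg a b • (Sg i j • w)‖ =
            ∑ a ∈ Finset.range N, ∑ b ∈ Finset.range N, ∑ i ∈ Finset.range P,
              ∑ j ∈ Finset.range P, ‖Sg a b • (Sg i j • w)‖ := by
          have e2 : ∀ i ∈ Finset.range P, ∑ j ∈ Finset.range P,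
              ∑ a ∈ Finset.range N, ∑ b ∈ Finset.range N, ‖Sg a b • (Sg i j • w)‖ =
              ∑ a ∈ Finset.range N, ∑ j ∈ Finset.range P,
                ∑ b ∈ Finset.range N, ‖Sg a b • (Sg i j • w)‖ := fun i _ => Finset.sum_comm
          rw [Finset.sum_congr rfl e2, Finset.sum_comm]
          refine Finset.sum_congr rfl fun a _ => ?_
          have e3 : ∀ i ∈ Finset.range P, ∑ j ∈ Finset.range P,
              ∑ b ∈ Finset.range N, ‖Sg a b • (Sg i j • w)‖ =
              ∑ b ∈ Finset.range N, ∑ j ∈ Finset.range P, ‖Sg a b • (Sg i j • w)‖ :=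
            fun i _ => Finset.sum_comm
          rw [Finset.sum_congr rfl e3, Finset.sum_comm]
        simp only [← Finset.mul_sum]
        rw [e1]
        ring
    _ = 4 * Real.pi * |(k : ℝ)| * (((N : ℝ) * N)⁻¹ * ∑ a ∈ Finset.range N,
          ∑ b ∈ Finset.range N, (J (ob w P hP)).toReal) := by
        simp only [h6]
    _ = _ := by
        simp only [Finset.sum_const, Finset.card_range, nsmul_eq_mul]
        field_simp

end Pool.Agent.H266.FE
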