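import Mathlib
import Pool.Agent.H266.FE4

set_option autoImplicit false

open MeasureTheory Filter Topology
open scoped ENNReal NNReal Nat

namespace Pool.Agent.H266.FE

open Pool.Agent.H635F Pool.Agent.H266.FD

/-- A stage of the construction. -/
structure St where
  z : UnitAddCircle
  P : ℕ
  hP : 1 ≤ P
  per : Per z P
  δ : ℝ
  hδ : 0 < δ

/-- The relation of two consecutive stages. -/
def Next (K : ℕ) (s s' : St) : Prop :=
  ∃ (w : UnitAddCircle) (a : ℕ), 1 ≤ a ∧ s'.z = s.z + w ∧ s'.P = s.P * a ∧ Per w s'.P ∧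
    (J (ob w s'.P s'.hP)).toReal ≤ s.δ / 2 ∧ s'.δ ≤ s.δ / 2 ∧
      8 * s'.δ ≤ (D (ob s'.z s'.P s'.hP) (2 ^ ((K + 1) !)) 1).toReal

lemma exists_next (H : NoGapOrb) (K : ℕ) (s : St) : ∃ s' : St, Next K s s' := by
  obtain ⟨x, N, hN, hP, hx, hJ⟩ := exists_seq H
  have hE : 1 ≤ 2 ^ ((K + 1) !) - 1 := by
    have h1 : 2 ^ 1 ≤ 2 ^ ((K + 1) !) := Nat.pow_le_pow_right (by norm_num) (Nat.factorial_pos _)
    omega
  have h1 := eventually_large x N hN hP hx hJ s.z s.P s.hP s.per _ hE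
  have h2 : ∀ᶠ n : ℕ in atTop, 1 / ((n : ℝ) + 1) < s.δ / 2 :=
    tendsto_one_div_add_atTop_nhds_zero_nat.eventually (Iio_mem_nhds (by have := s.hδ; positivity))
  obtain ⟨n, hn1, hn2⟩ := (h1.and h2).exists
  have hP1 : 1 ≤ s.P * N n := Nat.mul_pos s.hP (hN n)
  have hper : Per (s.z + x n) (s.P * N n) := (s.per.mul (N n)).add ((hP n).mul' s.P)
  set d : ℝ := (D (ob (s.z + x n) (s.P * N n) hP1) (2 ^ ((K + 1) !)) 1).toReal with hd
  have hdpos : 0 < d := by
    refine lt_of_le_of_ne ENNReal.toReal_nonneg fun h0 => hn1 ?_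
    rw [hd, D_ob] at h0
    have hP0 : (0 : ℝ) < ((s.P * N n : ℕ) : ℝ) := by exact_mod_cast hP1
    have h3 := (mul_eq_zero.1 h0.symm).resolve_left (by positivity)
    have h4 := (Finset.sum_eq_zero_iff_of_nonneg (fun i _ => Finset.sum_nonneg
      fun j _ => norm_nonneg _)).1 h3 0 (Finset.mem_range.2 hP1)
    have h5 := (Finset.sum_eq_zero_iff_of_nonneg (fun j _ => norm_nonneg _)).1 h4 0
      (Finset.mem_range.2 hP1)
    have h6 : (2 ^ ((K + 1) !)) • (s.z + x n) = s.z + x n := by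
      have h7 := sub_eq_zero.1 (norm_eq_zero.1 h5)
      simpa [Sg] using h7
    exact per_torsion _ _ h6
  refine ⟨⟨s.z + x n, s.P * N n, hP1, hper, min (s.δ / 2) (d / 8), ?_⟩, x n, N n, hN n, rfl, rfl,
    (hP n).mul' s.P, ?_, min_le_left _ _, ?_⟩
  · have := s.hδ
    positivity
  · change (J (ob (x n) (s.P * N n) hP1)).toReal ≤ s.δ / 2
    rw [ob_mul' (hN n) (hP n) s.P s.hP hP1]
    exact (hJ n).trans hn2.le
  · have := min_le_right (s.δ / 2) (d / 8)
    change 8 * min (s.δ / 2) (d / 8) ≤ d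
    linarith

/-- The whole construction. -/
lemma exists_stages (H : NoGapOrb) : ∃ s : ℕ → St, (s 0).δ = 1 ∧ ∀ K, Next K (s K) (s (K + 1)) := by
  choose f hf using exists_next H
  let s0 : St := ⟨0, 1, le_rfl, per_zero' 1, 1, one_pos⟩
  exact ⟨fun K => Nat.rec s0 (fun K s => f K s) K, rfl, fun K => hf K _⟩

lemma J_ob_zero (P : ℕ) (hP : 1 ≤ P) : (J (ob 0 P hP)).toReal = 0 := by
  rw [J_ob]
  simp

lemma stages_cmp (s : ℕ → St) (hs : ∀ K, Next K (s K) (s (K + 1))) (K L : ℕ) (hKL : K ≤ L) :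
    ∃ (w : UnitAddCircle) (a : ℕ), 1 ≤ a ∧ (s L).z = (s K).z + w ∧ (s L).P = (s K).P * a ∧
      Per w (s L).P ∧ (J (ob w (s L).P (s L).hP)).toReal + (s L).δ ≤ (s K).δ := by
  induction L, hKL using Nat.le_induction with
  | base => exact ⟨0, 1, le_rfl, (add_zero _).symm, (mul_one _).symm, per_zero' _, by
      rw [J_ob_zero]; simp⟩
  | succ L hKL ih =>
    obtain ⟨w, a, ha, hz, hP, hw, hJ⟩ := ih
    obtain ⟨v, b, hb, hz', hP', hv, hJv, hδ, -⟩ := hs L
    refine ⟨w + v, a * b, Nat.mul_pos ha hb, by rw [hz', hz, add_assoc],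
      by rw [hP', hP, mul_assoc], ?_, ?_⟩
    · refine Per.add ?_ hv
      rw [hP']
      exact hw.mul b
    · have h1 := J_ob_add w v (s (L + 1)).P (s (L + 1)).hP
      have h2 : ∀ (Q : ℕ) (hQ : 1 ≤ Q), Q = (s L).P * b → ob w Q hQ = ob w (s L).P (s L).hP := by
        rintro Q hQ rfl
        exact ob_mul (s L).hP hw b hb hQ
      rw [h2 _ _ hP'] at h1
      have h3 := (s L).hδ
      linarith

lemma delta_le (s : ℕ → St) (h0 : (s 0).δ = 1) (hs : ∀ K, Next K (s K) (s (K + 1))) (K : ℕ) :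
    (s K).δ ≤ (1 / 2 : ℝ) ^ K := by
  induction K with
  | zero => rw [h0]; simp
  | succ K ih =>
    obtain ⟨v, b, hb, hz', hP', hv, hJv, hδ, -⟩ := hs K
    calc (s (K + 1)).δ ≤ (s K).δ / 2 := hδ
      _ ≤ (1 / 2 : ℝ) ^ K / 2 := by gcongr
      _ = _ := by rw [pow_succ]; ring

lemma atom_torsion (μ : PM) (hinv : Inv μ) (x : UnitAddCircle)
    (hx : (μ : Measure UnitAddCircle) {x} ≠ 0) : ∃ i d : ℕ, 1 ≤ d ∧
      (2 ^ d - 1) • ((2 ^ i) • x) = 0 := by
  by_contra hcon
  push Not at hcon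
  have hinj : Function.Injective (fun i : ℕ => (2 ^ i) • x) := by
    intro i j hij
    by_contra hne
    wlog hlt : i < j generalizing i j
    · exact this hij.symm (Ne.symm hne) (lt_of_le_of_ne (not_lt.1 hlt) (Ne.symm hne))
    apply hcon i (j - i) (by omega)
    apply per_torsion
    rw [← mul_nsmul', ← pow_add, Nat.sub_add_cancel hlt.le]
    exact hij.symm
  have h1 : ∑' i : ℕ, (μ : Measure UnitAddCircle) {(2 ^ i) • x} ≤ 1 := by
    have h2 : Pairwise (Function.onFun Disjoint fun i : ℕ => ({(2 ^ i) • x} : Set UnitAddCircle)) := by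
      intro i j hij
      rw [Function.onFun, Set.disjoint_singleton]
      exact fun h => hij (hinj h)
    rw [← measure_iUnion h2 fun i => measurableSet_singleton _]
    exact prob_le_one
  have h3 : ∑' _ : ℕ, (μ : Measure UnitAddCircle) {x} ≤ 1 :=
    (ENNReal.tsum_le_tsum fun i => atom_mono μ hinv.1 x i).trans h1
  rw [ENNReal.tsum_const_eq_top_of_ne_zero hx] at h3
  simp at h3

lemma atomless_of (μ : PM) (hinv : Inv μ) (herg : JointlyErgodic (μ : Measure UnitAddCircle))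
    (h : ∀ m : ℕ, 1 ≤ m → D μ (2 ^ (m !)) 1 ≠ 0) (x : UnitAddCircle) :
    (μ : Measure UnitAddCircle) {x} = 0 := by
  by_contra hx
  obtain ⟨i, d, hd, h0⟩ := atom_torsion μ hinv x hx
  set A : Set UnitAddCircle := {y | (2 ^ (d !) - 1) • y = 0} with hA
  have hAm : MeasurableSet A := (isClosed_eq (continuous_nsmul _) continuous_const).measurableSet
  have hmem : (2 ^ i) • x ∈ A := by
    change (2 ^ (d !) - 1) • ((2 ^ i) • x) = 0
    apply per_torsion
    have h1 : (2 ^ d) • ((2 ^ i) • x) = (2 ^ i) • x := by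
      have h2 : (2 ^ d - 1 + 1) • ((2 ^ i) • x) = (2 ^ i) • x := by
        rw [add_nsmul, h0, zero_add, one_nsmul]
      rwa [Nat.sub_add_cancel Nat.one_le_two_pow] at h2
    obtain ⟨k, hk⟩ := Nat.dvd_factorial (by omega : 0 < d) le_rfl
    rw [hk]
    exact pow_smul_per 2 d _ h1 k
  have hpos : (μ : Measure UnitAddCircle) A ≠ 0 := by
    intro hA0
    apply hx
    refine le_antisymm ((atom_mono μ hinv.1 x i).trans ?_) zero_le
    exact (measure_mono (Set.singleton_subset_iff.2 hmem)).trans hA0.le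
  have hone : (μ : Measure UnitAddCircle) A = 1 := by
    refine (ergodic_ae μ hinv herg A hAm ?_ ?_).resolve_left hpos
    · refine Eventually.of_forall fun y hy => ?_
      change (2 ^ (d !) - 1) • (2 • y) = 0
      rw [smul_comm, show (2 ^ (d !) - 1) • y = 0 from hy, smul_zero]
    · refine Eventually.of_forall fun y hy => ?_
      change (2 ^ (d !) - 1) • (3 • y) = 0
      rw [smul_comm, show (2 ^ (d !) - 1) • y = 0 from hy, smul_zero]
  apply h d hd
  unfold D
  rw [lintegral_eq_zero_iff (meas_mn _ _)]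
  have hae : ∀ᵐ y ∂(μ : Measure UnitAddCircle), y ∈ A := by
    have hmem' : A ∈ ae (μ : Measure UnitAddCircle) := (mem_ae_iff_prob_eq_one hAm).2 hone
    exact hmem'
  filter_upwards [hae] with y hy
  have h3 : (2 ^ (d !)) • y - 1 • y = 0 := by
    have h4 : (2 ^ (d !) - 1) • y = 0 := hy
    have h5 : (2 ^ (d !) - 1 + 1) • y = y := by rw [add_nsmul, h4, zero_add, one_nsmul]
    rw [Nat.sub_add_cancel Nat.one_le_two_pow] at h5
    rw [h5, one_nsmul, sub_self]
  rw [h3]
  simp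

/-- An ergodic atomless limit of periodic orbits of profinite type. -/
theorem exists_profinite' (H : NoGapOrb) : ∃ μ : EE, (∀ x, (μ.1 : Measure UnitAddCircle) {x} = 0) ∧
    JointlyErgodic (μ.1 : Measure UnitAddCircle) ∧ PF μ.1 := by
  obtain ⟨s, h0, hs⟩ := exists_stages H
  let f : ℕ → PM := fun L => ob (s L).z (s L).P (s L).hP
  let U : Ultrafilter ℕ := Filter.hyperfilter ℕ
  have hU : (U : Filter ℕ) ≤ atTop := by
    have := Filter.hyperfilter_le_cofinite (α := ℕ)
    rwa [Nat.cofinite_eq_atTop] at this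
  obtain ⟨μ, hμ⟩ := exists_ulim f U
  have hor : ∀ L, IsOrb (f L) := fun L => (isOrb_iff _).2 ⟨_, _, _, (s L).per, rfl⟩
  have hcl : μ ∈ closure {ν : PM | IsOrb ν} := mem_closure_of_tendsto hμ
    (Eventually.of_forall fun L => hor L)
  have hinv : Inv μ := inv_EE ⟨μ, hcl⟩
  have hDlim : ∀ m n : ℕ, Tendsto (fun L => (D (f L) m n).toReal) U (𝓝 (D μ m n).toReal) :=
    fun m n => (ENNReal.tendsto_toReal (D_ne_top μ m n)).comp
      (((continuous_D m n).tendsto μ).comp hμ)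
  -- comparison of the stages
  have hcmp : ∀ K L : ℕ, K ≤ L → ∀ m n : ℕ,
      (∃ i j i' j' : ℕ, m = Sg i j ∧ n = Sg i' j') →
      (D (f L) m n).toReal ≤ (D (f K) m n).toReal + 2 * (s K).δ ∧
      (D (f K) m n).toReal ≤ (D (f L) m n).toReal + 2 * (s K).δ := by
    rintro K L hKL m n ⟨i, j, i', j', rfl, rfl⟩
    obtain ⟨w, a, ha, hz, hP, hw, hJ⟩ := stages_cmp s hs K L hKL
    have h2 : ∀ (Q : ℕ) (hQ : 1 ≤ Q), Q = (s K).P * a →
        ob (s K).z Q hQ = ob (s K).z (s K).P (s K).hP := by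
      rintro Q hQ rfl
      exact ob_mul (s K).hP (s K).per a ha hQ
    have h3 := D_ob_add (s K).z w (s L).P (s L).hP (Sg i j) (Sg i' j')
    have h4 := D_ob_add' (s K).z w (s L).P (s L).hP (Sg i j) (Sg i' j')
    have h5 := D_ob_le w (s L).P (s L).hP hw i j i' j'
    rw [h2 _ _ hP, ← hz] at h3 h4
    have h6 := (s L).hδ
    constructor
    · change (D (ob (s L).z (s L).P (s L).hP) _ _).toReal ≤
        (D (ob (s K).z (s K).P (s K).hP) _ _).toReal + _
      linarith
    · change (D (ob (s K).z (s K).P (s K).hP) _ _).toReal ≤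
        (D (ob (s L).z (s L).P (s L).hP) _ _).toReal + _
      linarith
  have hPF : ∀ K i j : ℕ, (D μ (Sg ((s K).P * i) ((s K).P * j)) 1).toReal ≤ 2 * (s K).δ := by
    intro K i j
    refine le_of_tendsto (hDlim _ _) ?_
    have h1 : ∀ᶠ L in (U : Filter ℕ), K ≤ L := hU (eventually_ge_atTop K)
    filter_upwards [h1] with L hL
    have h2 := (hcmp K L hL (Sg ((s K).P * i) ((s K).P * j)) 1
      ⟨_, _, 0, 0, rfl, rfl⟩).1
    have h3 : (D (f K) (Sg ((s K).P * i) ((s K).P * j)) 1).toReal = 0 := by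
      change (D (ob (s K).z (s K).P (s K).hP) _ _).toReal = 0
      rw [D_ob]
      have h4 : ∀ a b : ℕ, ‖Sg ((s K).P * i) ((s K).P * j) • (Sg a b • (s K).z) -
          1 • (Sg a b • (s K).z)‖ = 0 := by
        intro a b
        have hp : Per (Sg a b • (s K).z) (s K).P := (s K).per.smul _
        have h5 : Sg ((s K).P * i) ((s K).P * j) • (Sg a b • (s K).z) = Sg a b • (s K).z := by
          have e : Sg ((s K).P * i) ((s K).P * j) = 2 ^ ((s K).P * i) * 3 ^ ((s K).P * j) := rfl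
          rw [e, mul_nsmul', (hp.mul j).2, (hp.mul i).1]
        rw [h5, one_nsmul, sub_self, norm_zero]
      simp only [h4, Finset.sum_const_zero, mul_zero]
    linarith
  have hδ0 : Tendsto (fun K => (s K).δ) atTop (𝓝 0) := by
    refine squeeze_zero (fun K => (s K).hδ.le) (fun K => delta_le s h0 hs K) ?_
    exact tendsto_pow_atTop_nhds_zero_of_lt_one (by norm_num) (by norm_num)
  have herg : JointlyErgodic (μ : Measure UnitAddCircle) := by
    refine erg_of_V μ hinv fun k ε hε => ?_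
    have h1 : Tendsto (fun K => 4 * Real.pi * |(k : ℝ)| * (s K).δ) atTop
        (𝓝 (4 * Real.pi * |(k : ℝ)| * 0)) := hδ0.const_mul _
    rw [mul_zero] at h1
    obtain ⟨K, hK⟩ := (h1.eventually (Iio_mem_nhds hε)).exists
    refine ⟨(s K).P, (s K).hP, lt_of_le_of_lt ?_ hK⟩
    refine le_of_tendsto (((continuous_V (s K).P k).tendsto μ).comp hμ) ?_
    have h2 : ∀ᶠ L in (U : Filter ℕ), K ≤ L := hU (eventually_ge_atTop K)
    filter_upwards [h2] with L hL
    obtain ⟨w, a, ha, hz, hP, hw, hJ⟩ := stages_cmp s hs K L hL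
    have hper : Per (s K).z (s L).P := by rw [hP]; exact (s K).per.mul a
    have h3 := V_ob_add (s K).z w (s K).P (s K).hP (s K).per (s L).P (s L).hP hw hper k
    rw [← hz] at h3
    refine h3.trans ?_
    have h6 := (s L).hδ
    have h7 : (J (ob w (s L).P (s L).hP)).toReal ≤ (s K).δ := by linarith
    exact mul_le_mul_of_nonneg_left h7 (by positivity)
  refine ⟨⟨μ, hcl⟩, ?_, herg, ?_⟩
  · refine atomless_of μ hinv herg fun m hm hD => ?_
    obtain ⟨K, rfl⟩ : ∃ K, m = K + 1 := ⟨m - 1, by omega⟩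
    obtain ⟨v, b, hb, hz', hP', hv, hJv, hδ, h8⟩ := hs K
    have h1 : 8 * (s (K + 1)).δ ≤ (D μ (2 ^ ((K + 1) !)) 1).toReal + 2 * (s (K + 1)).δ := by
      refine ge_of_tendsto ((hDlim (2 ^ ((K + 1) !)) 1).add_const (2 * (s (K + 1)).δ)) ?_
      have h2 : ∀ᶠ L in (U : Filter ℕ), K + 1 ≤ L := hU (eventually_ge_atTop (K + 1))
      filter_upwards [h2] with L hL
      have h3 := (hcmp (K + 1) L hL (2 ^ ((K + 1) !)) 1
        ⟨(K + 1)!, 0, 0, 0, by simp [Sg], rfl⟩).2
      exact h8.trans h3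
    rw [hD, ENNReal.toReal_zero, zero_add] at h1
    have := (s (K + 1)).hδ
    linarith
  · intro ε hε
    have hε' : 0 < (min ε 1).toReal := ENNReal.toReal_pos
      (by rw [← pos_iff_ne_zero, lt_min_iff]; exact ⟨pos_iff_ne_zero.2 hε, one_pos⟩)
      (ne_top_of_le_ne_top ENNReal.one_ne_top (min_le_right _ _))
    have h1 : Tendsto (fun K => 2 * (s K).δ) atTop (𝓝 (2 * 0)) := hδ0.const_mul _
    rw [mul_zero] at h1
    obtain ⟨K, hK⟩ := (h1.eventually (Iio_mem_nhds hε')).exists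
    refine ⟨(s K).P, (s K).hP, fun i j => ?_⟩
    have h2 := (hPF K i j).trans hK.le
    have h3 := (ENNReal.toReal_le_toReal (D_ne_top _ _ _) (ne_top_of_le_ne_top ENNReal.one_ne_top
      (min_le_right _ _))).1 h2
    exact h3.trans (min_le_left _ _)

end Pool.Agent.H266.FE
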