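import Mathlib
import Pool.Graph.R_pool_sql_team_seeded_2aa45f1a.Q227.Tr.Meas
import Pool.Agent.H266.FE5

set_option autoImplicit false

open MeasureTheory Filter Topology
open scoped ComplexOrder

namespace Pool.Agent.H266.FE

open Pool.Agent.W763.Tr

section

variable {G : Type*} [Group G]

/-- Normalised positive definite class functions. -/
def TrS (G : Type*) [Group G] : Set (G → ℂ) :=
  {ψ : G → ℂ | ψ 1 = 1 ∧ (∀ g h : G, ψ (h * g * h⁻¹) = ψ g) ∧
    ∀ (s : Finset G) (c : G → ℂ), 0 ≤ ∑ i ∈ s, ∑ j ∈ s, star (c j) * c i * ψ (j⁻¹ * i)}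

lemma pd_one {ψ : G → ℂ} (h : PD ψ) : 0 ≤ ψ 1 := by
  have := h {1} (fun _ => 1)
  simpa using this

lemma pd_zero {ψ : G → ℂ} (h : PD ψ) (h0 : ψ 1 = 0) (g : G) : ψ g = 0 := by
  have key : ∀ w : ℂ, 0 ≤ star w * ψ g + w * ψ g⁻¹ := by
    intro w
    have h2 := h.family (Finset.univ : Finset (Fin 2)) ![1, g] ![w, 1]
    simp only [Fin.sum_univ_two, Matrix.cons_val_zero, Matrix.cons_val_one, inv_one, one_mul,
      mul_one, star_one, h0, mul_zero, inv_mul_cancel, zero_add, add_zero] at h2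
    rw [add_comm]
    exact h2
  have k1 := key 1
  have k2 := key (-1)
  have k3 := key Complex.I
  have k4 := key (-Complex.I)
  have e1 : ψ g + ψ g⁻¹ = 0 := by
    refine le_antisymm ?_ (by simpa using k1)
    have : 0 ≤ -(ψ g + ψ g⁻¹) := by
      have e : -(ψ g + ψ g⁻¹) = star (-1 : ℂ) * ψ g + (-1) * ψ g⁻¹ := by simp; ring
      rw [e]; exact k2
    exact neg_nonneg.1 this
  have e2 : Complex.I * (ψ g⁻¹ - ψ g) = 0 := by
    refine le_antisymm ?_ ?_
    · have : 0 ≤ -(Complex.I * (ψ g⁻¹ - ψ g)) := by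
        have e : -(Complex.I * (ψ g⁻¹ - ψ g)) = star (-Complex.I) * ψ g + (-Complex.I) * ψ g⁻¹ := by
          simp; ring
        rw [e]; exact k4
      exact neg_nonneg.1 this
    · have e : Complex.I * (ψ g⁻¹ - ψ g) = star Complex.I * ψ g + Complex.I * ψ g⁻¹ := by
        simp; ring
      rw [e]; exact k3
  have e3 : ψ g⁻¹ - ψ g = 0 := (mul_eq_zero.1 e2).resolve_left Complex.I_ne_zero
  have e4 : ψ g⁻¹ = ψ g := sub_eq_zero.1 e3
  rw [e4, ← two_mul] at e1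
  exact (mul_eq_zero.1 e1).resolve_left two_ne_zero

lemma pd_norm_le {ψ : G → ℂ} (h : PD ψ) (h1 : ψ 1 = 1) (g : G) : ‖ψ g‖ ≤ 1 := by
  have h2 := h.family (Finset.univ : Finset (Fin 2)) ![1, g] ![-ψ g, 1]
  simp only [Fin.sum_univ_two, Matrix.cons_val_zero, Matrix.cons_val_one, inv_one, one_mul,
    mul_one, star_one, h1, inv_mul_cancel, h.inv h1] at h2
  have e : star (-ψ g) * -ψ g + -ψ g * star (ψ g) + (star (-ψ g) * ψ g + 1) =
      ((1 - ‖ψ g‖ ^ 2 : ℝ) : ℂ) := by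
    have h5 : ψ g * star (ψ g) = ((‖ψ g‖ ^ 2 : ℝ) : ℂ) := by
      rw [Complex.star_def, Complex.mul_conj, Complex.normSq_eq_norm_sq]
    rw [star_neg]
    push_cast
    push_cast at h5
    rw [← h5]
    ring
  have h3 : (0 : ℂ) ≤ ((1 - ‖ψ g‖ ^ 2 : ℝ) : ℂ) := by
    refine le_of_le_of_eq h2 ?_
    rw [← e]
  have h4 : 0 ≤ 1 - ‖ψ g‖ ^ 2 := by exact_mod_cast h3
  have := norm_nonneg (ψ g)
  nlinarith

lemma cl_swap {φ : G → ℂ} (hcl : ∀ g h : G, φ (h * g * h⁻¹) = φ g) (a b : G) :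
    φ (a * b) = φ (b * a) := by
  rw [← hcl (a * b) b]
  congr 1
  group

/-- Positivity of `y ↦ φ ((1 + ω b)* (1 + ω b) y)`. -/
lemma pd_theta {φ : G → ℂ} (hpd : PD φ) (hcl : ∀ g h : G, φ (h * g * h⁻¹) = φ g) (ω : ℂ)
    (hω : star ω * ω = 1) (b : G) :
    PD (fun y => 2 * φ y + (ω * φ (b * y) + star ω * φ (b⁻¹ * y))) := by
  intro s a
  have h := hpd.family (s ×ˢ (Finset.univ : Finset Bool))
    (fun p : G × Bool => if p.2 then b * p.1⁻¹ else p.1⁻¹)
    (fun p : G × Bool => if p.2 then ω * star (a p.1) else star (a p.1))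
  refine le_of_le_of_eq h ?_
  rw [Finset.sum_product]
  simp only [Finset.sum_product, Fintype.sum_bool, if_true, Bool.false_eq_true, if_false]
  rw [Finset.sum_comm]
  have hswap : ∀ r t z : G, φ (r * z * t⁻¹) = φ (z * (t⁻¹ * r)) := by
    intro r t z
    rw [mul_assoc, cl_swap hcl r (z * t⁻¹), mul_assoc]
  have key : ∀ t r : G,
      star (ω * star (a r)) * (ω * star (a t)) * φ ((b * r⁻¹)⁻¹ * (b * t⁻¹)) +
        star (star (a r)) * (ω * star (a t)) * φ ((r⁻¹)⁻¹ * (b * t⁻¹)) +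
      (star (ω * star (a r)) * star (a t) * φ ((b * r⁻¹)⁻¹ * t⁻¹) +
        star (star (a r)) * star (a t) * φ ((r⁻¹)⁻¹ * t⁻¹)) =
      star (a t) * a r * (2 * φ (t⁻¹ * r) + (ω * φ (b * (t⁻¹ * r)) +
        star ω * φ (b⁻¹ * (t⁻¹ * r)))) := by
    intro t r
    have e1 : φ ((b * r⁻¹)⁻¹ * (b * t⁻¹)) = φ (t⁻¹ * r) := by
      have : (b * r⁻¹)⁻¹ * (b * t⁻¹) = r * 1 * t⁻¹ := by group
      rw [this, hswap, one_mul]
    have e2 : φ ((r⁻¹)⁻¹ * (b * t⁻¹)) = φ (b * (t⁻¹ * r)) := by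
      have : (r⁻¹)⁻¹ * (b * t⁻¹) = r * b * t⁻¹ := by group
      rw [this, hswap]
    have e3 : φ ((b * r⁻¹)⁻¹ * t⁻¹) = φ (b⁻¹ * (t⁻¹ * r)) := by
      have : (b * r⁻¹)⁻¹ * t⁻¹ = r * b⁻¹ * t⁻¹ := by group
      rw [this, hswap]
    have e4 : φ ((r⁻¹)⁻¹ * t⁻¹) = φ (t⁻¹ * r) := by
      have : (r⁻¹)⁻¹ * t⁻¹ = r * 1 * t⁻¹ := by group
      rw [this, hswap, one_mul]
    rw [e1, e2, e3, e4]
    simp only [star_mul', star_star]
    calc _ = (star ω * ω) * (star (a t) * a r) * φ (t⁻¹ * r) + star (a t) * a r * φ (t⁻¹ * r) +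
          star (a t) * a r * (ω * φ (b * (t⁻¹ * r)) + star ω * φ (b⁻¹ * (t⁻¹ * r))) := by ring
      _ = _ := by rw [hω]; ring
  refine Finset.sum_congr rfl fun t _ => ?_
  rw [← Finset.sum_add_distrib]
  exact Finset.sum_congr rfl fun r _ => key t r

lemma pd_sum {ι : Type*} (s : Finset ι) (c : ι → ℝ) (hc : ∀ i ∈ s, 0 ≤ c i) (ψ : ι → G → ℂ)
    (h : ∀ i ∈ s, PD (ψ i)) : PD (fun y => ∑ i ∈ s, (c i : ℂ) * ψ i y) := by
  intro t a
  have e : ∑ p ∈ t, ∑ q ∈ t, star (a q) * a p * (∑ i ∈ s, (c i : ℂ) * ψ i (q⁻¹ * p)) =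
      ∑ i ∈ s, (c i : ℂ) * ∑ p ∈ t, ∑ q ∈ t, star (a q) * a p * ψ i (q⁻¹ * p) := by
    simp only [Finset.mul_sum]
    rw [Finset.sum_comm' (s := t) (t := fun _ => t) (s' := fun _ => t) (t' := t) (by simp)]
    have e2 : ∀ q ∈ t, ∑ p ∈ t, ∑ i ∈ s, star (a q) * a p * ((c i : ℂ) * ψ i (q⁻¹ * p)) =
        ∑ i ∈ s, ∑ p ∈ t, star (a q) * a p * ((c i : ℂ) * ψ i (q⁻¹ * p)) := fun q _ =>
      Finset.sum_comm
    rw [Finset.sum_congr rfl e2, Finset.sum_comm]
    refine Finset.sum_congr rfl fun i _ => ?_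
    rw [Finset.sum_comm]
    refine Finset.sum_congr rfl fun p _ => Finset.sum_congr rfl fun q _ => ?_
    ring
  rw [e]
  refine Finset.sum_nonneg fun i hi => mul_nonneg ?_ (h i hi t a)
  exact_mod_cast hc i hi

/-- **Central elements are scalars in an extreme trace.** -/
theorem central {φ : G → ℂ} (hext : φ ∈ Set.extremePoints ℝ (TrS G)) {ι : Type*} (s : Finset ι)
    (c : ι → ℝ) (hc : ∀ i ∈ s, 0 ≤ c i) (hc1 : ∑ i ∈ s, c i = 1) (b : ι → G)
    (hcen : ∀ g y : G, ∑ i ∈ s, (c i : ℂ) * φ (g * b i * g⁻¹ * y) =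
      ∑ i ∈ s, (c i : ℂ) * φ (b i * y)) (y : G) :
    ∑ i ∈ s, (c i : ℂ) * φ (b i * y) = (∑ i ∈ s, (c i : ℂ) * φ (b i)) * φ y := by
  obtain ⟨h1, hcl, hpd⟩ := hext.1
  have hpd' : PD φ := hpd
  set Z : G → ℂ := fun y => ∑ i ∈ s, (c i : ℂ) * φ (b i * y) with hZ
  set Z' : G → ℂ := fun y => ∑ i ∈ s, (c i : ℂ) * φ ((b i)⁻¹ * y) with hZ'
  have hZZ : ∀ y, Z' y = star (Z y⁻¹) := by
    intro y
    simp only [hZ, hZ', star_sum]
    refine Finset.sum_congr rfl fun i _ => ?_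
    have e : (b i)⁻¹ * y = (y⁻¹ * b i)⁻¹ := by group
    rw [e, hpd'.inv h1, star_mul', cl_swap hcl, Complex.star_def, Complex.conj_ofReal]
  have hZcl : ∀ g y : G, Z (g * y * g⁻¹) = Z y := by
    intro g y
    have e : ∀ i, φ (b i * (g * y * g⁻¹)) = φ (g⁻¹ * b i * (g⁻¹)⁻¹ * y) := by
      intro i
      rw [← hcl (g⁻¹ * b i * (g⁻¹)⁻¹ * y) g]
      congr 1
      group
    simp only [hZ, e]
    exact hcen g⁻¹ y
  have hZcl' : ∀ g y : G, Z' (g * y * g⁻¹) = Z' y := by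
    intro g y
    rw [hZZ, hZZ]
    congr 1
    rw [← hZcl g y⁻¹]
    congr 1
    group
  let ψ : ℂ → G → ℂ := fun ω y => ∑ i ∈ s, (c i : ℂ) * ((1 / 2 : ℝ) * (2 * φ y +
    (ω * φ (b i * y) + star ω * φ ((b i)⁻¹ * y))))
  have hψ : ∀ ω y, ψ ω y = φ y + 1 / 2 * (ω * Z y + star ω * Z' y) := by
    intro ω y
    simp only [ψ, hZ, hZ']
    have hc1' : ∑ i ∈ s, (c i : ℂ) = 1 := by exact_mod_cast hc1
    calc ∑ i ∈ s, (c i : ℂ) * ((1 / 2 : ℝ) * (2 * φ y + (ω * φ (b i * y) +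
          star ω * φ ((b i)⁻¹ * y))))
        = ∑ i ∈ s, ((c i : ℂ) * φ y + (1 / 2 * ω * ((c i : ℂ) * φ (b i * y)) +
          1 / 2 * star ω * ((c i : ℂ) * φ ((b i)⁻¹ * y)))) := by
          refine Finset.sum_congr rfl fun i _ => ?_
          push_cast
          ring
      _ = _ := by
          rw [Finset.sum_add_distrib, Finset.sum_add_distrib, ← Finset.sum_mul, hc1',
            ← Finset.mul_sum, ← Finset.mul_sum]
          ring
  have hψpd : ∀ ω : ℂ, star ω * ω = 1 → PD (ψ ω) := by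
    intro ω hω
    refine pd_sum s c hc _ fun i _ => ?_
    have h2 := pd_sum (G := G) {()} (fun _ => (1 / 2 : ℝ)) (fun _ _ => by norm_num)
      (fun _ y => 2 * φ y + (ω * φ (b i * y) + star ω * φ ((b i)⁻¹ * y)))
      (fun _ _ => pd_theta hpd' hcl ω hω (b i))
    simpa using h2
  have hψcl : ∀ (ω : ℂ) (g h : G), ψ ω (h * g * h⁻¹) = ψ ω g := by
    intro ω g h
    rw [hψ, hψ, hcl, hZcl, hZcl']
  -- the main step
  have key : ∀ ω : ℂ, star ω * ω = 1 → ∀ y, ψ ω y = ψ ω 1 * φ y := by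
    intro ω hω
    have hω' : star (-ω) * (-ω) = 1 := by rw [star_neg, neg_mul_neg, hω]
    have p1 := hψpd ω hω
    have p2 := hψpd (-ω) hω'
    have n1 := pd_one p1
    have n2 := pd_one p2
    have hsum : ∀ y, ψ ω y + ψ (-ω) y = 2 * φ y := by
      intro y
      rw [hψ, hψ, star_neg]
      ring
    obtain ⟨A, hA⟩ : ∃ A : ℝ, ψ ω 1 = A := ⟨(ψ ω 1).re, by
      apply Complex.ext
      · simp
      · rw [Complex.ofReal_im]; exact (Complex.nonneg_iff.1 n1).2.symm⟩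
    obtain ⟨B, hB⟩ : ∃ B : ℝ, ψ (-ω) 1 = B := ⟨(ψ (-ω) 1).re, by
      apply Complex.ext
      · simp
      · rw [Complex.ofReal_im]; exact (Complex.nonneg_iff.1 n2).2.symm⟩
    rw [hA] at n1
    rw [hB] at n2
    have nA : 0 ≤ A := by exact_mod_cast n1
    have nB : 0 ≤ B := by exact_mod_cast n2
    have hAB : A + B = 2 := by
      have h3 := hsum 1
      rw [hA, hB, h1, mul_one] at h3
      exact_mod_cast h3
    rcases eq_or_lt_of_le nA with hA0 | hA0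
    · intro y
      rw [hA, ← hA0, pd_zero p1 (by rw [hA, ← hA0]; simp) y]
      simp
    rcases eq_or_lt_of_le nB with hB0 | hB0
    · intro y
      have h3 := hsum y
      rw [pd_zero p2 (by rw [hB, ← hB0]; simp) y, add_zero] at h3
      have hA2 : A = 2 := by linarith
      rw [h3, hA, hA2]
      push_cast
      ring
    · have hAc : (A : ℂ) ≠ 0 := by exact_mod_cast hA0.ne'
      have hBc : (B : ℂ) ≠ 0 := by exact_mod_cast hB0.ne'
      have mem : ∀ (C : ℝ) (θ : G → ℂ), 0 < C → PD θ → (∀ g h : G, θ (h * g * h⁻¹) = θ g) →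
          θ 1 = C → (fun y => ((C⁻¹ : ℝ) : ℂ) * θ y) ∈ TrS G := by
        intro C θ hC hθ hθcl hθ1
        refine ⟨?_, fun g h => by simp only [hθcl], ?_⟩
        · simp only [hθ1]
          push_cast
          exact inv_mul_cancel₀ (by exact_mod_cast hC.ne')
        · have h2 := pd_sum (G := G) {()} (fun _ => C⁻¹) (fun _ _ => by positivity)
            (fun _ => θ) (fun _ _ => hθ)
          have h3 : PD (fun y => ((C⁻¹ : ℝ) : ℂ) * θ y) := by simpa using h2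
          exact h3
      have m1 := mem A (ψ ω) hA0 p1 (hψcl ω) hA
      have m2 := mem B (ψ (-ω)) hB0 p2 (hψcl (-ω)) hB
      have h4 : (fun y => ((A⁻¹ : ℝ) : ℂ) * ψ ω y) = φ := by
        refine hext.2 m1 m2 ⟨A / 2, B / 2, by positivity, by positivity, by linarith, ?_⟩
        funext y
        simp only [Pi.add_apply, Pi.smul_apply, Complex.real_smul]
        have h5 := hsum y
        push_cast
        field_simp
        linear_combination h5
      intro y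
      have h6 := congrFun h4 y
      rw [hA, ← h6]
      push_cast
      field_simp
  have k1 := key 1 (by simp) y
  have k2 := key Complex.I (by simp) y
  rw [hψ, hψ] at k1 k2
  have hz1 : Z' 1 = star (Z 1) := by rw [hZZ, inv_one]
  rw [h1, hz1] at k1 k2
  have hI : star Complex.I = -Complex.I := by simp
  rw [hI] at k2
  rw [star_one] at k1
  have hgoal : Z y = Z 1 * φ y := by
    have hII : Complex.I * Complex.I = -1 := Complex.I_mul_I
    linear_combination k1 - Complex.I * k2 + (1 / 2 * Z y - 1 / 2 * Z' y - 1 / 2 * Z 1 * φ y +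
      1 / 2 * star (Z 1) * φ y) * hII
  have hZ1 : Z 1 = ∑ i ∈ s, (c i : ℂ) * φ (b i) := by simp only [hZ, mul_one]
  rw [← hZ1]
  exact hgoal

end

end Pool.Agent.H266.FE
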