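import Mathlib
import Pool.Agent.H266.FE6

set_option autoImplicit false

open MeasureTheory Filter Topology
open scoped ComplexOrder

namespace Pool.Agent.H266.FE

open Pool.Agent.W763.Tr Pool.Agent.TH654.FC Pool.Agent.Q227.Tr
open Pool.Agent.H635F hiding Inv
open Pool.Agent.H266.FD

variable {s2 s3 t : Equiv.Perm ℚ} {G : Subgroup (Equiv.Perm ℚ)}

/-- The conditionally finite-dimensional extreme traces. -/
def Cfd (G : Subgroup (Equiv.Perm ℚ)) : Set (G → ℂ) :=
  {φ | φ ∈ Set.extremePoints ℝ (Trs G) ∧ CFin φ}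

/-- Induction over the group. -/
lemma grp_ind (hG : G = Subgroup.closure {s2, s3, t}) (P : G → Prop)
    (h2 : ∀ g : G, (g : Equiv.Perm ℚ) = s2 → P g) (h3 : ∀ g : G, (g : Equiv.Perm ℚ) = s3 → P g)
    (ht : ∀ g : G, (g : Equiv.Perm ℚ) = t → P g) (h1 : P 1)
    (hmul : ∀ g h : G, P g → P h → P (g * h)) (hinv : ∀ g : G, P g → P g⁻¹) (g : G) : P g := by
  have key : ∀ x : Equiv.Perm ℚ, x ∈ Subgroup.closure {s2, s3, t} → ∀ g : G,
      (g : Equiv.Perm ℚ) = x → P g := by
    intro x hx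
    induction hx using Subgroup.closure_induction with
    | mem x hx =>
      intro g hg
      rcases hx with rfl | rfl | rfl
      · exact h2 g hg
      · exact h3 g hg
      · exact ht g hg
    | one =>
      intro g hg
      have : g = 1 := Subtype.ext hg
      rw [this]; exact h1
    | mul x y hx hy ihx ihy =>
      intro g hg
      have hx' : x ∈ G := by rw [hG]; exact hx
      have hy' : y ∈ G := by rw [hG]; exact hy
      have : g = ⟨x, hx'⟩ * ⟨y, hy'⟩ := Subtype.ext hg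
      rw [this]
      exact hmul _ _ (ihx ⟨x, hx'⟩ rfl) (ihy ⟨y, hy'⟩ rfl)
    | inv x hx ihx =>
      intro g hg
      have hx' : x ∈ G := by rw [hG]; exact hx
      have : g = (⟨x, hx'⟩ : G)⁻¹ := Subtype.ext hg
      rw [this]
      exact hinv _ (ihx ⟨x, hx'⟩ rfl)
  exact key g (by rw [← hG]; exact g.2) g rfl

/-- Sums of conjugates. -/
lemma sum_central (hG : G = Subgroup.closure {s2, s3, t}) {φ : G → ℂ}
    (hcl : ∀ g h : G, φ (h * g * h⁻¹) = φ g) {ι : Type*} (s : Finset ι) (c : ι → ℂ) (b : ι → G)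
    (hgen : ∀ g : G, ((g : Equiv.Perm ℚ) = s2 ∨ (g : Equiv.Perm ℚ) = s3 ∨ (g : Equiv.Perm ℚ) = t) →
      ∀ y : G, ∑ i ∈ s, c i * φ (g * b i * g⁻¹ * y) = ∑ i ∈ s, c i * φ (b i * y)) (g y : G) :
    ∑ i ∈ s, c i * φ (g * b i * g⁻¹ * y) = ∑ i ∈ s, c i * φ (b i * y) := by
  revert y
  refine grp_ind hG (fun g => ∀ y : G, ∑ i ∈ s, c i * φ (g * b i * g⁻¹ * y) =
    ∑ i ∈ s, c i * φ (b i * y)) (fun g hg => hgen g (Or.inl hg))
    (fun g hg => hgen g (Or.inr (Or.inl hg))) (fun g hg => hgen g (Or.inr (Or.inr hg))) ?_ ?_ ?_ g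
  · intro y
    simp
  · intro g h hg hh y
    have e : ∀ i, φ (g * h * b i * (g * h)⁻¹ * y) = φ (h * b i * h⁻¹ * (g⁻¹ * y * g)) := by
      intro i
      rw [← hcl (h * b i * h⁻¹ * (g⁻¹ * y * g)) g]
      congr 1
      group
    have e2 : ∀ i, φ (b i * (g⁻¹ * y * g)) = φ (g * b i * g⁻¹ * y) := by
      intro i
      rw [← hcl (b i * (g⁻¹ * y * g)) g]
      congr 1
      group
    simp only [e]
    rw [hh]
    simp only [e2]
    exact hg y
  · intro g hg y
    have e : ∀ i, φ (g⁻¹ * b i * (g⁻¹)⁻¹ * y) = φ (b i * (g * y * g⁻¹)) := by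
      intro i
      rw [← hcl (g⁻¹ * b i * (g⁻¹)⁻¹ * y) g]
      congr 1
      group
    have e2 : ∀ i, φ (g * b i * g⁻¹ * (g * y * g⁻¹)) = φ (b i * y) := by
      intro i
      rw [← hcl (b i * y) g]
      congr 1
      group
    simp only [e]
    rw [← hg]
    simp only [e2]

section

variable {τ : ℤ → G} {φ : G → ℂ} {S6 : G} {μ : Measure UnitAddCircle}

lemma phi_shift (D : Data G τ φ S6 μ) (a b : ℤ) (hb : φ (τ b) = 1) (y : G) :
    φ (τ (a + b) * y) = φ (τ a * y) := by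
  have e : τ (a + b) = τ b * τ a := by rw [tau_add D.hτ, add_comm]
  rw [e, mul_assoc, cl_swap D.hcl, D.hpd.mul_of_eq_one D.h1 hb]

lemma data_inv (D : Data G τ φ S6 μ) : Pool.Agent.H635F.Inv ⟨μ, D.prob⟩ :=
  (Pool.Agent.H635F.inv_iff _).2 ⟨D.mp2, D.mp3⟩

lemma data_F (D : Data G τ φ S6 μ) (n : ℤ) : F n ⟨μ, D.prob⟩ = φ (τ n) := D.hμ n

lemma ae_of_F_one (ν : PM) (m : ℤ) (h : F m ν = 1) :
    ∀ᵐ x ∂(ν : Measure UnitAddCircle), (fourier m x : ℂ) = 1 := by
  have i1 : Integrable (fun x => (fourier m x : ℂ).re) (ν : Measure UnitAddCircle) :=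
    (Pool.Agent.H635F.integrable_fourier m _).re
  have h6 : ∫ x, (1 - (fourier m x : ℂ).re) ∂(ν : Measure UnitAddCircle) = 0 := by
    rw [integral_sub (integrable_const _) i1]
    have : ∫ x, (fourier m x : ℂ).re ∂(ν : Measure UnitAddCircle) =
        (∫ x, (fourier m x : ℂ) ∂(ν : Measure UnitAddCircle)).re :=
      integral_re (Pool.Agent.H635F.integrable_fourier m _)
    have h' : ∫ x, (fourier m x : ℂ) ∂(ν : Measure UnitAddCircle) = 1 := h
    rw [this, h']
    simp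
  have h7 : ∀ x : UnitAddCircle, 0 ≤ 1 - (fourier m x : ℂ).re := by
    intro x
    have := (Complex.re_le_norm (fourier m x : ℂ)).trans_eq (norm_fourier m x)
    linarith
  have h8 := (integral_eq_zero_iff_of_nonneg h7 ((integrable_const _).sub i1)).1 h6
  filter_upwards [h8] with x hx
  have h10 : (fourier m x : ℂ).re = 1 := by
    have : 1 - (fourier m x : ℂ).re = 0 := hx
    linarith
  have h11 := norm_fourier m x
  have h12 : (fourier m x : ℂ).re ^ 2 + (fourier m x : ℂ).im ^ 2 = 1 := by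
    have := Complex.sq_norm (fourier m x : ℂ)
    rw [h11, Complex.normSq_apply] at this
    nlinarith
  have h13 : (fourier m x : ℂ).im = 0 := by
    rw [h10] at h12
    nlinarith
  exact Complex.ext h10 h13

/-- The finite support. -/
lemma data_fs (D : Data G τ φ S6 μ) (hfin : CFin φ) : (⟨μ, D.prob⟩ : PM) ∈ FS := by
  have := D.prob
  obtain ⟨M, hM1, hM⟩ := exists_kernel D.hτ D.hμ D.h2 hfin
  refine ⟨⟨D.mp2, D.mp3⟩, {x : UnitAddCircle | (fourier (M : ℤ) x : ℂ) = 1},
    finite_root (M : ℤ) (by exact_mod_cast (by omega : M ≠ 0)), ?_⟩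
  have h1 : F (M : ℤ) ⟨μ, D.prob⟩ = 1 := by
    rw [data_F D]
    have := hM 1
    rwa [mul_one] at this
  exact ae_iff.1 (ae_of_F_one _ _ h1)

/-- Common periods of a finitely supported invariant measure. -/
lemma fs_per (ν : PM) (hν : ν ∈ FS) : ∃ N : ℕ, 1 ≤ N ∧
    ∀ᵐ x ∂(ν : Measure UnitAddCircle), Per x N := by
  obtain ⟨hinv', hfin⟩ := hν
  have hinv := (invt_iff _).1 hinv'
  obtain ⟨N2, hN2, h2⟩ := periodic_of_fs 2 ν hinv.1 hfin
  obtain ⟨N3, hN3, h3⟩ := periodic_of_fs 3 ν hinv.2 hfin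
  refine ⟨N2 * N3, Nat.mul_pos hN2 hN3, ?_⟩
  have hnull : ∀ᵐ x ∂(ν : Measure UnitAddCircle), ¬ ((ν : Measure UnitAddCircle) {x} = 0) := by
    rw [ae_iff]
    simp only [not_not]
    obtain ⟨T, hT, hT0⟩ := hfin
    have h2 : {x | (ν : Measure UnitAddCircle) {x} = 0} ⊆
        Tᶜ ∪ (T ∩ {x | (ν : Measure UnitAddCircle) {x} = 0}) := by
      intro y hy
      by_cases hyT : y ∈ T
      · exact Or.inr ⟨hyT, hy⟩
      · exact Or.inl hyT
    refine measure_mono_null h2 (measure_union_null hT0 ?_)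
    have hc : (T ∩ {x | (ν : Measure UnitAddCircle) {x} = 0}).Countable :=
      (hT.subset Set.inter_subset_left).countable
    rw [← Set.biUnion_of_singleton (T ∩ {x | (ν : Measure UnitAddCircle) {x} = 0}),
      measure_biUnion_null_iff hc]
    intro y hy
    exact hy.2
  filter_upwards [hnull] with x hx
  refine ⟨pow_smul_per 2 N2 x (h2 x hx) N3, ?_⟩
  rw [mul_comm]
  exact pow_smul_per 3 N3 x (h3 x hx) N2

lemma F_of_per (ν : PM) (N : ℕ) (a : ℕ) (h : ∀ᵐ x ∂(ν : Measure UnitAddCircle), (a ^ N) • x = x)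
    (n : ℤ) : F (((a : ℤ) ^ N - 1) * n) ν = 1 := by
  have h1 : ∫ x, (fourier (((a : ℤ) ^ N - 1) * n) x : ℂ) ∂(ν : Measure UnitAddCircle) =
      ∫ _, (1 : ℂ) ∂(ν : Measure UnitAddCircle) := by
    refine integral_congr_ae ?_
    filter_upwards [h] with x hx
    rw [fourier_apply]
    have h2 : (((a : ℤ) ^ N - 1) * n) • x = 0 := by
      rw [mul_comm, mul_smul, sub_smul, one_smul]
      have h3 : ((a : ℤ) ^ N) • x = (a ^ N) • x := by
        rw [← natCast_zsmul]; push_cast; rfl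
      rw [h3, hx, sub_self, smul_zero]
    rw [h2]
    simp
  change ∫ x, (fourier (((a : ℤ) ^ N - 1) * n) x : ℂ) ∂(ν : Measure UnitAddCircle) = 1
  rw [h1]
  simp

lemma F_Sg (ν : PM) (hinv : Pool.Agent.H635F.Inv ν) (k : ℤ) (i j : ℕ) :
    F (k * (Sg i j : ℕ)) ν = F k ν := by
  have h1 : ∫ x, (fourier k (Sg i j • x) : ℂ) ∂(ν : Measure UnitAddCircle) = F k ν := by
    have h2 := integral_map (μ := (ν : Measure UnitAddCircle))
      (continuous_nsmul (Sg i j)).measurable.aemeasurable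
      (fourier k).continuous.aestronglyMeasurable
    rw [← h2, (mp_Sg ν hinv i j).map_eq]
    rfl
  rw [← h1]
  change ∫ x, (fourier (k * (Sg i j : ℕ)) x : ℂ) ∂(ν : Measure UnitAddCircle) = _
  refine integral_congr_ae (Eventually.of_forall fun x => ?_)
  simp only [fourier_apply]
  rw [mul_smul, natCast_zsmul]

/-- The mean square of the averages in terms of the Fourier coefficients. -/
lemma sq_avk (ν : PM) (N : ℕ) (k : ℤ) :
    ((∫ x, ‖avk N k x‖ ^ 2 ∂(ν : Measure UnitAddCircle) : ℝ) : ℂ) =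
      ((N : ℂ) * N)⁻¹ * ∑ i' ∈ Finset.range N, ∑ j' ∈ Finset.range N,
        (((N : ℂ) * N)⁻¹ * ∑ i ∈ Finset.range N, ∑ j ∈ Finset.range N,
          F (k * (Sg i j : ℕ) - k * (Sg i' j' : ℕ)) ν) := by
  have hstar : star (((N : ℂ) * N)⁻¹) = ((N : ℂ) * N)⁻¹ := by
    simp
  have hsq : ∀ x : UnitAddCircle, ((‖avk N k x‖ ^ 2 : ℝ) : ℂ) =
      ((N : ℂ) * N)⁻¹ * ∑ i' ∈ Finset.range N, ∑ j' ∈ Finset.range N,
        (((N : ℂ) * N)⁻¹ * ∑ i ∈ Finset.range N, ∑ j ∈ Finset.range N,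
          (fourier (k * (Sg i j : ℕ) - k * (Sg i' j' : ℕ)) x : ℂ)) := by
    intro x
    rw [← Complex.normSq_eq_norm_sq, ← Complex.mul_conj]
    have e1 : (starRingEnd ℂ) (avk N k x) = ((N : ℂ) * N)⁻¹ * ∑ i' ∈ Finset.range N,
        ∑ j' ∈ Finset.range N, (fourier (-(k * (Sg i' j' : ℕ))) x : ℂ) := by
      unfold avk
      rw [map_mul, map_sum]
      congr 1
      refine Finset.sum_congr rfl fun i _ => ?_
      rw [map_sum]
      refine Finset.sum_congr rfl fun j _ => ?_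
      rw [fourier_neg, fourier_apply, fourier_apply, mul_smul, natCast_zsmul]
    rw [e1, mul_left_comm]
    congr 1
    rw [Finset.mul_sum]
    refine Finset.sum_congr rfl fun i' _ => ?_
    rw [Finset.mul_sum]
    refine Finset.sum_congr rfl fun j' _ => ?_
    unfold avk
    rw [mul_assoc, Finset.sum_mul]
    congr 1
    refine Finset.sum_congr rfl fun i _ => ?_
    rw [Finset.sum_mul]
    refine Finset.sum_congr rfl fun j _ => ?_
    rw [sub_eq_add_neg, fourier_add]
    congr 1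
    rw [fourier_apply, fourier_apply, mul_smul, natCast_zsmul]
  rw [← integral_complex_ofReal]
  simp_rw [hsq]
  have hi : ∀ m : ℤ, Integrable (fun x : UnitAddCircle => (fourier m x : ℂ))
      (ν : Measure UnitAddCircle) := fun m => Pool.Agent.H635F.integrable_fourier m _
  rw [integral_const_mul]
  congr 1
  rw [integral_finsetSum _ fun i' _ => integrable_finsetSum _ fun j' _ =>
    (integrable_finsetSum _ fun i _ => integrable_finsetSum _ fun j _ => hi _).const_mul _]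
  refine Finset.sum_congr rfl fun i' _ => ?_
  rw [integral_finsetSum _ fun j' _ =>
    (integrable_finsetSum _ fun i _ => integrable_finsetSum _ fun j _ => hi _).const_mul _]
  refine Finset.sum_congr rfl fun j' _ => ?_
  rw [integral_const_mul]
  congr 1
  rw [integral_finsetSum _ fun i _ => integrable_finsetSum _ fun j _ => hi _]
  refine Finset.sum_congr rfl fun i _ => ?_
  rw [integral_finsetSum _ fun j _ => hi _]
  rfl

end

end Pool.Agent.H266.FE
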