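import Mathlib
import Pool.Agent.H266.FE7

set_option autoImplicit false

open MeasureTheory Filter Topology
open scoped ComplexOrder

namespace Pool.Agent.H266.FE

open Pool.Agent.W763.Tr Pool.Agent.TH654.FC Pool.Agent.Q227.Tr
open Pool.Agent.H635F hiding Inv
open Pool.Agent.H266.FD

variable {s2 s3 t : Equiv.Perm ℚ} {G : Subgroup (Equiv.Perm ℚ)}
variable {τ : ℤ → G} {φ : G → ℂ} {S6 : G} {μ : Measure UnitAddCircle}

/-- The variances vanish for a conditionally finite-dimensional extreme trace. -/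
theorem cfd_V (hs2 : ∀ x, s2 x = 2 * x) (hs3 : ∀ x, s3 x = 3 * x)
    (ht : ∀ x, t x = x + 1) (hG : G = Subgroup.closure {s2, s3, t})
    (D : Data G τ φ S6 μ) (hφ : φ ∈ Cfd G) (k : ℤ) :
    ∃ N : ℕ, 1 ≤ N ∧ V N k ⟨μ, D.prob⟩ = 0 := by
  obtain ⟨hext, hfin⟩ := hφ
  set ν : PM := ⟨μ, D.prob⟩ with hν
  have hinv := data_inv D
  obtain ⟨N, hN, hper⟩ := fs_per ν (data_fs D hfin)
  have p2 : ∀ n : ℤ, φ (τ (((2 : ℤ) ^ N - 1) * n)) = 1 := by
    intro n
    have h := F_of_per ν N 2 (hper.mono fun x hx => hx.1) n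
    rw [data_F D] at h
    exact_mod_cast h
  have p3 : ∀ n : ℤ, φ (τ (((3 : ℤ) ^ N - 1) * n)) = 1 := by
    intro n
    have h := F_of_per ν N 3 (hper.mono fun x hx => hx.2) n
    rw [data_F D] at h
    exact_mod_cast h
  refine ⟨N, hN, ?_⟩
  have hN0 : (0 : ℝ) < N := by exact_mod_cast hN
  have hNc : (N : ℂ) ≠ 0 := by exact_mod_cast hN0.ne'
  -- the shifts
  have shift2 : ∀ (j : ℕ) (y : G), φ (τ (k * (Sg N j : ℕ)) * y) = φ (τ (k * (Sg 0 j : ℕ)) * y) := by
    intro j y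
    have e : k * ((Sg N j : ℕ) : ℤ) = k * ((Sg 0 j : ℕ) : ℤ) + ((2 : ℤ) ^ N - 1) * (k * 3 ^ j) := by
      unfold Sg; push_cast; ring
    rw [e]
    exact phi_shift D _ _ (p2 _) y
  have shift3 : ∀ (i : ℕ) (y : G), φ (τ (k * (Sg i N : ℕ)) * y) = φ (τ (k * (Sg i 0 : ℕ)) * y) := by
    intro i y
    have e : k * ((Sg i N : ℕ) : ℤ) = k * ((Sg i 0 : ℕ) : ℤ) + ((3 : ℤ) ^ N - 1) * (k * 2 ^ i) := by
      unfold Sg; push_cast; ring
    rw [e]
    exact phi_shift D _ _ (p3 _) y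
  let s : Finset (ℕ × ℕ) := Finset.range N ×ˢ Finset.range N
  let b : ℕ × ℕ → G := fun p => τ (k * (Sg p.1 p.2 : ℕ))
  have hc1 : ∑ _p ∈ s, (((N : ℝ) * N)⁻¹) = 1 := by
    simp only [s, Finset.sum_const, Finset.card_product, Finset.card_range, nsmul_eq_mul]
    push_cast
    field_simp
  have hcen : ∀ g y : G, ∑ p ∈ s, ((((N : ℝ) * N)⁻¹ : ℝ) : ℂ) * φ (g * b p * g⁻¹ * y) =
      ∑ p ∈ s, ((((N : ℝ) * N)⁻¹ : ℝ) : ℂ) * φ (b p * y) := by
    refine sum_central hG D.hcl s _ b ?_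
    intro g hg y
    rw [← Finset.mul_sum, ← Finset.mul_sum]
    congr 1
    simp only [s, b, Finset.sum_product]
    rcases hg with hg | hg | hg
    · have e : ∀ i j : ℕ, g * τ (k * (Sg i j : ℕ)) * g⁻¹ = τ (k * (Sg (i + 1) j : ℕ)) := by
        intro i j
        rw [tau_conj D.hτ g 2 (fun x => by rw [hg, hs2]; norm_num)]
        congr 1
        unfold Sg; push_cast; ring
      simp only [e]
      exact sum_shift (fun i => ∑ j ∈ Finset.range N, φ (τ (k * (Sg i j : ℕ)) * y)) N hN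
        (Finset.sum_congr rfl fun j _ => shift2 j y)
    · have e : ∀ i j : ℕ, g * τ (k * (Sg i j : ℕ)) * g⁻¹ = τ (k * (Sg i (j + 1) : ℕ)) := by
        intro i j
        rw [tau_conj D.hτ g 3 (fun x => by rw [hg, hs3]; norm_num)]
        congr 1
        unfold Sg; push_cast; ring
      simp only [e]
      refine Finset.sum_congr rfl fun i _ => ?_
      exact sum_shift (fun j => φ (τ (k * (Sg i j : ℕ)) * y)) N hN (shift3 i y)
    · have e : ∀ i j : ℕ, g * τ (k * (Sg i j : ℕ)) * g⁻¹ = τ (k * (Sg i j : ℕ)) := by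
        intro i j
        have hg1 : g = τ 1 := by
          apply Subtype.ext
          apply Equiv.ext
          intro x
          rw [hg, ht, D.hτ]
          simp
        rw [hg1, tau_add D.hτ, tau_inv D.hτ, tau_add D.hτ]
        congr 1
        ring
      simp only [e]
  have key := central (φ := φ) hext s (fun _ => ((N : ℝ) * N)⁻¹) (fun _ _ => by positivity) hc1 b hcen
  -- the mean value
  have hmean : ∑ p ∈ s, ((((N : ℝ) * N)⁻¹ : ℝ) : ℂ) * φ (b p) = F k ν := by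
    have h1 : ∀ p ∈ s, ((((N : ℝ) * N)⁻¹ : ℝ) : ℂ) * φ (b p) =
        ((((N : ℝ) * N)⁻¹ : ℝ) : ℂ) * F k ν := by
      intro p _
      rw [← data_F D, F_Sg _ hinv]
    rw [Finset.sum_congr rfl h1, ← Finset.sum_mul]
    have h2 : ∑ _p ∈ s, ((((N : ℝ) * N)⁻¹ : ℝ) : ℂ) = 1 := by exact_mod_cast hc1
    rw [h2, one_mul]
  have hcross : ∀ i' j' : ℕ, ((N : ℂ) * N)⁻¹ * ∑ i ∈ Finset.range N, ∑ j ∈ Finset.range N,
      F (k * (Sg i j : ℕ) - k * (Sg i' j' : ℕ)) ν = F k ν * star (F k ν) := by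
    intro i' j'
    have h1 := key (τ (-(k * (Sg i' j' : ℕ))))
    rw [hmean] at h1
    have h2 : φ (τ (-(k * (Sg i' j' : ℕ)))) = star (F k ν) := by
      rw [← tau_inv D.hτ, D.hpd.inv D.h1, ← data_F D, F_Sg _ hinv]
    rw [h2] at h1
    rw [← h1]
    simp only [s, b, Finset.sum_product, ← Finset.mul_sum]
    congr 1
    · push_cast; rfl
    · refine Finset.sum_congr rfl fun i _ => Finset.sum_congr rfl fun j _ => ?_
      rw [tau_add D.hτ, data_F D]
      rfl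
  have hfinal : ((∫ x, ‖avk N k x‖ ^ 2 ∂(ν : Measure UnitAddCircle) : ℝ) : ℂ) =
      ((‖F k ν‖ ^ 2 : ℝ) : ℂ) := by
    rw [sq_avk]
    simp only [hcross, Finset.sum_const, Finset.card_range, nsmul_eq_mul]
    rw [Complex.star_def, Complex.mul_conj, Complex.normSq_eq_norm_sq]
    field_simp
  have hreal : ∫ x, ‖avk N k x‖ ^ 2 ∂(ν : Measure UnitAddCircle) = ‖F k ν‖ ^ 2 := by
    exact_mod_cast hfinal
  unfold V
  rw [hreal, sub_self]

/-- The measure of a conditionally finite-dimensional extreme trace is an orbit measure. -/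
theorem cfd_orb (hs2 : ∀ x, s2 x = 2 * x) (hs3 : ∀ x, s3 x = 3 * x)
    (ht : ∀ x, t x = x + 1) (hG : G = Subgroup.closure {s2, s3, t})
    (D : Data G τ φ S6 μ) (hφ : φ ∈ Cfd G) : IsOrb ⟨μ, D.prob⟩ :=
  orb_of_V _ (data_fs D hφ.2) fun k => cfd_V hs2 hs3 ht hG D hφ k

/-- Averages of characters tend to zero. -/
theorem avg_sq' [IsProbabilityMeasure μ] {m : ℤ}
    (h0 : μ {x : UnitAddCircle | (fourier m x : ℂ) = 1} = 0) :
    Tendsto (fun N : ℕ => ∫ x, ‖(N : ℂ)⁻¹ * ∑ n ∈ Finset.range N, (fourier (m * n) x : ℂ)‖ ^ 2 ∂μ)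
      atTop (𝓝 0) := by
  have h1 : Tendsto (fun N : ℕ => ∫ x, ‖(N : ℂ)⁻¹ * ∑ n ∈ Finset.range N,
      (fourier (m * n) x : ℂ)‖ ^ 2 ∂μ) atTop (𝓝 (∫ _, (0 : ℝ) ∂μ)) := by
    refine tendsto_integral_of_dominated_convergence (fun _ => (1 : ℝ)) (fun N => ?_)
      (integrable_const _) (fun N => ?_) ?_
    · have : Continuous (fun x : UnitAddCircle => ‖(N : ℂ)⁻¹ * ∑ n ∈ Finset.range N,
        (fourier (m * n) x : ℂ)‖ ^ 2) := by fun_prop
      exact this.aestronglyMeasurable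
    · filter_upwards with x
      rw [Real.norm_of_nonneg (by positivity), norm_mul, norm_inv, Complex.norm_natCast]
      have h2 : ‖∑ n ∈ Finset.range N, (fourier (m * n) x : ℂ)‖ ≤ N := by
        refine (norm_sum_le _ _).trans ?_
        have : ∀ n ∈ Finset.range N, ‖(fourier (m * n) x : ℂ)‖ ≤ 1 := fun n _ => by
          rw [fourier_apply, Circle.norm_coe]
        refine (Finset.sum_le_sum this).trans ?_
        simp
      rcases Nat.eq_zero_or_pos N with h3 | h3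
      · subst h3; simp
      · have h3' : (0 : ℝ) < N := by exact_mod_cast h3
        have h4 : (N : ℝ)⁻¹ * ‖∑ n ∈ Finset.range N, (fourier (m * n) x : ℂ)‖ ≤ 1 := by
          rw [inv_mul_le_iff₀ h3', mul_one]
          exact h2
        exact pow_le_one₀ (by positivity) h4
    · have h2 : ∀ᵐ x ∂μ, (fourier m x : ℂ) ≠ 1 := by
        rw [ae_iff]; simpa using h0
      filter_upwards [h2] with x hx
      set z : ℂ := fourier m x with hz
      have e : ∀ n : ℕ, (fourier (m * n) x : ℂ) = z ^ n := by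
        intro n
        rw [hz, fourier_apply, fourier_apply, ← Circle.coe_pow, ← AddCircle.toCircle_nsmul,
          ← natCast_zsmul, ← mul_smul, mul_comm]
      simp_rw [e]
      have hznorm : ‖z‖ = 1 := by rw [hz, fourier_apply, Circle.norm_coe]
      have h3 : Tendsto (fun N : ℕ => ((2 / ‖z - 1‖) * ((N : ℝ))⁻¹) ^ 2) atTop
          (𝓝 ((2 / ‖z - 1‖ * 0) ^ 2)) :=
        (tendsto_inv_atTop_nhds_zero_nat.const_mul _).pow 2
      rw [mul_zero, zero_pow two_ne_zero] at h3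
      refine squeeze_zero (fun N => by positivity) (fun N => ?_) h3
      refine pow_le_pow_left₀ (norm_nonneg _) ?_ 2
      rw [geom_sum_eq hx, norm_mul, norm_div, norm_inv, Complex.norm_natCast, mul_comm]
      have h4 : ‖z ^ N - 1‖ ≤ 2 := by
        calc ‖z ^ N - 1‖ ≤ ‖z ^ N‖ + ‖(1 : ℂ)‖ := norm_sub_le _ _
          _ = 2 := by rw [norm_pow, hznorm]; norm_num
      gcongr
  rwa [integral_zero] at h1

/-- The numerator attached to an element. -/
def nm (g : G) : ℤ := (1 - lin g).num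

lemma nm_ne (hG : Form G) (g : G) (hg : ¬ ∃ r : ℚ, ∀ x, (g : Equiv.Perm ℚ) x = x + r) :
    nm g ≠ 0 := by
  obtain ⟨a, b, r, -, hx⟩ := hG g
  obtain ⟨h4, -⟩ := lin_of hx
  unfold nm
  rw [Rat.num_ne_zero, sub_ne_zero, h4]
  intro h
  exact hg ⟨r, fun x => by rw [hx, ← h, one_mul]⟩

/-- A trace vanishes at an element if the measure has no mass at certain torsion points
(after `Q227.Tr.off`). -/
theorem off2 (D : Data G τ φ S6 μ) (g : G)
    (h0 : μ {x : UnitAddCircle | (fourier (nm g) x : ℂ) = 1} = 0) : φ g = 0 := by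
  have := D.prob
  obtain ⟨a, b, r, ⟨n, k, hr⟩, hx⟩ := D.hform g
  obtain ⟨hl, -⟩ := lin_of hx
  set lam : ℚ := 2 ^ a * 3 ^ b with hlam
  have hnum : (1 - lam) * (1 - lam).den = (1 - lam).num := Rat.mul_den_eq_num _
  have hnm : nm g = (1 - lam).num := by unfold nm; rw [hl]
  rw [hnm] at h0
  set v : ℤ := ((1 - lam).den : ℤ) with hv
  set E : ℤ := (1 - lam).num with hE
  have hnum' : (1 - lam) * (v : ℚ) = E := by
    rw [hv]; push_cast; exact hnum
  have hconj : ∀ i : ℕ, φ (τ (E * i) * g) = φ g := by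
    intro i
    have e : τ (v * i) * g * (τ (v * i))⁻¹ = τ (E * i) * g := by
      rw [mul_inv_eq_iff_eq_mul]
      apply Subtype.ext
      apply Equiv.ext
      intro x
      simp only [Subgroup.coe_mul, Equiv.Perm.mul_apply, D.hτ, hx]
      push_cast
      rw [← hnum']; ring
    rw [← e, D.hcl]
  have hcorr : ∀ i j : ℕ, φ ((τ (E * (j : ℤ)) * g)⁻¹ * (τ (E * (i : ℤ)) * g)) =
      ∫ x, (fourier (E * ((i : ℤ) - j)) x : ℂ) ∂μ := by
    intro i j
    have e : (τ (E * (j : ℤ)) * g)⁻¹ * (τ (E * (i : ℤ)) * g) =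
        g⁻¹ * τ (E * ((i : ℤ) - j)) * (g⁻¹)⁻¹ := by
      rw [mul_inv_rev, tau_inv D.hτ, inv_inv]
      have : τ (E * ((i : ℤ) - j)) = τ (-(E * (j : ℤ))) * τ (E * (i : ℤ)) := by
        rw [tau_add D.hτ]; congr 1; ring
      rw [this]
      simp only [mul_assoc]
    rw [e, D.hcl, D.hμ]
  have key : ∀ N : ℕ, 1 ≤ N → ‖φ g‖ ^ 2 ≤
      ∫ x, ‖(N : ℂ)⁻¹ * ∑ n ∈ Finset.range N, (fourier (E * n) x : ℂ)‖ ^ 2 ∂μ := by
    intro N hN
    have hN' : (0 : ℝ) < N := by exact_mod_cast hN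
    have h2 := cs D.hpd D.h1 N (fun i => τ (E * (i : ℤ)) * g) (z := φ g) hconj
    simp_rw [hcorr] at h2
    rw [sum_corr, Complex.ofReal_re] at h2
    have h3 : ∫ x, ‖(N : ℂ)⁻¹ * ∑ n ∈ Finset.range N, (fourier (E * n) x : ℂ)‖ ^ 2 ∂μ =
        ((N : ℝ) ^ 2)⁻¹ * ∫ x, ‖∑ n ∈ Finset.range N, (fourier (E * n) x : ℂ)‖ ^ 2 ∂μ := by
      rw [← integral_const_mul]
      congr 1
      ext x
      rw [norm_mul, norm_inv, Complex.norm_natCast]
      ring
    rw [h3, le_inv_mul_iff₀ (by positivity)]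
    exact h2
  have h4 : ‖φ g‖ ^ 2 ≤ 0 := ge_of_tendsto (avg_sq' h0)
    (by filter_upwards [eventually_ge_atTop 1] with N hN using key N hN)
  have h5 : ‖φ g‖ = 0 := by nlinarith [norm_nonneg (φ g), sq_nonneg ‖φ g‖]
  exact norm_eq_zero.1 h5

end Pool.Agent.H266.FE
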