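import Mathlib
import Pool.Graph.R_pool_sql_team_seeded_2aa45f1a.Results.MP_81910f_an.IsolatedRegularTrace
import Pool.Agent.H266.FE8

set_option autoImplicit false

open MeasureTheory Filter Topology
open scoped ComplexOrder ENNReal

namespace Pool.Agent.H266.FE

open Pool.Agent.W763.Tr Pool.Agent.TH654.FC Pool.Agent.Q227.Tr
open Pool.Agent.H635F hiding Inv
open Pool.Agent.H266.FD

variable {s2 s3 t : Equiv.Perm ℚ} {G : Subgroup (Equiv.Perm ℚ)} {u : G}

lemma u_pow (hu : ∀ x : ℚ, (u : Equiv.Perm ℚ) x = x + 1) (k : ℤ) (x : ℚ) :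
    ((u ^ k : G) : Equiv.Perm ℚ) x = x + k := by
  induction k using Int.induction_on generalizing x with
  | zero => simp
  | succ i ih =>
    rw [zpow_add_one, Subgroup.coe_mul, Equiv.Perm.mul_apply, hu, ih]
    push_cast; ring
  | pred i ih =>
    rw [zpow_sub_one, Subgroup.coe_mul, Equiv.Perm.mul_apply, ih]
    have : ((u⁻¹ : G) : Equiv.Perm ℚ) x = x - 1 := by
      rw [Subgroup.coe_inv, Equiv.Perm.inv_eq_iff_eq, hu]
      ring
    rw [this]; push_cast; ring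

lemma exists_data (hs2 : ∀ x, s2 x = 2 * x) (hs3 : ∀ x, s3 x = 3 * x)
    (ht : ∀ x, t x = x + 1) (hG : G = Subgroup.closure {s2, s3, t})
    (hu : ∀ x : ℚ, (u : Equiv.Perm ℚ) x = x + 1) {φ : G → ℂ} (hφ : φ ∈ Trs G) :
    ∃ (S6 : G) (μ : PM), Data G (fun n => u ^ n) φ S6 (μ : Measure UnitAddCircle) := by
  obtain ⟨τ, S6, μ, D⟩ := data_of hs2 hs3 ht hG hφ.1 hφ.2.1 hφ.2.2
  obtain rfl := tau_unique D.hτ (u_pow hu)
  exact ⟨S6, ⟨μ, D.prob⟩, D⟩

lemma trs_closed : IsClosed (Trs G) := by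
  have hco : ∀ g : G, Continuous fun ψ : G → ℂ => ψ g := fun g => continuous_apply g
  refine IsClosed.inter (isClosed_eq (hco 1) continuous_const) (IsClosed.inter ?_ ?_)
  · have e : {ψ : G → ℂ | ∀ g h : G, ψ (h * g * h⁻¹) = ψ g} =
        ⋂ g : G, ⋂ h : G, {ψ : G → ℂ | ψ (h * g * h⁻¹) = ψ g} := by
      ext ψ; simp
    change IsClosed {ψ : G → ℂ | ∀ g h : G, ψ (h * g * h⁻¹) = ψ g}
    rw [e]
    exact isClosed_iInter fun g => isClosed_iInter fun h => isClosed_eq (hco _) (hco _)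
  · have e : {ψ : G → ℂ | ∀ (s : Finset G) (c : G → ℂ),
        0 ≤ ∑ i ∈ s, ∑ j ∈ s, star (c j) * c i * ψ (j⁻¹ * i)} =
        ⋂ s : Finset G, ⋂ c : G → ℂ,
          {ψ : G → ℂ | 0 ≤ ∑ i ∈ s, ∑ j ∈ s, star (c j) * c i * ψ (j⁻¹ * i)} := by
      ext ψ; simp
    change IsClosed {ψ : G → ℂ | ∀ (s : Finset G) (c : G → ℂ),
        0 ≤ ∑ i ∈ s, ∑ j ∈ s, star (c j) * c i * ψ (j⁻¹ * i)}
    rw [e]
    refine isClosed_iInter fun s => isClosed_iInter fun c => ?_
    refine isClosed_le continuous_const ?_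
    exact continuous_finsetSum _ fun i _ => continuous_finsetSum _ fun j _ =>
      continuous_const.mul (hco _)

lemma trs_compact : IsCompact (Trs G) := by
  have hsub : Trs G ⊆ Set.pi Set.univ fun _ : G => Metric.closedBall (0 : ℂ) 1 := by
    intro ψ hψ g _
    rw [mem_closedBall_zero_iff]
    exact pd_norm_le hψ.2.2 hψ.1 g
  exact (isCompact_univ_pi fun _ => isCompact_closedBall (0 : ℂ) 1).of_isClosed_subset trs_closed hsub

lemma inv_both (ν : PM) (h : Pool.Agent.H635F.Inv ν) :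
    Pool.Agent.H185.XQ.Inv 2 (ν : Measure UnitAddCircle) ∧
      Pool.Agent.H185.XQ.Inv 3 (ν : Measure UnitAddCircle) :=
  (Pool.Agent.H635F.inv_iff ν).1 h

lemma th_pow (hu : ∀ x : ℚ, (u : Equiv.Perm ℚ) x = x + 1) (ν : PM)
    (h : Pool.Agent.H635F.Inv ν) (n : ℤ) : (th (ν : Measure UnitAddCircle) : G → ℂ) (u ^ n) =
      F n ν :=
  th_tau (inv_both ν h).1 (inv_both ν h).2 (r := n) (n := n) (k := 0) (u_pow hu n) (by simp)

/-- Continuity of the trace of a measure. -/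
lemma continuous_th : Continuous fun ν : PM => (th (ν : Measure UnitAddCircle) : G → ℂ) := by
  refine continuous_pi fun g => ?_
  unfold th co
  by_cases h1 : lin g = 1
  · simp only [h1, if_true]
    by_cases h2 : Six ((g : Equiv.Perm ℚ) 0)
    · simp only [h2, dif_pos]
      exact continuous_F _
    · simp only [h2, dif_neg, not_false_eq_true]
      exact continuous_const
  · simp only [h1, if_false]
    exact continuous_const

/-- Orbit measures are extreme: the two parts. -/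
lemma orbit_part {x : UnitAddCircle} {N : ℕ} (hN : 1 ≤ N) (hP : Per x N) (ν₁ ν₂ : PM)
    (h₁ : Pool.Agent.H635F.Inv ν₁) {a b : ℝ} (ha : 0 < a) (hb : 0 < b)
    (h : ∀ n : ℤ, (a : ℂ) * F n ν₁ + b * F n ν₂ = F n (ob x N hN)) : ν₁ = ob x N hN := by
  set ρ := ob x N hN with hρ
  set a' : NNReal := ⟨a, ha.le⟩ with ha'
  set b' : NNReal := ⟨b, hb.le⟩ with hb'
  have hmeas : (a' : NNReal) • (ν₁ : Measure UnitAddCircle) + b' • (ν₂ : Measure UnitAddCircle) =
      (ρ : Measure UnitAddCircle) := by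
    refine Pool.Agent.H185.XQ.ext_cf fun n => ?_
    have e := h n
    change _ = F n ρ
    rw [← e, Pool.Agent.H185.XQ.cf, integral_add_measure
      ((Pool.Agent.H635F.integrable_fourier n _).smul_measure_nnreal)
      ((Pool.Agent.H635F.integrable_fourier n _).smul_measure_nnreal),
      integral_smul_nnreal_measure, integral_smul_nnreal_measure]
    rfl
  apply ProbabilityMeasure.toMeasure_injective
  refine ext_fourier _ _ fun k => ?_
  change F k ν₁ = F k ρ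
  have hV := V_ob x N hN hP k
  rw [V_eq _ (inv_ob hN hP) N hN k] at hV
  set c := F k (ob x N hN) with hc
  have hcont : Continuous fun y => ‖avk N k y - c‖ ^ 2 :=
    ((continuous_avk N k).sub continuous_const).norm.pow 2
  have e2 : ∫ y, ‖avk N k y - c‖ ^ 2 ∂(ρ : Measure UnitAddCircle) =
      a * ∫ y, ‖avk N k y - c‖ ^ 2 ∂(ν₁ : Measure UnitAddCircle) +
        b * ∫ y, ‖avk N k y - c‖ ^ 2 ∂(ν₂ : Measure UnitAddCircle) := by
    rw [← hmeas, integral_add_measure ((integrable_r ν₁ _ hcont).smul_measure_nnreal)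
      ((integrable_r ν₂ _ hcont).smul_measure_nnreal), integral_smul_nnreal_measure,
      integral_smul_nnreal_measure]
    rfl
  have e3 : ∫ y, ‖avk N k y - c‖ ^ 2 ∂(ρ : Measure UnitAddCircle) = 0 := hV
  rw [e3] at e2
  have n1 : 0 ≤ ∫ y, ‖avk N k y - c‖ ^ 2 ∂(ν₁ : Measure UnitAddCircle) :=
    integral_nonneg fun y => sq_nonneg _
  have n2 : 0 ≤ ∫ y, ‖avk N k y - c‖ ^ 2 ∂(ν₂ : Measure UnitAddCircle) :=
    integral_nonneg fun y => sq_nonneg _
  have e4 : ∫ y, ‖avk N k y - c‖ ^ 2 ∂(ν₁ : Measure UnitAddCircle) = 0 := by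
    have := mul_nonneg hb.le n2
    have h5 : a * ∫ y, ‖avk N k y - c‖ ^ 2 ∂(ν₁ : Measure UnitAddCircle) ≤ 0 := by linarith
    exact le_antisymm (by nlinarith) n1
  have hae := (integral_eq_zero_iff_of_nonneg (fun y => sq_nonneg _) (integrable_r ν₁ _ hcont)).1 e4
  have e5 : ∫ y, avk N k y ∂(ν₁ : Measure UnitAddCircle) =
      ∫ _, c ∂(ν₁ : Measure UnitAddCircle) := by
    refine integral_congr_ae ?_
    filter_upwards [hae] with y hy
    have h6 : ‖avk N k y - c‖ ^ 2 = 0 := hy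
    exact sub_eq_zero.1 (norm_eq_zero.1 (pow_eq_zero_iff two_ne_zero |>.1 h6))
  rw [integral_avk ν₁ h₁ N hN k] at e5
  rw [e5]
  simp

/-- **Every periodic orbit carries a conditionally finite-dimensional extreme trace.** -/
theorem exists_cfd (hs2 : ∀ x, s2 x = 2 * x) (hs3 : ∀ x, s3 x = 3 * x)
    (ht : ∀ x, t x = x + 1) (hG : G = Subgroup.closure {s2, s3, t})
    (hu : ∀ x : ℚ, (u : Equiv.Perm ℚ) x = x + 1) {x : UnitAddCircle} {N : ℕ} (hN : 1 ≤ N)
    (hP : Per x N) : ∃ φ ∈ Cfd G, ∀ n : ℤ, φ (u ^ n) = F n (ob x N hN) := by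
  set ρ := ob x N hN with hρ
  have hinv : Pool.Agent.H635F.Inv ρ := inv_ob hN hP
  set Fc : Set (G → ℂ) := Trs G ∩ {φ : G → ℂ | ∀ n : ℤ, φ (u ^ n) = F n ρ} with hFc
  have hclosed : IsClosed {φ : G → ℂ | ∀ n : ℤ, φ (u ^ n) = F n ρ} := by
    have e : {φ : G → ℂ | ∀ n : ℤ, φ (u ^ n) = F n ρ} =
        ⋂ n : ℤ, {φ : G → ℂ | φ (u ^ n) = F n ρ} := by ext φ; simp
    rw [e]
    exact isClosed_iInter fun n => isClosed_eq (continuous_apply _) continuous_const
  have hcomp : IsCompact Fc := trs_compact.inter_right hclosed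
  have hth : (th (ρ : Measure UnitAddCircle) : G → ℂ) ∈ Trs G :=
    th_trs hs2 hs3 ht hG (inv_both ρ hinv).1 (inv_both ρ hinv).2
  have hne : Fc.Nonempty := ⟨_, hth, fun n => th_pow hu ρ hinv n⟩
  obtain ⟨φ, hφ⟩ := hcomp.extremePoints_nonempty hne
  have hext : φ ∈ Set.extremePoints ℝ (Trs G) := by
    refine mem_extremePoints_iff_left.2 ⟨hφ.1.1, ?_⟩
    rintro φ₁ h₁ φ₂ h₂ hseg
    obtain ⟨a, b, ha, hb, hab, hsum⟩ := hseg
    obtain ⟨S1, ν₁, D₁⟩ := exists_data hs2 hs3 ht hG hu h₁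
    obtain ⟨S2, ν₂, D₂⟩ := exists_data hs2 hs3 ht hG hu h₂
    have hF : ∀ n : ℤ, (a : ℂ) * F n ν₁ + b * F n ν₂ = F n ρ := by
      intro n
      have h3 : F n ν₁ = φ₁ (u ^ n) := D₁.hμ n
      have h4 : F n ν₂ = φ₂ (u ^ n) := D₂.hμ n
      rw [h3, h4, ← hφ.1.2 n, ← hsum]
      simp [Complex.real_smul]
    have e1 := orbit_part hN hP ν₁ ν₂ (data_inv D₁) ha hb hF
    have e2 := orbit_part hN hP ν₂ ν₁ (data_inv D₂) hb ha (fun n => by
      rw [add_comm]; exact hF n)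
    have m1 : φ₁ ∈ Fc := ⟨h₁, fun n => by
      have h3 : F n ν₁ = φ₁ (u ^ n) := D₁.hμ n
      rw [← h3, e1]⟩
    have m2 : φ₂ ∈ Fc := ⟨h₂, fun n => by
      have h3 : F n ν₂ = φ₂ (u ^ n) := D₂.hμ n
      rw [← h3, e2]⟩
    exact hφ.2 m1 m2 ⟨a, b, ha, hb, hab, hsum⟩
  refine ⟨φ, ⟨hext, ?_⟩, hφ.1.2⟩
  obtain ⟨S6, ν, D⟩ := exists_data hs2 hs3 ht hG hu hφ.1.1
  rcases Pool.Agent.TH463.UQ.finite_or_atomless D hext with h | h
  · exact h
  · exfalso
    have hνρ : ν = ρ := by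
      apply ProbabilityMeasure.toMeasure_injective
      refine ext_fourier _ _ fun k => ?_
      rw [D.hμ, hφ.1.2]
      rfl
    obtain ⟨y, hy⟩ := fs_atom ρ (fs_orb ρ ((isOrb_iff _).2 ⟨x, N, hN, hP, rfl⟩))
    rw [← hνρ] at hy
    exact hy (h y)

end Pool.Agent.H266.FE
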