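import Mathlib
import Pool.Agent.H266.FE9

set_option autoImplicit false

open MeasureTheory Filter Topology
open scoped ComplexOrder ENNReal

namespace Pool.Agent.H266.FE

open Pool.Agent.W763.Tr Pool.Agent.TH654.FC Pool.Agent.Q227.Tr
open Pool.Agent.H635F hiding Inv
open Pool.Agent.H266.FD

variable {s2 s3 t : Equiv.Perm ℚ} {G : Subgroup (Equiv.Perm ℚ)} {u : G}

/-- The limits which vanish off the translations. -/
def Lim (G : Subgroup (Equiv.Perm ℚ)) : Set (G → ℂ) :=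
  {φ | φ ∈ closure (Cfd G) ∧ ∀ g : G, (¬ ∃ r : ℚ, ∀ x, (g : Equiv.Perm ℚ) x = x + r) → φ g = 0}

lemma cl_sub_trs : closure (Cfd G) ⊆ Trs G :=
  closure_minimal (fun _ hφ => hφ.1.1) trs_closed

/-- The measures of the limits. -/
lemma cl_meas (hs2 : ∀ x, s2 x = 2 * x) (hs3 : ∀ x, s3 x = 3 * x)
    (ht : ∀ x, t x = x + 1) (hG : G = Subgroup.closure {s2, s3, t})
    (hu : ∀ x : ℚ, (u : Equiv.Perm ℚ) x = x + 1) {φ : G → ℂ} (hφ : φ ∈ closure (Cfd G)) :
    ∃ μ : EE, ∀ n : ℤ, φ (u ^ n) = F n μ.1 := by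
  have hA : IsClosed {φ : G → ℂ | ∃ μ : EE, ∀ n : ℤ, φ (u ^ n) = F n μ.1} := by
    have hc : Continuous fun μ : EE => fun n : ℤ => F n μ.1 :=
      continuous_pi fun n => (continuous_F n).comp continuous_subtype_val
    have h1 : IsClosed (Set.range fun μ : EE => fun n : ℤ => F n μ.1) :=
      (isCompact_range hc).isClosed
    have hc2 : Continuous fun φ : G → ℂ => fun n : ℤ => φ (u ^ n) :=
      continuous_pi fun n => continuous_apply _
    have e : {φ : G → ℂ | ∃ μ : EE, ∀ n : ℤ, φ (u ^ n) = F n μ.1} =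
        (fun φ : G → ℂ => fun n : ℤ => φ (u ^ n)) ⁻¹'
          (Set.range fun μ : EE => fun n : ℤ => F n μ.1) := by
      ext φ
      simp only [Set.mem_ofPred_eq, Set.mem_preimage, Set.mem_range]
      constructor
      · rintro ⟨μ, hμ⟩
        exact ⟨μ, funext fun n => (hμ n).symm⟩
      · rintro ⟨μ, hμ⟩
        exact ⟨μ, fun n => (congrFun hμ n).symm⟩
    rw [e]
    exact h1.preimage hc2
  have hsub : Cfd G ⊆ {φ : G → ℂ | ∃ μ : EE, ∀ n : ℤ, φ (u ^ n) = F n μ.1} := by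
    intro ψ hψ
    obtain ⟨S6, ν, D⟩ := exists_data hs2 hs3 ht hG hu hψ.1.1
    have hor := cfd_orb hs2 hs3 ht hG D hψ
    exact ⟨⟨ν, subset_closure hor⟩, fun n => (D.hμ n).symm⟩
  exact closure_minimal hsub hA hφ

/-- A trace vanishing off the translations is determined by its measure. -/
lemma eq_th (hs2 : ∀ x, s2 x = 2 * x) (hs3 : ∀ x, s3 x = 3 * x)
    (ht : ∀ x, t x = x + 1) (hG : G = Subgroup.closure {s2, s3, t})
    (hu : ∀ x : ℚ, (u : Equiv.Perm ℚ) x = x + 1) {φ : G → ℂ} (hφ : φ ∈ Trs G)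
    (hoff : ∀ g : G, (¬ ∃ r : ℚ, ∀ x, (g : Equiv.Perm ℚ) x = x + r) → φ g = 0) (ν : PM)
    (hν : ∀ n : ℤ, φ (u ^ n) = F n ν) : φ = th (ν : Measure UnitAddCircle) := by
  obtain ⟨S6, ν', D⟩ := exists_data hs2 hs3 ht hG hu hφ
  have hνν : ν' = ν := by
    apply ProbabilityMeasure.toMeasure_injective
    refine ext_fourier _ _ fun k => ?_
    rw [D.hμ, hν]
    rfl
  subst hνν
  have hinv : Pool.Agent.H635F.Inv ν' := data_inv D
  funext g
  by_cases hg : ∃ r : ℚ, ∀ x, (g : Equiv.Perm ℚ) x = x + r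
  · obtain ⟨r, hg⟩ := hg
    obtain ⟨n, k, hr⟩ := D.six hg
    rw [th_tau (inv_both _ hinv).1 (inv_both _ hinv).2 hg hr,
      phi_trans D.hτ D.hcl S6 D.hS6 g n k (fun x => by rw [hg, hr])]
    exact hν n
  · rw [hoff g hg, th_off D.hform hg]

/-- The traces of the measures in the closure of the orbit measures are limits of conditionally
finite-dimensional extreme traces. -/
theorem th_mem_cl (H : NoGapOrb) (hs2 : ∀ x, s2 x = 2 * x) (hs3 : ∀ x, s3 x = 3 * x)
    (ht : ∀ x, t x = x + 1) (hG : G = Subgroup.closure {s2, s3, t})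
    (hu : ∀ x : ℚ, (u : Equiv.Perm ℚ) x = x + 1) (μ : EE) :
    (th (μ.1 : Measure UnitAddCircle) : G → ℂ) ∈ Lim G := by
  have hform : Form G := fun g => form hs2 hs3 ht g (by rw [← hG]; exact g.2)
  refine ⟨?_, fun g hg => th_off hform hg⟩
  have hcl : IsClosed {ν : PM | (th (ν : Measure UnitAddCircle) : G → ℂ) ∈ closure (Cfd G)} :=
    isClosed_closure.preimage continuous_th
  refine closure_minimal ?_ hcl μ.2
  intro ρ hρ
  obtain ⟨x0, N0, hN0, hP0, rfl⟩ := (isOrb_iff _).1 hρ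
  obtain ⟨x, N, hN, hP, hx, hJ⟩ := exists_seq H
  have hP' : ∀ n, Per (x0 + x n) (N0 * N n) := fun n => (hP0.mul (N n)).add ((hP n).mul' N0)
  have hN' : ∀ n, 1 ≤ N0 * N n := fun n => Nat.mul_pos hN0 (hN n)
  have hlim := tendsto_shift x N hN hP hJ x0 N0 hN0 hP0
  choose φ hφ hφF using fun n => exists_cfd hs2 hs3 ht hG hu (hN' n) (hP' n)
  have hρinv : Pool.Agent.H635F.Inv (ob x0 N0 hN0) := inv_ob hN0 hP0
  have hconv : Tendsto φ atTop (𝓝 (th (ob x0 N0 hN0 : Measure UnitAddCircle) : G → ℂ)) := by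
    rw [tendsto_pi_nhds]
    intro g
    by_cases hg : ∃ r : ℚ, ∀ x, (g : Equiv.Perm ℚ) x = x + r
    · obtain ⟨r, hg⟩ := hg
      obtain ⟨S6, ν, D⟩ := exists_data hs2 hs3 ht hG hu (hφ 0).1.1
      obtain ⟨n, k, hr⟩ := D.six hg
      rw [th_tau (inv_both _ hρinv).1 (inv_both _ hρinv).2 hg hr]
      have h1 : ∀ m, φ m g = F n (ob (x0 + x m) (N0 * N m) (hN' m)) := by
        intro m
        obtain ⟨S6, ν, D⟩ := exists_data hs2 hs3 ht hG hu (hφ m).1.1
        rw [phi_trans D.hτ D.hcl S6 D.hS6 g n k (fun x => by rw [hg, hr])]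
        exact hφF m n
      simp_rw [h1]
      exact ((continuous_F n).tendsto _).comp hlim
    · rw [th_off hform hg]
      have hE : 1 ≤ (nm g).natAbs := Int.natAbs_pos.2 (nm_ne hform g hg)
      have h1 := eventually_large x N hN hP hx hJ x0 N0 hN0 hP0 _ hE
      refine tendsto_const_nhds.congr' ?_
      filter_upwards [h1] with m hm
      obtain ⟨S6, ν, D⟩ := exists_data hs2 hs3 ht hG hu (hφ m).1.1
      have hνρ : ν = ob (x0 + x m) (N0 * N m) (hN' m) := by
        apply ProbabilityMeasure.toMeasure_injective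
        refine ext_fourier _ _ fun k => ?_
        rw [D.hμ, hφF m]
        rfl
      symm
      refine off2 D g ?_
      rw [hνρ]
      refine orb_null _ _ _ _ _ _ ?_ fun i j hij => ?_
      · exact (isClosed_eq (fourier (nm g)).continuous continuous_const).measurableSet
      · have h2 : (nm g).natAbs • (Sg i j • (x0 + x m)) = 0 := by
          have hij' : (fourier (nm g) (Sg i j • (x0 + x m)) : ℂ) = 1 := hij
          rw [fourier_apply] at hij'
          have hx' : AddCircle.toCircle ((nm g) • (Sg i j • (x0 + x m))) =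
              AddCircle.toCircle (0 : UnitAddCircle) := by
            rw [AddCircle.toCircle_zero]
            exact Subtype.ext hij'
          have hx2 := AddCircle.injective_toCircle one_ne_zero hx'
          rcases Int.natAbs_eq (nm g) with h | h
          · rw [h, natCast_zsmul] at hx2
            exact hx2
          · rw [h, neg_smul, natCast_zsmul, neg_eq_zero] at hx2
            exact hx2
        rw [smul_comm] at h2
        have hper : Per ((nm g).natAbs • (x0 + x m)) (N0 * N m) := (hP' m).smul _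
        have h3 : (nm g).natAbs • (x0 + x m) = 0 := by
          by_contra hne
          exact orbit_ne_zero _ _ _ (hN' m) (hN' m) hper.1 hper.2 hne i j h2
        exact hm h3
  exact mem_closure_of_tendsto hconv (Eventually.of_forall hφ)

/-- The homeomorphism. -/
theorem exists_homeo (H : NoGapOrb) (hs2 : ∀ x, s2 x = 2 * x) (hs3 : ∀ x, s3 x = 3 * x)
    (ht : ∀ x, t x = x + 1) (hG : G = Subgroup.closure {s2, s3, t})
    (hu : ∀ x : ℚ, (u : Equiv.Perm ℚ) x = x + 1) :
    ∃ e : EE ≃ₜ Lim G, ∀ μ : EE, ((e μ : Lim G) : G → ℂ) = th (μ.1 : Measure UnitAddCircle) := by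
  let f : EE → Lim G := fun μ => ⟨th (μ.1 : Measure UnitAddCircle),
    th_mem_cl H hs2 hs3 ht hG hu μ⟩
  have hf : Continuous f :=
    (continuous_th.comp continuous_subtype_val).subtype_mk _
  have hinj : Function.Injective f := by
    intro μ ν h
    have h1 : (th (μ.1 : Measure UnitAddCircle) : G → ℂ) = th (ν.1 : Measure UnitAddCircle) :=
      congrArg Subtype.val h
    have h2 := th_inj ht hG (inv_both _ (inv_EE μ)).1 (inv_both _ (inv_EE μ)).2
      (inv_both _ (inv_EE ν)).1 (inv_both _ (inv_EE ν)).2 h1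
    exact Subtype.ext (ProbabilityMeasure.toMeasure_injective h2)
  have hsurj : Function.Surjective f := by
    rintro ⟨φ, hφ, hoff⟩
    obtain ⟨μ, hμ⟩ := cl_meas hs2 hs3 ht hG hu hφ
    exact ⟨μ, Subtype.ext (eq_th hs2 hs3 ht hG hu (cl_sub_trs hφ) hoff μ.1 hμ).symm⟩
  exact ⟨Continuous.homeoOfEquivCompactToT2 (f := Equiv.ofBijective f ⟨hinj, hsurj⟩) hf,
    fun μ => rfl⟩

/-- The bad traces. -/
def Bd (G : Subgroup (Equiv.Perm ℚ)) : Set (G → ℂ) :=
  {φ | φ ∈ Set.extremePoints ℝ (Trs G) ∧ ¬ CFin φ ∧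
    φ ≠ Set.indicator ({1} : Set G) (fun _ => (1 : ℂ))}

lemma bad_of_AE (hs2 : ∀ x, s2 x = 2 * x) (hs3 : ∀ x, s3 x = 3 * x)
    (ht : ∀ x, t x = x + 1) (hG : G = Subgroup.closure {s2, s3, t}) (μ : PM)
    (hinv : Pool.Agent.H635F.Inv μ) (hat : ∀ x, (μ : Measure UnitAddCircle) {x} = 0)
    (herg : JointlyErgodic (μ : Measure UnitAddCircle))
    (hne : (μ : Measure UnitAddCircle) ≠ volume) :
    (th (μ : Measure UnitAddCircle) : G → ℂ) ∈ Bd G := by
  have hform : Form G := fun g => form hs2 hs3 ht g (by rw [← hG]; exact g.2)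
  have hAE : (μ : Measure UnitAddCircle) ∈ Pool.Agent.H185.XQ.AE {2, 3} := by
    refine ⟨inferInstance, hat, ?_, fun E hE h => ?_⟩
    · rintro s (rfl | rfl)
      · exact (inv_both μ hinv).1
      · exact (inv_both μ hinv).2
    · exact herg E hE (h 2 (by simp)) (h 3 (by simp))
  obtain ⟨h1, h2⟩ := th_mem hs2 hs3 ht hG hAE
  refine ⟨h1, h2, fun h3 => hne ?_⟩
  have hv := vol_mem
  have h4 : (th (μ : Measure UnitAddCircle) : G → ℂ) = th volume := by
    rw [h3]
    exact (Pool.Agent.Results.MP_81910f_an.IsolatedRegularTrace.th_vol hform).symm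
  have hpv : IsProbabilityMeasure (volume : Measure UnitAddCircle) := hv.1
  exact th_inj ht hG (inv_both μ hinv).1 (inv_both μ hinv).2 (hv.2.2.1 2 (by simp))
    (hv.2.2.1 3 (by simp)) h4

lemma AE_of_bad (hs2 : ∀ x, s2 x = 2 * x) (hs3 : ∀ x, s3 x = 3 * x)
    (ht : ∀ x, t x = x + 1) (hG : G = Subgroup.closure {s2, s3, t}) {φ : G → ℂ} (hφ : φ ∈ Bd G) :
    ∃ μ : PM, (∀ x, (μ : Measure UnitAddCircle) {x} = 0) ∧ Pool.Agent.H635F.Inv μ ∧
      φ = th (μ : Measure UnitAddCircle) := by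
  obtain ⟨μ, hμ, h⟩ := ae_of hs2 hs3 ht hG hφ.1 hφ.2.1
  exact ⟨⟨μ, hμ.1⟩, hμ.2.1, (Pool.Agent.H635F.inv_iff _).2 ⟨hμ.2.2.1 2 (by simp),
    hμ.2.2.1 3 (by simp)⟩, h⟩

end Pool.Agent.H266.FE
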