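import Mathlib
import Pool.Agent.H266.FE10

set_option autoImplicit false

open MeasureTheory Filter Topology
open scoped ComplexOrder ENNReal

namespace Pool.Agent.H266.FE

open Pool.Agent.W763.Tr Pool.Agent.TH654.FC Pool.Agent.Q227.Tr
open Pool.Agent.H635F hiding Inv
open Pool.Agent.H266.FD

variable {s2 s3 t : Equiv.Perm ℚ} {G : Subgroup (Equiv.Perm ℚ)} {u : G}

/-- Rigidity along the powers of two and three with the same exponent. -/
def SR (u : G) (φ : G → ℂ) : Prop := ∀ (ε : ℝ) (L : ℕ), 0 < ε → ∃ n : ℕ, L ≤ n ∧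
  ‖φ (u ^ (2 ^ n - 1)) - 1‖ ≤ ε ∧ ‖φ (u ^ (3 ^ n - 1)) - 1‖ ≤ ε

/-- Periodicity up to small errors. -/
def Prf (u : G) (φ : G → ℂ) : Prop := ∀ ε : ℝ, 0 < ε → ∃ N : ℕ, 1 ≤ N ∧ ∀ i j : ℕ,
  ‖φ (u ^ (2 ^ (N * i) * 3 ^ (N * j) - 1)) - 1‖ ≤ ε

lemma F_sub_one' (μ : PM) (m : ℕ) (hm : 1 ≤ m) :
    ‖F ((m - 1 : ℕ) : ℤ) μ - 1‖ ≤ 2 * Real.pi * (D μ m 1).toReal := by
  have h := norm_F_sub_one 1 (push (m - 1) μ)
  rw [F_push, J_push_sub μ m hm] at h
  simpa using h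

lemma F_one_ne (x : UnitAddCircle) (N : ℕ) (hN : 1 ≤ N) (hP : Per x N) (hx : x ≠ 0) :
    F 1 (ob x N hN) ≠ 1 := by
  intro h
  have hq : 1 ≤ 2 ^ N - 1 := by
    have : 2 ^ 1 ≤ 2 ^ N := Nat.pow_le_pow_right (by norm_num) hN
    omega
  have h1 := J_lower x N hN hP hx (2 ^ N - 1) hq (per_torsion x N hP.1)
  have h2 : J (ob x N hN) ≠ 0 := by
    intro h0
    rw [h0, ENNReal.toReal_zero] at h1
    have : (0 : ℝ) < 1 / ((2 ^ N - 1 : ℕ) : ℝ) := by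
      have : (0 : ℝ) < ((2 ^ N - 1 : ℕ) : ℝ) := by exact_mod_cast hq
      positivity
    linarith
  obtain ⟨r, hr0, hr1, hr⟩ := exists_r _ h2
  have h3 := hr _ (inv_ob hN hP) le_rfl
  rw [h, norm_one] at h3
  linarith

lemma noGap_of_orbits (h : ∀ ε : ℝ, 0 < ε → ∃ (x : UnitAddCircle) (N : ℕ) (hN : 1 ≤ N),
    Per x N ∧ x ≠ 0 ∧ (J (ob x N hN)).toReal ≤ ε) : NoGapOrb := by
  intro ε hε
  obtain ⟨x, N, hN, hP, hx, hJ⟩ := h ε hε
  refine ⟨x, N, N, hN, hN, hP.1, hP.2, hx, ?_⟩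
  rw [J_ob] at hJ
  exact hJ

/-- From traces to orbits. -/
theorem noGap_of_one (hs2 : ∀ x, s2 x = 2 * x) (hs3 : ∀ x, s3 x = 3 * x)
    (ht : ∀ x, t x = x + 1) (hG : G = Subgroup.closure {s2, s3, t})
    (hu : ∀ x : ℚ, (u : Equiv.Perm ℚ) x = x + 1)
    (h : ∀ ε : ℝ, 0 < ε → ∃ φ ∈ Cfd G, φ u ≠ 1 ∧ ‖φ u - 1‖ < ε) : NoGapOrb := by
  refine noGap_of_orbits fun ε hε => ?_
  obtain ⟨r, hr0, hr1, hr⟩ := exists_r (ENNReal.ofReal ε) (by
    rw [ne_eq, ENNReal.ofReal_eq_zero, not_le]; exact hε)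
  obtain ⟨φ, hφ, h1, h2⟩ := h (1 - r) (by linarith)
  obtain ⟨S6, ν, D⟩ := exists_data hs2 hs3 ht hG hu hφ.1.1
  obtain ⟨x, N, hN, hP, hν⟩ := (isOrb_iff _).1 (cfd_orb hs2 hs3 ht hG D hφ)
  have hνF : F 1 ν = φ u := by
    have := D.hμ 1
    rw [zpow_one] at this
    exact this
  have hν' : ν = ob x N hN := hν
  refine ⟨x, N, hN, hP, ?_, ?_⟩
  · rintro rfl
    apply h1
    rw [← hνF, hν', F_ob]
    have hN0 : (N : ℂ) ≠ 0 := by exact_mod_cast (by omega : N ≠ 0)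
    simp only [smul_zero, fourier_eval_zero, Finset.sum_const, Finset.card_range, nsmul_eq_mul,
      mul_one]
    field_simp
  · have h3 : r < ‖F 1 (ob x N hN)‖ := by
      rw [← hν', hνF]
      have h4 : ‖(1 : ℂ)‖ - ‖φ u‖ ≤ ‖(1 : ℂ) - φ u‖ := norm_sub_norm_le _ _
      rw [norm_one, norm_sub_rev] at h4
      linarith
    have h5 : J (ob x N hN) < ENNReal.ofReal ε := by
      by_contra hcon
      exact absurd (hr _ (inv_ob hN hP) (not_lt.1 hcon)) (not_le.2 h3)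
    exact ENNReal.toReal_le_of_le_ofReal hε.le h5.le

theorem one_of_noGap (H : NoGapOrb) (hs2 : ∀ x, s2 x = 2 * x) (hs3 : ∀ x, s3 x = 3 * x)
    (ht : ∀ x, t x = x + 1) (hG : G = Subgroup.closure {s2, s3, t})
    (hu : ∀ x : ℚ, (u : Equiv.Perm ℚ) x = x + 1) (ε : ℝ) (hε : 0 < ε) :
    ∃ φ ∈ Cfd G, φ u ≠ 1 ∧ ‖φ u - 1‖ < ε := by
  obtain ⟨x, N, hN, hP, hx, hJ⟩ := exists_seq H
  have hlim : Tendsto (fun n : ℕ => 2 * Real.pi * (1 / ((n : ℝ) + 1))) atTop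
      (𝓝 (2 * Real.pi * 0)) := tendsto_one_div_add_atTop_nhds_zero_nat.const_mul _
  rw [mul_zero] at hlim
  obtain ⟨n, hn⟩ := (hlim.eventually (Iio_mem_nhds hε)).exists
  obtain ⟨φ, hφ, hF⟩ := exists_cfd hs2 hs3 ht hG hu (hN n) (hP n)
  have hF1 := hF 1
  rw [zpow_one] at hF1
  refine ⟨φ, hφ, ?_, ?_⟩
  · rw [hF1]
    exact F_one_ne (x n) (N n) (hN n) (hP n) (hx n)
  · rw [hF1]
    refine lt_of_le_of_lt ?_ hn
    have h1 := norm_F_sub_one 1 (ob (x n) (N n) (hN n))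
    refine h1.trans ?_
    have e : |((1 : ℤ) : ℝ)| = 1 := by norm_num
    rw [e, mul_one]
    exact mul_le_mul_of_nonneg_left (hJ n) (by positivity)

/-- Central dilations. -/
theorem dil_central (hG : G = Subgroup.closure {s2, s3, t}) (hs2 : ∀ x, s2 x = 2 * x)
    (hs3 : ∀ x, s3 x = 3 * x) (ht : ∀ x, t x = x + 1)
    (hu : ∀ x : ℚ, (u : Equiv.Perm ℚ) x = x + 1) {φ : G → ℂ}
    (hext : φ ∈ Set.extremePoints ℝ (Trs G)) (d : G) (lam : ℚ)
    (hd : ∀ x, (d : Equiv.Perm ℚ) x = lam * x) (hk : φ (u * d * u⁻¹ * d⁻¹) = 1) :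
    (∀ y, φ (d * y) = φ d * φ y) ∧ ‖φ d‖ = 1 := by
  obtain ⟨h1, hcl, hpd⟩ := hext.1
  have hpd' : PD φ := hpd
  have hcen : ∀ g y : G, ∑ _i ∈ ({()} : Finset Unit), (((1 : ℝ)) : ℂ) * φ (g * d * g⁻¹ * y) =
      ∑ _i ∈ ({()} : Finset Unit), (((1 : ℝ)) : ℂ) * φ (d * y) := by
    refine sum_central hG hcl {()} (fun _ => ((1 : ℝ) : ℂ)) (fun _ => d) ?_
    intro g hg y
    simp only [Finset.sum_singleton, Complex.ofReal_one, one_mul]
    rcases hg with hg | hg | hg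
    · have e : g * d * g⁻¹ = d := by
        rw [mul_inv_eq_iff_eq_mul]
        apply Subtype.ext
        apply Equiv.ext
        intro x
        rw [Subgroup.coe_mul, Subgroup.coe_mul, Equiv.Perm.mul_apply, Equiv.Perm.mul_apply, hg, hd,
          hs2, hs2, hd]
        ring
      rw [e]
    · have e : g * d * g⁻¹ = d := by
        rw [mul_inv_eq_iff_eq_mul]
        apply Subtype.ext
        apply Equiv.ext
        intro x
        rw [Subgroup.coe_mul, Subgroup.coe_mul, Equiv.Perm.mul_apply, Equiv.Perm.mul_apply, hg, hd,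
          hs3, hs3, hd]
        ring
      rw [e]
    · have hgu : g = u := by
        apply Subtype.ext
        apply Equiv.ext
        intro x
        rw [hg, ht, hu]
      have e : g * d * g⁻¹ * y = (u * d * u⁻¹ * d⁻¹) * (d * y) := by
        rw [hgu]; group
      rw [e, cl_swap hcl, hpd'.mul_of_eq_one h1 hk]
  have key := central (φ := φ) hext ({()} : Finset Unit) (fun _ => 1) (fun _ _ => zero_le_one)
    (by simp) (fun _ => d) hcen
  simp only [Finset.sum_singleton, Complex.ofReal_one, one_mul] at key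
  refine ⟨key, ?_⟩
  have h2 := key d⁻¹
  rw [mul_inv_cancel, h1, hpd'.inv h1] at h2
  have h3 : φ d * star (φ d) = ((‖φ d‖ ^ 2 : ℝ) : ℂ) := by
    rw [Complex.star_def, Complex.mul_conj, Complex.normSq_eq_norm_sq]
  rw [h3] at h2
  have h4 : ‖φ d‖ ^ 2 = 1 := by exact_mod_cast h2.symm
  have := norm_nonneg (φ d)
  nlinarith

/-- The indicator function of the translations. -/
noncomputable def TI (G : Subgroup (Equiv.Perm ℚ)) : G → ℂ :=
  Set.indicator {g : G | ∃ r : ℚ, ∀ x : ℚ, (g : Equiv.Perm ℚ) x = x + r} (fun _ => (1 : ℂ))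

lemma TI_of {g : G} (h : ∃ r : ℚ, ∀ x : ℚ, (g : Equiv.Perm ℚ) x = x + r) : TI G g = 1 :=
  Set.indicator_of_mem (s := {g : G | ∃ r : ℚ, ∀ x : ℚ, (g : Equiv.Perm ℚ) x = x + r}) h _

lemma TI_not {g : G} (h : ¬ ∃ r : ℚ, ∀ x : ℚ, (g : Equiv.Perm ℚ) x = x + r) : TI G g = 0 :=
  Set.indicator_of_notMem (s := {g : G | ∃ r : ℚ, ∀ x : ℚ, (g : Equiv.Perm ℚ) x = x + r}) h _

lemma TI_eq (hG : Form G) : TI G = th (d0 : Measure UnitAddCircle) := by
  have hinv : Pool.Agent.H635F.Inv d0 := inv_d0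
  funext g
  by_cases hg : ∃ r : ℚ, ∀ x, (g : Equiv.Perm ℚ) x = x + r
  · rw [TI_of hg]
    obtain ⟨r, hg⟩ := hg
    obtain ⟨a, b, r', hr', h⟩ := hG g
    have e0 := h 0
    rw [hg, mul_zero, zero_add, zero_add] at e0
    subst e0
    obtain ⟨n, k, hr⟩ := hr'
    rw [th_tau (inv_both _ hinv).1 (inv_both _ hinv).2 hg hr]
    change _ = ∫ x, (fourier n x : ℂ) ∂(Measure.dirac 0)
    rw [integral_dirac, fourier_eval_zero]
  · rw [th_off hG hg, TI_not hg]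

lemma TI_mem (H : NoGapOrb) (hs2 : ∀ x, s2 x = 2 * x) (hs3 : ∀ x, s3 x = 3 * x)
    (ht : ∀ x, t x = x + 1) (hG : G = Subgroup.closure {s2, s3, t})
    (hu : ∀ x : ℚ, (u : Equiv.Perm ℚ) x = x + 1) : TI G ∈ closure (Cfd G) := by
  rw [TI_eq (fun g => form hs2 hs3 ht g (by rw [← hG]; exact g.2))]
  exact (th_mem_cl H hs2 hs3 ht hG hu ⟨d0, subset_closure isOrb_d0⟩).1

theorem one_of_TI (hs2 : ∀ x, s2 x = 2 * x) (hs3 : ∀ x, s3 x = 3 * x)
    (ht : ∀ x, t x = x + 1) (hG : G = Subgroup.closure {s2, s3, t})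
    (hu : ∀ x : ℚ, (u : Equiv.Perm ℚ) x = x + 1) (h : TI G ∈ closure (Cfd G)) (ε : ℝ)
    (hε : 0 < ε) : ∃ φ ∈ Cfd G, φ u ≠ 1 ∧ ‖φ u - 1‖ < ε := by
  have m2 : s2 ∈ G := by rw [hG]; exact Subgroup.subset_closure (by simp)
  set d : G := ⟨s2, m2⟩ with hd
  have hTu : TI G u = 1 := TI_of ⟨1, hu⟩
  have hTd : TI G d = 0 := by
    refine TI_not ?_
    rintro ⟨r, hr⟩
    have e0 := hr 0
    have e1 := hr 1
    change s2 0 = 0 + r at e0
    change s2 1 = 1 + r at e1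
    rw [hs2] at e0 e1
    linarith
  have hO : IsOpen ({φ : G → ℂ | ‖φ u - 1‖ < ε} ∩ {φ : G → ℂ | ‖φ d‖ < 1}) :=
    (isOpen_lt ((continuous_apply u).sub continuous_const).norm continuous_const).inter
      (isOpen_lt (continuous_apply d).norm continuous_const)
  obtain ⟨φ, ⟨h1, h2⟩, hφ⟩ := mem_closure_iff.1 h _ hO (by
    constructor
    · change ‖TI G u - 1‖ < ε
      rw [hTu, sub_self, norm_zero]
      exact hε
    · change ‖TI G d‖ < 1
      rw [hTd, norm_zero]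
      exact one_pos)
  refine ⟨φ, hφ, ?_, h1⟩
  intro hu1
  obtain ⟨g1, gcl, gpd⟩ := hφ.1.1
  have gpd' : PD φ := gpd
  have hk : φ (u * d * u⁻¹ * d⁻¹) = 1 := by
    have e : u * d * u⁻¹ * d⁻¹ = u⁻¹ := by
      rw [mul_inv_eq_iff_eq_mul, mul_inv_eq_iff_eq_mul]
      apply Subtype.ext
      apply Equiv.ext
      intro x
      have hinv : ∀ z, ((u⁻¹ : G) : Equiv.Perm ℚ) z = z - 1 := by
        intro z
        rw [Subgroup.coe_inv, Equiv.Perm.inv_eq_iff_eq, hu]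
        ring
      have hdx : ∀ z, (d : Equiv.Perm ℚ) z = 2 * z := hs2
      simp only [Subgroup.coe_mul, Equiv.Perm.mul_apply, hdx, hu, hinv]
      ring
    rw [e, gpd'.inv g1, hu1, star_one]
  have h3 := (dil_central hG hs2 hs3 ht hu hφ.1 d 2 hs2 hk).2
  have h4 : ‖φ d‖ < 1 := h2
  linarith

/-- The zero-one gap. -/
theorem noGap_of_three (hs2 : ∀ x, s2 x = 2 * x) (hs3 : ∀ x, s3 x = 3 * x)
    (ht : ∀ x, t x = x + 1) (hG : G = Subgroup.closure {s2, s3, t})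
    (hu : ∀ x : ℚ, (u : Equiv.Perm ℚ) x = x + 1)
    (h : ∀ c : ℝ, c < 1 → ∃ φ ∈ closure (Cfd G), ∃ n : ℕ, 1 ≤ n ∧ φ (u ^ n) ≠ 1 ∧
      c < ‖φ (u ^ n)‖) : NoGapOrb := by
  refine noGap_of_orbits fun ε hε => ?_
  obtain ⟨r, hr0, hr1, hr⟩ := exists_r (ENNReal.ofReal ε) (by
    rw [ne_eq, ENNReal.ofReal_eq_zero, not_le]; exact hε)
  obtain ⟨φ, hφ, n, hn, h1, h2⟩ := h r hr1
  obtain ⟨μ, hμ⟩ := cl_meas hs2 hs3 ht hG hu hφ
  have hμn : φ (u ^ n) = F (n : ℤ) μ.1 := by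
    rw [← hμ, zpow_natCast]
  have hO : IsOpen {ν : PM | F (n : ℤ) ν ≠ 1 ∧ r < ‖F (n : ℤ) ν‖} :=
    (isOpen_ne_fun (continuous_F n) continuous_const).inter
      (isOpen_lt continuous_const (continuous_F n).norm)
  obtain ⟨ν, ⟨h3, h4⟩, hν⟩ := mem_closure_iff.1 μ.2 _ hO ⟨by rw [← hμn]; exact h1,
    by rw [← hμn]; exact h2⟩
  obtain ⟨x, N, hN, hP, rfl⟩ := (isOrb_iff _).1 hν
  have hJ : (J (push n (ob x N hN))).toReal = (J (ob (n • x) N hN)).toReal := by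
    rw [← integral_norm_push, J_ob]
    have h5 := orb_integral x N N hN hN (fun y => ‖n • y‖) (continuous_nsmul n).norm
    change ∫ y, _ ∂(orb x N N hN hN : Measure UnitAddCircle) = _
    rw [h5]
    congr 1
    refine Finset.sum_congr rfl fun i _ => Finset.sum_congr rfl fun j _ => ?_
    unfold Sg
    rw [smul_comm]
  refine ⟨n • x, N, hN, hP.smul n, ?_, ?_⟩
  · intro h0
    apply h3
    rw [F_ob]
    have h6 : ∀ i j : ℕ, (fourier (n : ℤ) (Sg i j • x) : ℂ) = 1 := by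
      intro i j
      rw [fourier_apply, natCast_zsmul, smul_comm, h0, smul_zero]
      simp
    have hN0 : (N : ℂ) ≠ 0 := by exact_mod_cast (by omega : N ≠ 0)
    simp only [h6, Finset.sum_const, Finset.card_range, nsmul_eq_mul, mul_one]
    field_simp
  · rw [← hJ]
    have h7 : J (push n (ob x N hN)) < ENNReal.ofReal ε := by
      by_contra hcon
      have h8 := hr _ ((inv_ob hN hP).push n) (not_lt.1 hcon)
      rw [F_push] at h8
      exact absurd h8 (not_le.2 h4)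
    exact ENNReal.toReal_le_of_le_ofReal hε.le h7.le

end Pool.Agent.H266.FE
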