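import Mathlib
import Pool.Agent.H266.FE11

set_option autoImplicit false

open MeasureTheory Filter Topology
open scoped ComplexOrder ENNReal

namespace Pool.Agent.H266.FE

open Pool.Agent.W763.Tr Pool.Agent.TH654.FC Pool.Agent.Q227.Tr
open Pool.Agent.H635F hiding Inv
open Pool.Agent.H266.FD

variable {s2 s3 t : Equiv.Perm ℚ} {G : Subgroup (Equiv.Perm ℚ)} {u : G}

/-- Convex combinations of two measures. -/
lemma exists_comb (ν₁ ν₂ : PM) (a b : NNReal) (hab : a + b = 1) :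
    ∃ ν : PM, (ν : Measure UnitAddCircle) = a • (ν₁ : Measure UnitAddCircle) +
      b • (ν₂ : Measure UnitAddCircle) := by
  refine ⟨⟨a • (ν₁ : Measure UnitAddCircle) + b • (ν₂ : Measure UnitAddCircle), ⟨?_⟩⟩, rfl⟩
  rw [Measure.add_apply, Measure.smul_apply, Measure.smul_apply, measure_univ, measure_univ,
    ENNReal.smul_def, ENNReal.smul_def, smul_eq_mul, smul_eq_mul, mul_one, mul_one,
    ← ENNReal.coe_add, hab]
  rfl

lemma F_comb (ν ν₁ ν₂ : PM) (a b : NNReal)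
    (h : (ν : Measure UnitAddCircle) = a • (ν₁ : Measure UnitAddCircle) +
      b • (ν₂ : Measure UnitAddCircle)) (n : ℤ) :
    F n ν = ((a : ℝ) : ℂ) * F n ν₁ + ((b : ℝ) : ℂ) * F n ν₂ := by
  unfold F
  rw [h, integral_add_measure
    ((Pool.Agent.H635F.integrable_fourier n _).smul_measure_nnreal)
    ((Pool.Agent.H635F.integrable_fourier n _).smul_measure_nnreal),
    integral_smul_nnreal_measure, integral_smul_nnreal_measure]
  rfl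

lemma fs_comb (ν ν₁ ν₂ : PM) (h1 : ν₁ ∈ FS) (h2 : ν₂ ∈ FS) (a b : NNReal)
    (h : (ν : Measure UnitAddCircle) = a • (ν₁ : Measure UnitAddCircle) +
      b • (ν₂ : Measure UnitAddCircle)) : ν ∈ FS := by
  obtain ⟨⟨m2, m3⟩, S, hS, hS0⟩ := h1
  obtain ⟨⟨m2', m3'⟩, T, hT, hT0⟩ := h2
  have hmp : ∀ k : ℕ, MeasurePreserving (fun x : UnitAddCircle => k • x)
      (ν₁ : Measure UnitAddCircle) ν₁ → MeasurePreserving (fun x : UnitAddCircle => k • x)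
      (ν₂ : Measure UnitAddCircle) ν₂ → MeasurePreserving (fun x : UnitAddCircle => k • x)
      (ν : Measure UnitAddCircle) ν := by
    intro k k1 k2
    refine ⟨(continuous_nsmul k).measurable, ?_⟩
    rw [h, Measure.map_add _ _ (continuous_nsmul k).measurable]
    have e1 : Measure.map (fun x : UnitAddCircle => k • x) (a • (ν₁ : Measure UnitAddCircle)) =
        a • (ν₁ : Measure UnitAddCircle) := by
      rw [Measure.map_smul, k1.map_eq]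
    have e2 : Measure.map (fun x : UnitAddCircle => k • x) (b • (ν₂ : Measure UnitAddCircle)) =
        b • (ν₂ : Measure UnitAddCircle) := by
      rw [Measure.map_smul, k2.map_eq]
    rw [e1, e2]
  refine ⟨⟨hmp 2 m2 m2', hmp 3 m3 m3'⟩, S ∪ T, hS.union hT, ?_⟩
  rw [h, Measure.add_apply, Measure.smul_apply, Measure.smul_apply]
  have e1 : (ν₁ : Measure UnitAddCircle) (S ∪ T)ᶜ = 0 :=
    measure_mono_null (Set.compl_subset_compl.2 Set.subset_union_left) hS0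
  have e2 : (ν₂ : Measure UnitAddCircle) (S ∪ T)ᶜ = 0 :=
    measure_mono_null (Set.compl_subset_compl.2 Set.subset_union_right) hT0
  rw [e1, e2]
  simp

/-- The measures of the elements of the closed convex hull. -/
lemma hull_meas (hs2 : ∀ x, s2 x = 2 * x) (hs3 : ∀ x, s3 x = 3 * x)
    (ht : ∀ x, t x = x + 1) (hG : G = Subgroup.closure {s2, s3, t})
    (hu : ∀ x : ℚ, (u : Equiv.Perm ℚ) x = x + 1) {φ : G → ℂ}
    (hφ : φ ∈ closure (convexHull ℝ (Cfd G))) :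
    ∃ μ : CM, ∀ n : ℤ, φ (u ^ n) = F n μ.1 := by
  have hA : IsClosed {φ : G → ℂ | ∃ μ : CM, ∀ n : ℤ, φ (u ^ n) = F n μ.1} := by
    have hc : Continuous fun μ : CM => fun n : ℤ => F n μ.1 :=
      continuous_pi fun n => (continuous_F n).comp continuous_subtype_val
    have h1 : IsClosed (Set.range fun μ : CM => fun n : ℤ => F n μ.1) :=
      (isCompact_range hc).isClosed
    have hc2 : Continuous fun φ : G → ℂ => fun n : ℤ => φ (u ^ n) :=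
      continuous_pi fun n => continuous_apply _
    have e : {φ : G → ℂ | ∃ μ : CM, ∀ n : ℤ, φ (u ^ n) = F n μ.1} =
        (fun φ : G → ℂ => fun n : ℤ => φ (u ^ n)) ⁻¹'
          (Set.range fun μ : CM => fun n : ℤ => F n μ.1) := by
      ext φ
      simp only [Set.mem_ofPred_eq, Set.mem_preimage, Set.mem_range]
      constructor
      · rintro ⟨μ, hμ⟩
        exact ⟨μ, funext fun n => (hμ n).symm⟩
      · rintro ⟨μ, hμ⟩
        exact ⟨μ, fun n => (congrFun hμ n).symm⟩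
    rw [e]
    exact h1.preimage hc2
  have hconv : Convex ℝ {φ : G → ℂ | ∃ ν : PM, ν ∈ FS ∧ ∀ n : ℤ, φ (u ^ n) = F n ν} := by
    rintro φ₁ ⟨ν₁, h1, e1⟩ φ₂ ⟨ν₂, h2, e2⟩ a b ha hb hab
    set a' : NNReal := ⟨a, ha⟩ with ha'
    set b' : NNReal := ⟨b, hb⟩ with hb'
    obtain ⟨ν, hν⟩ := exists_comb ν₁ ν₂ a' b' (NNReal.eq hab)
    refine ⟨ν, fs_comb ν ν₁ ν₂ h1 h2 a' b' hν, fun n => ?_⟩
    rw [F_comb ν ν₁ ν₂ a' b' hν]
    simp only [Pi.add_apply, Pi.smul_apply, Complex.real_smul]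
    rw [e1, e2]
    rfl
  have hsub : Cfd G ⊆ {φ : G → ℂ | ∃ ν : PM, ν ∈ FS ∧ ∀ n : ℤ, φ (u ^ n) = F n ν} := by
    intro ψ hψ
    obtain ⟨S6, ν, D⟩ := exists_data hs2 hs3 ht hG hu hψ.1.1
    exact ⟨ν, fs_orb _ (cfd_orb hs2 hs3 ht hG D hψ), fun n => (D.hμ n).symm⟩
  have h2 := convexHull_min hsub hconv
  refine closure_minimal (h2.trans ?_) hA hφ
  rintro ψ ⟨ν, hν, h⟩
  exact ⟨⟨ν, subset_closure hν⟩, h⟩

theorem noGap_of_four (hs2 : ∀ x, s2 x = 2 * x) (hs3 : ∀ x, s3 x = 3 * x)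
    (ht : ∀ x, t x = x + 1) (hG : G = Subgroup.closure {s2, s3, t})
    (hu : ∀ x : ℚ, (u : Equiv.Perm ℚ) x = x + 1)
    (h : ∃ φ ∈ Bd G, φ ∈ closure (convexHull ℝ (Cfd G)) ∧ ∀ c : ℝ, c < 1 → ∃ n : ℕ, 1 ≤ n ∧
      c < ‖φ (u ^ n)‖) : NoGapOrb := by
  obtain ⟨φ, hφ, hcl, hlarge⟩ := h
  obtain ⟨μ, hat, hinv, hth⟩ := AE_of_bad hs2 hs3 ht hG hφ
  obtain ⟨ν, hν⟩ := hull_meas hs2 hs3 ht hG hu hcl
  have hνμ : ν.1 = μ := by
    apply ProbabilityMeasure.toMeasure_injective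
    refine ext_fourier _ _ fun k => ?_
    change F k ν.1 = F k μ
    rw [← hν, hth, th_pow hu μ hinv]
  refine noGapOrb_of_large ν (by rw [hνμ]; exact hat) fun ε hε => ?_
  obtain ⟨n, hn, h1⟩ := hlarge (1 - ε) (by linarith)
  refine ⟨n, hn, ?_⟩
  change 1 - ε ≤ ‖F (n : ℤ) ν.1‖
  rw [← hν, zpow_natCast]
  exact h1.le

lemma large_of_close (φ : G → ℂ) (h : ∀ ε : ℝ, 0 < ε → ∃ n : ℕ, 1 ≤ n ∧ ‖φ (u ^ n) - 1‖ ≤ ε)
    (c : ℝ) (hc : c < 1) : ∃ n : ℕ, 1 ≤ n ∧ c < ‖φ (u ^ n)‖ := by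
  obtain ⟨n, hn, h1⟩ := h ((1 - c) / 2) (by linarith)
  refine ⟨n, hn, ?_⟩
  have h4 : ‖(1 : ℂ)‖ - ‖φ (u ^ n)‖ ≤ ‖(1 : ℂ) - φ (u ^ n)‖ := norm_sub_norm_le _ _
  rw [norm_one, norm_sub_rev] at h4
  linarith

lemma large_of_prf (φ : G → ℂ) (h : Prf u φ) (c : ℝ) (hc : c < 1) :
    ∃ n : ℕ, 1 ≤ n ∧ c < ‖φ (u ^ n)‖ := by
  refine large_of_close φ (fun ε hε => ?_) c hc
  obtain ⟨N, hN, h1⟩ := h ε hε
  refine ⟨2 ^ (N * 1) * 3 ^ (N * 0) - 1, ?_, h1 1 0⟩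
  rw [mul_one, mul_zero, pow_zero, mul_one]
  have : 2 ^ 1 ≤ 2 ^ N := Nat.pow_le_pow_right (by norm_num) hN
  omega

lemma large_of_sr (φ : G → ℂ) (h : SR u φ) (c : ℝ) (hc : c < 1) :
    ∃ n : ℕ, 1 ≤ n ∧ c < ‖φ (u ^ n)‖ := by
  refine large_of_close φ (fun ε hε => ?_) c hc
  obtain ⟨n, hn, h1, -⟩ := h ε 1 hε
  refine ⟨2 ^ n - 1, ?_, h1⟩
  have : 2 ^ 1 ≤ 2 ^ n := Nat.pow_le_pow_right (by norm_num) hn
  omega

lemma prf_th (hu : ∀ x : ℚ, (u : Equiv.Perm ℚ) x = x + 1) (μ : PM)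
    (hinv : Pool.Agent.H635F.Inv μ) (h : PF μ) :
    Prf u (th (μ : Measure UnitAddCircle) : G → ℂ) := by
  intro ε hε
  have hpi := Real.pi_pos
  obtain ⟨N, hN, h1⟩ := h (ENNReal.ofReal (ε / (2 * Real.pi))) (by
    rw [ne_eq, ENNReal.ofReal_eq_zero, not_le]; positivity)
  refine ⟨N, hN, fun i j => ?_⟩
  have h2 : (th (μ : Measure UnitAddCircle) : G → ℂ) (u ^ (2 ^ (N * i) * 3 ^ (N * j) - 1)) =
      F ((2 ^ (N * i) * 3 ^ (N * j) - 1 : ℕ) : ℤ) μ := by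
    rw [← th_pow hu μ hinv, zpow_natCast]
  rw [h2]
  have hm : 1 ≤ 2 ^ (N * i) * 3 ^ (N * j) := Nat.mul_pos (by positivity) (by positivity)
  refine (F_sub_one' μ _ hm).trans ?_
  have h3 := ENNReal.toReal_le_of_le_ofReal (by positivity) (h1 i j)
  have h4 : (D μ (2 ^ (N * i) * 3 ^ (N * j)) 1).toReal ≤ ε / (2 * Real.pi) := h3
  calc 2 * Real.pi * (D μ (2 ^ (N * i) * 3 ^ (N * j)) 1).toReal ≤
        2 * Real.pi * (ε / (2 * Real.pi)) := by gcongr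
    _ = ε := by field_simp

lemma sr_th (hu : ∀ x : ℚ, (u : Equiv.Perm ℚ) x = x + 1) (μ : PM)
    (hinv : Pool.Agent.H635F.Inv μ) (h : StronglyRigid (μ : Measure UnitAddCircle)) :
    SR u (th (μ : Measure UnitAddCircle) : G → ℂ) := by
  intro ε L hε
  have hpi := Real.pi_pos
  obtain ⟨n, hn, h1, h2⟩ := h (ε / (2 * Real.pi)) L (by positivity)
  have key : ∀ a : ℕ, 1 ≤ a → ∫ x, ‖(a ^ n) • x - x‖ ∂(μ : Measure UnitAddCircle) ≤
      ε / (2 * Real.pi) →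
      ‖(th (μ : Measure UnitAddCircle) : G → ℂ) (u ^ (a ^ n - 1)) - 1‖ ≤ ε := by
    intro a ha hle
    have h2 : (th (μ : Measure UnitAddCircle) : G → ℂ) (u ^ (a ^ n - 1)) =
        F ((a ^ n - 1 : ℕ) : ℤ) μ := by
      rw [← th_pow hu μ hinv, zpow_natCast]
    rw [h2]
    refine (F_sub_one' μ _ (Nat.one_le_pow _ _ ha)).trans ?_
    rw [integral_mn] at hle
    calc 2 * Real.pi * (D μ (a ^ n) 1).toReal ≤ 2 * Real.pi * (ε / (2 * Real.pi)) := by gcongr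
      _ = ε := by field_simp
  exact ⟨n, hn, key 2 (by norm_num) h1, key 3 (by norm_num) h2⟩

lemma ne_volume_of_PF (μ : PM) (h : PF μ) : (μ : Measure UnitAddCircle) ≠ volume := by
  intro hv
  have hpi := Real.pi_pos
  obtain ⟨N, hN, h1⟩ := h (ENNReal.ofReal (1 / (4 * Real.pi))) (by
    rw [ne_eq, ENNReal.ofReal_eq_zero, not_le]; positivity)
  have h2 := ENNReal.toReal_le_of_le_ofReal (by positivity) (h1 1 0)
  have e : Sg (N * 1) (N * 0) = 2 ^ N := by simp [Sg]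
  rw [e] at h2
  have h3 := F_sub_one' μ (2 ^ N) Nat.one_le_two_pow
  have h5 : 2 ^ 1 ≤ 2 ^ N := Nat.pow_le_pow_right (by norm_num) hN
  have h4 : F ((2 ^ N - 1 : ℕ) : ℤ) μ = 0 := by
    unfold F
    rw [hv]
    exact F_volume _ (by exact_mod_cast (by omega : 2 ^ N - 1 ≠ 0))
  rw [h4, zero_sub, norm_neg, norm_one] at h3
  have h6 : 2 * Real.pi * (D μ (2 ^ N) 1).toReal ≤ 2 * Real.pi * (1 / (4 * Real.pi)) := by gcongr
  have h7 : 2 * Real.pi * (1 / (4 * Real.pi)) = 1 / 2 := by field_simp; norm_num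
  linarith

theorem five_of_noGap (H : NoGapOrb) (hs2 : ∀ x, s2 x = 2 * x) (hs3 : ∀ x, s3 x = 3 * x)
    (ht : ∀ x, t x = x + 1) (hG : G = Subgroup.closure {s2, s3, t})
    (hu : ∀ x : ℚ, (u : Equiv.Perm ℚ) x = x + 1) :
    ∃ φ ∈ Bd G, φ ∈ closure (Cfd G) ∧ Prf u φ := by
  obtain ⟨μ, h1, h2, h3⟩ := exists_profinite' H
  exact ⟨_, bad_of_AE hs2 hs3 ht hG μ.1 (inv_EE μ) h1 h2 (ne_volume_of_PF _ h3),
    (th_mem_cl H hs2 hs3 ht hG hu μ).1, prf_th hu μ.1 (inv_EE μ) h3⟩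

theorem six_of_noGap (H : NoGapOrb) (hs2 : ∀ x, s2 x = 2 * x) (hs3 : ∀ x, s3 x = 3 * x)
    (ht : ∀ x, t x = x + 1) (hG : G = Subgroup.closure {s2, s3, t})
    (hu : ∀ x : ℚ, (u : Equiv.Perm ℚ) x = x + 1) :
    (Lim G).Nonempty ∧ IsCompact (Lim G) ∧ (∀ φ : Lim G, (𝓝[≠] φ).NeBot) ∧
      {φ : Lim G | φ.1 ∈ Bd G ∧ SR u φ.1} ∈ residual (Lim G) := by
  obtain ⟨e, he⟩ := exists_homeo (u := u) H hs2 hs3 ht hG hu
  have hcomp : CompactSpace (Lim G) := e.compactSpace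
  refine ⟨⟨_, (e ⟨d0, subset_closure isOrb_d0⟩).2⟩, isCompact_iff_compactSpace.2 hcomp, ?_, ?_⟩
  · intro φ
    by_contra hcon
    rw [not_neBot, ← isOpen_singleton_iff_punctured_nhds] at hcon
    have h1 : IsOpen (e ⁻¹' {φ}) := hcon.preimage e.continuous
    have h2 : e ⁻¹' {φ} = {e.symm φ} := by
      ext μ
      simp only [Set.mem_preimage, Set.mem_singleton_iff]
      exact ⟨fun h => by rw [← h, e.symm_apply_apply], fun h => by rw [h, e.apply_symm_apply]⟩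
    rw [h2, isOpen_singleton_iff_punctured_nhds] at h1
    exact (no_isolated H (e.symm φ)).ne h1
  · rw [← e.residual_map_eq, mem_map]
    refine mem_of_superset (generic H) ?_
    rintro μ ⟨h1, h2, h3, h4⟩
    change ((e μ : Lim G) : G → ℂ) ∈ Bd G ∧ SR u ((e μ : Lim G) : G → ℂ)
    rw [he]
    exact ⟨bad_of_AE hs2 hs3 ht hG μ.1 (inv_EE μ) h1 h2 h3, sr_th hu μ.1 (inv_EE μ) h4⟩

theorem four_of_six (h : (Lim G).Nonempty ∧ IsCompact (Lim G) ∧ (∀ φ : Lim G, (𝓝[≠] φ).NeBot) ∧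
      {φ : Lim G | φ.1 ∈ Bd G ∧ SR u φ.1} ∈ residual (Lim G)) :
    ∃ φ ∈ Bd G, φ ∈ closure (convexHull ℝ (Cfd G)) ∧ ∀ c : ℝ, c < 1 → ∃ n : ℕ, 1 ≤ n ∧
      c < ‖φ (u ^ n)‖ := by
  obtain ⟨h1, h2, -, h3⟩ := h
  have hcomp : CompactSpace (Lim G) := isCompact_iff_compactSpace.1 h2
  have hne : Nonempty (Lim G) := h1.to_subtype
  obtain ⟨φ, h4, h5⟩ := (dense_of_mem_residual h3).nonempty
  exact ⟨φ.1, h4, closure_mono (subset_convexHull ℝ _) φ.2.1, fun c hc => large_of_sr φ.1 h5 c hc⟩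

/-- **The main equivalences.** -/
theorem main (hs2 : ∀ x, s2 x = 2 * x) (hs3 : ∀ x, s3 x = 3 * x)
    (ht : ∀ x, t x = x + 1) (hG : G = Subgroup.closure {s2, s3, t})
    (hu : ∀ x : ℚ, (u : Equiv.Perm ℚ) x = x + 1) : [
      ∀ ε : ℝ, 0 < ε → ∃ φ ∈ Cfd G, φ u ≠ 1 ∧ ‖φ u - 1‖ < ε,
      TI G ∈ closure (Cfd G),
      ∀ c : ℝ, c < 1 → ∃ φ ∈ closure (Cfd G), ∃ n : ℕ, 1 ≤ n ∧ φ (u ^ n) ≠ 1 ∧ c < ‖φ (u ^ n)‖,
      ∃ φ ∈ Bd G, φ ∈ closure (convexHull ℝ (Cfd G)) ∧ ∀ c : ℝ, c < 1 → ∃ n : ℕ, 1 ≤ n ∧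
        c < ‖φ (u ^ n)‖,
      ∃ φ ∈ Bd G, φ ∈ closure (Cfd G) ∧ Prf u φ,
      (Lim G).Nonempty ∧ IsCompact (Lim G) ∧ (∀ φ : Lim G, (𝓝[≠] φ).NeBot) ∧
        {φ : Lim G | φ.1 ∈ Bd G ∧ SR u φ.1} ∈ residual (Lim G)].TFAE := by
  have k1 := fun h => noGap_of_one (u := u) hs2 hs3 ht hG hu h
  tfae_have 1 → 2 := fun h => TI_mem (k1 h) hs2 hs3 ht hG hu
  tfae_have 2 → 1 := fun h ε hε => one_of_TI hs2 hs3 ht hG hu h ε hε
  tfae_have 1 → 3 := by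
    intro h c hc
    obtain ⟨φ, hφ, h1, h2⟩ := h (1 - c) (by linarith)
    refine ⟨φ, subset_closure hφ, 1, le_rfl, by rwa [pow_one], ?_⟩
    rw [pow_one]
    have h4 : ‖(1 : ℂ)‖ - ‖φ u‖ ≤ ‖(1 : ℂ) - φ u‖ := norm_sub_norm_le _ _
    rw [norm_one, norm_sub_rev] at h4
    linarith
  tfae_have 3 → 1 := fun h ε hε =>
    one_of_noGap (noGap_of_three hs2 hs3 ht hG hu h) hs2 hs3 ht hG hu ε hε
  tfae_have 4 → 1 := fun h ε hε =>
    one_of_noGap (noGap_of_four hs2 hs3 ht hG hu h) hs2 hs3 ht hG hu ε hε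
  tfae_have 5 → 4 := by
    rintro ⟨φ, h1, h2, h3⟩
    exact ⟨φ, h1, closure_mono (subset_convexHull ℝ _) h2, fun c hc => large_of_prf φ h3 c hc⟩
  tfae_have 1 → 5 := fun h => five_of_noGap (k1 h) hs2 hs3 ht hG hu
  tfae_have 1 → 6 := fun h => six_of_noGap (k1 h) hs2 hs3 ht hG hu
  tfae_have 6 → 4 := fun h => four_of_six h
  tfae_finish

end Pool.Agent.H266.FE
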