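import Mathlib
import Pool.Agent.H266.FE12

set_option autoImplicit false

open MeasureTheory Filter Topology
open scoped ComplexOrder ENNReal

namespace Pool.Agent.H266.FE

open Pool.Agent.W763.Tr Pool.Agent.TH654.FC Pool.Agent.Q227.Tr
open Pool.Agent.H635F hiding Inv
open Pool.Agent.H266.FD

variable {s2 s3 t : Equiv.Perm ℚ} {G : Subgroup (Equiv.Perm ℚ)} {u : G}

lemma norm_one_eq {a b : ℝ} (ha : 0 < a) (hb : 0 < b) (hab : a + b = 1) {z₁ z₂ z : ℂ}
    (h₁ : ‖z₁‖ ≤ 1) (h₂ : ‖z₂‖ ≤ 1) (hz : ‖z‖ = 1) (h : (a : ℂ) * z₁ + b * z₂ = z) : z₁ = z := by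
  have e1 : a * (z₁ * star z).re + b * (z₂ * star z).re = 1 := by
    have e2 : ((a : ℂ) * z₁ + b * z₂) * star z = ((‖z‖ ^ 2 : ℝ) : ℂ) := by
      rw [h, Complex.star_def, Complex.mul_conj, Complex.normSq_eq_norm_sq]
    have e3 := congrArg Complex.re e2
    rw [hz] at e3
    have e4 : ((a : ℂ) * z₁ + b * z₂) * star z = (a : ℂ) * (z₁ * star z) + b * (z₂ * star z) := by
      ring
    rw [e4, Complex.add_re, Complex.re_ofReal_mul, Complex.re_ofReal_mul] at e3
    simpa using e3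
  have n1 : ∀ w : ℂ, ‖w‖ ≤ 1 → (w * star z).re ≤ 1 := by
    intro w hw
    refine (Complex.re_le_norm _).trans ?_
    rw [norm_mul, norm_star, hz, mul_one]
    exact hw
  have h3 : (z₁ * star z).re = 1 := by
    have k1 := n1 z₁ h₁
    have k2 := n1 z₂ h₂
    by_contra hne
    have k3 : (z₁ * star z).re < 1 := lt_of_le_of_ne k1 hne
    nlinarith
  have h4 : ‖z₁ - z‖ ^ 2 = ‖z₁‖ ^ 2 + ‖z‖ ^ 2 - 2 * (z₁ * star z).re := by
    rw [← Complex.normSq_eq_norm_sq, ← Complex.normSq_eq_norm_sq, ← Complex.normSq_eq_norm_sq,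
      Complex.normSq_sub]
    simp only [Complex.star_def]
  rw [h3, hz] at h4
  have h5 : ‖z₁‖ ^ 2 ≤ 1 := pow_le_one₀ (norm_nonneg _) h₁
  have h6 : ‖z₁ - z‖ ^ 2 ≤ 0 := by rw [h4]; linarith
  have h7 : ‖z₁ - z‖ = 0 := by nlinarith [norm_nonneg (z₁ - z), sq_nonneg ‖z₁ - z‖]
  exact sub_eq_zero.1 (norm_eq_zero.1 h7)

lemma pd_mul {H : Type*} [Group H] {φ : H → ℂ} (h : PD φ) (h1 : φ 1 = 1) {d : H} (hd : ‖φ d‖ = 1)
    (y : H) : φ (y * d) = φ y * φ d := by
  have hdd : φ d * star (φ d) = 1 := by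
    rw [Complex.star_def, Complex.mul_conj, Complex.normSq_eq_norm_sq, hd]
    simp
  have hinv := h.inv h1 d
  have key : ∀ w : ℂ, 0 ≤ 1 + 2 * (w * (star (φ d) * φ (y * d) - φ y)).re := by
    intro w
    have h2 := h.family (Finset.univ : Finset (Fin 3)) ![d, 1, y⁻¹] ![w * star (φ d), -w, 1]
    simp only [Fin.sum_univ_three, Matrix.cons_val_zero, Matrix.cons_val_one, Matrix.cons_val,
      inv_one, one_mul, mul_one, inv_mul_cancel, h1, hinv, inv_inv, star_neg, star_one,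
      mul_inv_cancel] at h2
    have h3 : φ (d⁻¹ * y⁻¹) = star (φ (y * d)) := by
      rw [← h.inv h1]; simp
    rw [h3, h.inv h1] at h2
    have h4 := (Complex.nonneg_iff.1 h2).1
    refine le_of_le_of_eq h4 ?_
    have e : star (w * star (φ d)) * (w * star (φ d)) + -star w * (w * star (φ d)) * φ d +
          w * star (φ d) * φ (y * d) + (star (w * star (φ d)) * -w * star (φ d) + -star w * -w +
          -w * φ y) + (star (w * star (φ d)) * star (φ (y * d)) + -star w * star (φ y) + 1) =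
        (w * (star (φ d) * φ (y * d) - φ y) + star (w * (star (φ d) * φ (y * d) - φ y))) + 1 := by
      have e1 : star (w * star (φ d)) = star w * φ d := by rw [star_mul', star_star]
      have e2 : star (w * (star (φ d) * φ (y * d) - φ y)) =
          star w * (φ d * star (φ (y * d)) - star (φ y)) := by
        rw [star_mul', star_sub, star_mul', star_star]
      rw [e1, e2]
      linear_combination (star w * w - star w * w - star w * w) * hdd
    rw [e, Complex.add_re, Complex.add_re, Complex.one_re, Complex.star_def, Complex.conj_re]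
    ring
  have hδ : star (φ d) * φ (y * d) - φ y = 0 := by
    by_contra hne
    set δ := star (φ d) * φ (y * d) - φ y with hδ
    have hpos : 0 < ‖δ‖ ^ 2 := by positivity
    have h2 := key (-(1 / (‖δ‖ ^ 2 : ℝ) : ℂ) * star δ)
    have h3 : -(1 / (‖δ‖ ^ 2 : ℝ) : ℂ) * star δ * δ = -1 := by
      have h5 : star δ * δ = ((‖δ‖ ^ 2 : ℝ) : ℂ) := by
        rw [mul_comm, Complex.star_def, Complex.mul_conj, Complex.normSq_eq_norm_sq]
      rw [mul_assoc, h5]
      have : ((‖δ‖ ^ 2 : ℝ) : ℂ) ≠ 0 := by exact_mod_cast hpos.ne'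
      field_simp
    rw [h3] at h2
    norm_num at h2
  calc φ (y * d) = (φ d * star (φ d)) * φ (y * d) := by rw [hdd, one_mul]
    _ = φ d * (star (φ d) * φ (y * d) - φ y) + φ y * φ d := by ring
    _ = φ y * φ d := by rw [hδ]; ring

lemma exists_dil (hG : G = Subgroup.closure {s2, s3, t}) (hs2 : ∀ x, s2 x = 2 * x)
    (hs3 : ∀ x, s3 x = 3 * x) (a b : ℤ) :
    ∃ d : G, ∀ x : ℚ, (d : Equiv.Perm ℚ) x = 2 ^ a * 3 ^ b * x := by
  have m2 : s2 ∈ G := by rw [hG]; exact Subgroup.subset_closure (by simp)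
  have m3 : s3 ∈ G := by rw [hG]; exact Subgroup.subset_closure (by simp)
  have key : ∀ (S : G) (l : ℚ), l ≠ 0 → (∀ x, (S : Equiv.Perm ℚ) x = l * x) → ∀ (k : ℤ) (x : ℚ),
      ((S ^ k : G) : Equiv.Perm ℚ) x = l ^ k * x := by
    intro S l hl hS k
    induction k using Int.induction_on with
    | zero => intro x; simp
    | succ i ih =>
      intro x
      rw [zpow_add_one, Subgroup.coe_mul, Equiv.Perm.mul_apply, hS, ih, zpow_add_one₀ hl]
      ring
    | pred i ih =>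
      intro x
      rw [zpow_sub_one, Subgroup.coe_mul, Equiv.Perm.mul_apply, ih]
      have : ((S⁻¹ : G) : Equiv.Perm ℚ) x = l⁻¹ * x := by
        rw [Subgroup.coe_inv, Equiv.Perm.inv_eq_iff_eq, hS]
        field_simp
      rw [this, zpow_sub_one₀ hl]
      ring
  refine ⟨(⟨s2, m2⟩ : G) ^ a * (⟨s3, m3⟩ : G) ^ b, fun x => ?_⟩
  rw [Subgroup.coe_mul, Equiv.Perm.mul_apply, key ⟨s3, m3⟩ 3 (by norm_num) hs3 b,
    key ⟨s2, m2⟩ 2 (by norm_num) hs2 a]
  ring

/-- The values of a trace at the translations. -/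
lemma trans_val (hs2 : ∀ x, s2 x = 2 * x) (hs3 : ∀ x, s3 x = 3 * x)
    (ht : ∀ x, t x = x + 1) (hG : G = Subgroup.closure {s2, s3, t})
    (hu : ∀ x : ℚ, (u : Equiv.Perm ℚ) x = x + 1) {φ : G → ℂ} (hφ : φ ∈ Trs G) (ρ : PM)
    (hρ : Pool.Agent.H635F.Inv ρ) (h : ∀ n : ℤ, φ (u ^ n) = F n ρ) (g : G)
    (hg : ∃ r : ℚ, ∀ x, (g : Equiv.Perm ℚ) x = x + r) :
    φ g = th (ρ : Measure UnitAddCircle) g := by
  obtain ⟨S6, ν, D⟩ := exists_data hs2 hs3 ht hG hu hφ
  obtain ⟨r, hg⟩ := hg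
  obtain ⟨n, k, hr⟩ := D.six hg
  rw [th_tau (inv_both _ hρ).1 (inv_both _ hρ).2 hg hr,
    phi_trans D.hτ D.hcl S6 D.hS6 g n k (fun x => by rw [hg, hr])]
  exact h n

/-- The commutator of the translation and a dilation. -/
lemma comm_dil (hu : ∀ x : ℚ, (u : Equiv.Perm ℚ) x = x + 1) (d : G) (lam : ℚ) (hl : lam ≠ 0)
    (hd : ∀ x, (d : Equiv.Perm ℚ) x = lam * x) (x : ℚ) :
    ((u * d * u⁻¹ * d⁻¹ : G) : Equiv.Perm ℚ) x = x + (1 - lam) := by
  have hinv : ∀ z, ((u⁻¹ : G) : Equiv.Perm ℚ) z = z - 1 := by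
    intro z
    rw [Subgroup.coe_inv, Equiv.Perm.inv_eq_iff_eq, hu]
    ring
  have hdinv : ∀ z, ((d⁻¹ : G) : Equiv.Perm ℚ) z = z / lam := by
    intro z
    rw [Subgroup.coe_inv, Equiv.Perm.inv_eq_iff_eq, hd]
    field_simp
  simp only [Subgroup.coe_mul, Equiv.Perm.mul_apply, hinv, hdinv, hd, hu]
  field_simp
  ring

lemma fourier_one_torsion (m : ℤ) (z : UnitAddCircle) (h : (fourier m z : ℂ) = 1) :
    m.natAbs • z = 0 := by
  rw [fourier_apply] at h
  have hx' : AddCircle.toCircle (m • z) = AddCircle.toCircle (0 : UnitAddCircle) := by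
    rw [AddCircle.toCircle_zero]
    exact Subtype.ext h
  have hx2 := AddCircle.injective_toCircle one_ne_zero hx'
  rcases Int.natAbs_eq m with h | h
  · rw [h, natCast_zsmul] at hx2
    exact hx2
  · rw [h, neg_smul, natCast_zsmul, neg_eq_zero] at hx2
    exact hx2

/-- Mass at torsion points of an orbit measure. -/
lemma orbit_torsion (x : UnitAddCircle) (N : ℕ) (hN : 1 ≤ N) (hP : Per x N) (m : ℤ)
    (h : (ob x N hN : Measure UnitAddCircle) {z : UnitAddCircle | (fourier m z : ℂ) = 1} ≠ 0) :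
    m.natAbs • x = 0 := by
  by_contra hne
  apply h
  refine orb_null _ _ _ _ _ _ ?_ fun i j hij => ?_
  · exact (isClosed_eq (fourier m).continuous continuous_const).measurableSet
  · have h2 : m.natAbs • (Sg i j • x) = 0 := fourier_one_torsion m _ hij
    rw [smul_comm] at h2
    have hper : Per (m.natAbs • x) N := hP.smul _
    exact orbit_ne_zero _ _ _ hN hN hper.1 hper.2 hne i j h2

lemma F_ob_one (x : UnitAddCircle) (N : ℕ) (hN : 1 ≤ N) (m n : ℤ) (h : m.natAbs • x = 0)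
    (hmn : m ∣ n) : F n (ob x N hN) = 1 := by
  obtain ⟨c, rfl⟩ := hmn
  rw [F_ob]
  have hm : m • x = 0 := by
    rcases Int.natAbs_eq m with h' | h'
    · rw [h', natCast_zsmul, h]
    · rw [h', neg_smul, natCast_zsmul, h, neg_zero]
  have h6 : ∀ i j : ℕ, (fourier (m * c) (Sg i j • x) : ℂ) = 1 := by
    intro i j
    have e : (m * c) • (Sg i j • x) = 0 := by
      rw [mul_comm, mul_smul, smul_comm m (Sg i j) x, hm, smul_zero, smul_zero]
    rw [fourier_apply, e]
    simp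
  have hN0 : (N : ℂ) ≠ 0 := by exact_mod_cast (by omega : N ≠ 0)
  simp only [h6, Finset.sum_const, Finset.card_range, nsmul_eq_mul, mul_one]
  field_simp

/-- The commutator is in the kernel if the dilation fixes the orbit. -/
lemma th_comm (hs2 : ∀ x, s2 x = 2 * x) (hs3 : ∀ x, s3 x = 3 * x)
    (ht : ∀ x, t x = x + 1) (hG : G = Subgroup.closure {s2, s3, t})
    (hu : ∀ x : ℚ, (u : Equiv.Perm ℚ) x = x + 1) (x : UnitAddCircle) (N : ℕ) (hN : 1 ≤ N)
    (hP : Per x N) (g d : G) (lam : ℚ) (hl : lam ≠ 0) (hd : ∀ x, (d : Equiv.Perm ℚ) x = lam * x)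
    (hg : lin g = lam) (h : (nm g).natAbs • x = 0) :
    (th (ob x N hN : Measure UnitAddCircle) : G → ℂ) (u * d * u⁻¹ * d⁻¹) = 1 := by
  have hform : Form G := fun g => form hs2 hs3 ht g (by rw [← hG]; exact g.2)
  have hinv : Pool.Agent.H635F.Inv (ob x N hN) := inv_ob hN hP
  have hc := comm_dil hu d lam hl hd
  obtain ⟨a, b, r, ⟨n, k, hr⟩, hx⟩ := hform (u * d * u⁻¹ * d⁻¹)
  have e0 := hx 0
  rw [hc, mul_zero, zero_add, zero_add] at e0
  have hr' : 1 - lam = n / 6 ^ k := by rw [e0, hr]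
  rw [th_tau (inv_both _ hinv).1 (inv_both _ hinv).2 hc hr']
  have h1 : nm g ∣ n := by
    unfold nm
    rw [hg]
    have h6 : (6 : ℚ) ^ k ≠ 0 := by positivity
    have hden : ((1 - lam).den : ℚ) ≠ 0 := by exact_mod_cast (1 - lam).den_pos.ne'
    have e1 : ((1 - lam).num : ℚ) / (1 - lam).den = n / 6 ^ k := by rw [Rat.num_div_den, hr']
    rw [div_eq_div_iff hden h6] at e1
    have e2 : (1 - lam).num * 6 ^ k = n * (1 - lam).den := by exact_mod_cast e1
    have hcop : IsCoprime (1 - lam).num ((1 - lam).den : ℤ) := by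
      rw [Int.isCoprime_iff_gcd_eq_one]
      have := (1 - lam).reduced
      rwa [Nat.Coprime] at this
    exact hcop.dvd_of_dvd_mul_right ⟨6 ^ k, e2.symm⟩
  exact F_ob_one x N hN (nm g) n h h1

end Pool.Agent.H266.FE
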