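import Mathlib
import Pool.Agent.H266.FE13

set_option autoImplicit false

open MeasureTheory Filter Topology
open scoped ComplexOrder ENNReal

namespace Pool.Agent.H266.FE

open Pool.Agent.W763.Tr Pool.Agent.TH654.FC Pool.Agent.Q227.Tr
open Pool.Agent.H635F hiding Inv
open Pool.Agent.H266.FD

variable {s2 s3 t : Equiv.Perm ℚ} {G : Subgroup (Equiv.Perm ℚ)} {u : G}

/-- The condition of modulus one. -/
def Mod (u : G) (ρ : PM) (φ : G → ℂ) : Prop := ∀ (d : G) (lam : ℚ), lam ≠ 0 →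
  (∀ x, (d : Equiv.Perm ℚ) x = lam * x) →
    (th (ρ : Measure UnitAddCircle) : G → ℂ) (u * d * u⁻¹ * d⁻¹) = 1 → ‖φ d‖ = 1

/-- Modulus one at the dilations which fix the orbit gives extremality. -/
theorem extreme_of_mod (hs2 : ∀ x, s2 x = 2 * x) (hs3 : ∀ x, s3 x = 3 * x)
    (ht : ∀ x, t x = x + 1) (hG : G = Subgroup.closure {s2, s3, t})
    (hu : ∀ x : ℚ, (u : Equiv.Perm ℚ) x = x + 1) {x : UnitAddCircle} {N : ℕ} (hN : 1 ≤ N)
    (hP : Per x N) {φ : G → ℂ} (hφ : φ ∈ Trs G) (hF : ∀ n : ℤ, φ (u ^ n) = F n (ob x N hN))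
    (hmod : Mod u (ob x N hN) φ) : φ ∈ Cfd G := by
  have hform : Form G := fun g => form hs2 hs3 ht g (by rw [← hG]; exact g.2)
  set ρ := ob x N hN with hρ
  have hinv : Pool.Agent.H635F.Inv ρ := inv_ob hN hP
  -- the measure of a trace with these values
  have hmeas : ∀ ψ ∈ Trs G, (∀ n : ℤ, ψ (u ^ n) = F n ρ) → ∀ g : G,
      ρ.toMeasure {z : UnitAddCircle | (fourier (nm g) z : ℂ) = 1} = 0 → ψ g = 0 := by
    intro ψ hψ hψF g h0
    obtain ⟨S6, ν, D⟩ := exists_data hs2 hs3 ht hG hu hψ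
    have hνρ : ν = ρ := by
      apply ProbabilityMeasure.toMeasure_injective
      refine ext_fourier _ _ fun k => ?_
      rw [D.hμ, hψF]
      rfl
    refine off2 D g ?_
    rw [hνρ]
    exact h0
  have hext : φ ∈ Set.extremePoints ℝ (Trs G) := by
    refine mem_extremePoints_iff_left.2 ⟨hφ, ?_⟩
    rintro φ₁ h₁ φ₂ h₂ ⟨a, b, ha, hb, hab, hsum⟩
    obtain ⟨S1, ν₁, D₁⟩ := exists_data hs2 hs3 ht hG hu h₁
    obtain ⟨S2, ν₂, D₂⟩ := exists_data hs2 hs3 ht hG hu h₂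
    have hval : ∀ g : G, (a : ℂ) * φ₁ g + b * φ₂ g = φ g := by
      intro g
      rw [← hsum]
      simp [Complex.real_smul]
    have hFF : ∀ n : ℤ, (a : ℂ) * F n ν₁ + b * F n ν₂ = F n ρ := by
      intro n
      have h3 : F n ν₁ = φ₁ (u ^ n) := D₁.hμ n
      have h4 : F n ν₂ = φ₂ (u ^ n) := D₂.hμ n
      rw [h3, h4, ← hF n, hval]
    have e1 := orbit_part hN hP ν₁ ν₂ (data_inv D₁) ha hb hFF
    have hF₁ : ∀ n : ℤ, φ₁ (u ^ n) = F n ρ := fun n => by
      have h3 : F n ν₁ = φ₁ (u ^ n) := D₁.hμ n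
      rw [← h3, e1]
    funext g
    obtain ⟨a', b', r, hr, hx⟩ := hform g
    set lam : ℚ := 2 ^ a' * 3 ^ b' with hlam
    have hl : lam ≠ 0 := by rw [hlam]; positivity
    obtain ⟨d, hd0⟩ := exists_dil hG hs2 hs3 a' b'
    have hd : ∀ x, (d : Equiv.Perm ℚ) x = lam * x := hd0
    obtain ⟨hlin, -⟩ := lin_of hx
    by_cases hcase : (nm g).natAbs • x = 0
    · have hk := th_comm hs2 hs3 ht hG hu x N hN hP g d lam hl hd hlin hcase
      have hnd : ‖φ d‖ = 1 := hmod d lam hl hd hk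
      have hd1 : φ₁ d = φ d := norm_one_eq ha hb hab (pd_norm_le h₁.2.2 h₁.1 d)
        (pd_norm_le h₂.2.2 h₂.1 d) hnd (hval d)
      have htr : ∃ r : ℚ, ∀ x, ((g * d⁻¹ : G) : Equiv.Perm ℚ) x = x + r := by
        refine ⟨r, fun x => ?_⟩
        have hdinv : ∀ z, ((d⁻¹ : G) : Equiv.Perm ℚ) z = z / lam := by
          intro z
          rw [Subgroup.coe_inv, Equiv.Perm.inv_eq_iff_eq, hd]
          field_simp
        rw [Subgroup.coe_mul, Equiv.Perm.mul_apply, hdinv, hx]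
        field_simp
      have v1 := trans_val hs2 hs3 ht hG hu h₁ ρ hinv hF₁ _ htr
      have v2 := trans_val hs2 hs3 ht hG hu hφ ρ hinv hF _ htr
      have hg : g = (g * d⁻¹) * d := by group
      have w1 : φ₁ g = φ₁ (g * d⁻¹) * φ₁ d := by
        conv_lhs => rw [hg]
        exact pd_mul h₁.2.2 h₁.1 (by rw [hd1]; exact hnd) _
      have w2 : φ g = φ (g * d⁻¹) * φ d := by
        conv_lhs => rw [hg]
        exact pd_mul hφ.2.2 hφ.1 hnd _
      rw [w1, w2, v1, v2, hd1]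
    · have h0 : ρ.toMeasure {z : UnitAddCircle | (fourier (nm g) z : ℂ) = 1} = 0 := by
        by_contra hne
        exact hcase (orbit_torsion x N hN hP (nm g) hne)
      rw [hmeas φ₁ h₁ hF₁ g h0, hmeas φ hφ hF g h0]
  refine ⟨hext, ?_⟩
  obtain ⟨S6, ν, D⟩ := exists_data hs2 hs3 ht hG hu hφ
  rcases Pool.Agent.TH463.UQ.finite_or_atomless D hext with h | h
  · exact h
  · exfalso
    have hνρ : ν = ρ := by
      apply ProbabilityMeasure.toMeasure_injective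
      refine ext_fourier _ _ fun k => ?_
      rw [D.hμ, hF]
      rfl
    obtain ⟨y, hy⟩ := fs_atom ρ (fs_orb ρ ((isOrb_iff _).2 ⟨x, N, hN, hP, rfl⟩))
    rw [← hνρ] at hy
    exact hy (h y)

/-- The conditionally finite-dimensional extreme traces of a given orbit form a closed set. -/
theorem closed_orbit_cfd (hs2 : ∀ x, s2 x = 2 * x) (hs3 : ∀ x, s3 x = 3 * x)
    (ht : ∀ x, t x = x + 1) (hG : G = Subgroup.closure {s2, s3, t})
    (hu : ∀ x : ℚ, (u : Equiv.Perm ℚ) x = x + 1) {x : UnitAddCircle} {N : ℕ} (hN : 1 ≤ N)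
    (hP : Per x N) :
    IsClosed {ψ : G → ℂ | ψ ∈ Cfd G ∧ ∀ n : ℤ, ψ (u ^ n) = F n (ob x N hN)} := by
  set ρ := ob x N hN with hρ
  have hinv : Pool.Agent.H635F.Inv ρ := inv_ob hN hP
  have e : {ψ : G → ℂ | ψ ∈ Cfd G ∧ ∀ n : ℤ, ψ (u ^ n) = F n ρ} =
      Trs G ∩ ((⋂ n : ℤ, {ψ : G → ℂ | ψ (u ^ n) = F n ρ}) ∩ {ψ : G → ℂ | Mod u ρ ψ}) := by
    ext ψ
    simp only [Set.mem_ofPred_eq, Set.mem_inter_iff, Set.mem_iInter]
    constructor
    · rintro ⟨h1, h2⟩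
      refine ⟨h1.1.1, h2, fun d lam hl hd hk => ?_⟩
      have htr : ∃ r : ℚ, ∀ x, ((u * d * u⁻¹ * d⁻¹ : G) : Equiv.Perm ℚ) x = x + r :=
        ⟨1 - lam, comm_dil hu d lam hl hd⟩
      have hk' := trans_val hs2 hs3 ht hG hu h1.1.1 ρ hinv h2 _ htr
      rw [hk] at hk'
      exact (dil_central hG hs2 hs3 ht hu h1.1 d lam hd hk').2
    · rintro ⟨h1, h2, h3⟩
      exact ⟨extreme_of_mod hs2 hs3 ht hG hu hN hP h1 h2 h3, h2⟩
  rw [e]
  refine trs_closed.inter ((isClosed_iInter fun n => isClosed_eq (continuous_apply _)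
    continuous_const).inter ?_)
  have e2 : {ψ : G → ℂ | Mod u ρ ψ} = ⋂ (d : G), ⋂ (lam : ℚ), ⋂ (_ : lam ≠ 0),
      ⋂ (_ : ∀ x, (d : Equiv.Perm ℚ) x = lam * x),
      ⋂ (_ : (th (ρ : Measure UnitAddCircle) : G → ℂ) (u * d * u⁻¹ * d⁻¹) = 1),
        {ψ : G → ℂ | ‖ψ d‖ = 1} := by
    ext ψ
    simp only [Set.mem_ofPred_eq, Set.mem_iInter]
    rfl
  rw [e2]
  exact isClosed_iInter fun d => isClosed_iInter fun lam => isClosed_iInter fun _ =>
    isClosed_iInter fun _ => isClosed_iInter fun _ =>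
      isClosed_eq (continuous_apply d).norm continuous_const

/-- There are finitely many orbits of bounded order. -/
lemma finite_orbits (m : ℕ) (hm : 1 ≤ m) : {ρ : PM | ∃ (x : UnitAddCircle) (N : ℕ) (hN : 1 ≤ N),
    Per x N ∧ m • x = 0 ∧ ρ = ob x N hN}.Finite := by
  classical
  have hT : {x : UnitAddCircle | m • x = 0}.Finite := AddCircle.finite_torsion (1 : ℝ) hm
  let f : UnitAddCircle → PM := fun x =>
    if h : ∃ N : ℕ, 1 ≤ N ∧ Per x N then ob x h.choose h.choose_spec.1 else d0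
  refine (hT.image f).subset ?_
  rintro ρ ⟨x, N, hN, hP, hx, rfl⟩
  refine ⟨x, hx, ?_⟩
  have h : ∃ N : ℕ, 1 ≤ N ∧ Per x N := ⟨N, hN, hP⟩
  have e : f x = ob x h.choose h.choose_spec.1 := dif_pos h
  rw [e, ← ob_mul h.choose_spec.1 h.choose_spec.2 N hN (Nat.mul_pos h.choose_spec.1 hN),
    ob_mul' hN hP h.choose h.choose_spec.1]

/-- **The limits of the conditionally finite-dimensional extreme traces which are not of this
kind themselves are the limits which vanish off the translations.** -/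
theorem lim_eq (hs2 : ∀ x, s2 x = 2 * x) (hs3 : ∀ x, s3 x = 3 * x)
    (ht : ∀ x, t x = x + 1) (hG : G = Subgroup.closure {s2, s3, t})
    (hu : ∀ x : ℚ, (u : Equiv.Perm ℚ) x = x + 1) : closure (Cfd G) \ Cfd G = Lim G := by
  have hform : Form G := fun g => form hs2 hs3 ht g (by rw [← hG]; exact g.2)
  ext φ
  constructor
  · rintro ⟨hcl, hnot⟩
    refine ⟨hcl, fun g hg => ?_⟩
    by_contra hne
    apply hnot
    have hm : 1 ≤ (nm g).natAbs := Int.natAbs_pos.2 (nm_ne hform g hg)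
    have hfin := finite_orbits (nm g).natAbs hm
    have hclosed : IsClosed (⋃ ρ ∈ {ρ : PM | ∃ (x : UnitAddCircle) (N : ℕ) (hN : 1 ≤ N),
        Per x N ∧ (nm g).natAbs • x = 0 ∧ ρ = ob x N hN},
        {ψ : G → ℂ | ψ ∈ Cfd G ∧ ∀ n : ℤ, ψ (u ^ n) = F n ρ}) := by
      refine hfin.isClosed_biUnion ?_
      rintro ρ ⟨x, N, hN, hP, hx, rfl⟩
      exact closed_orbit_cfd hs2 hs3 ht hG hu hN hP
    have hmem : φ ∈ closure (⋃ ρ ∈ {ρ : PM | ∃ (x : UnitAddCircle) (N : ℕ) (hN : 1 ≤ N),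
        Per x N ∧ (nm g).natAbs • x = 0 ∧ ρ = ob x N hN},
        {ψ : G → ℂ | ψ ∈ Cfd G ∧ ∀ n : ℤ, ψ (u ^ n) = F n ρ}) := by
      rw [mem_closure_iff]
      intro O hO hφO
      have hO2 : IsOpen (O ∩ {ψ : G → ℂ | ψ g ≠ 0}) :=
        hO.inter (isOpen_ne_fun (continuous_apply g) continuous_const)
      obtain ⟨ψ, ⟨h1, h2⟩, h3⟩ := mem_closure_iff.1 hcl _ hO2 ⟨hφO, hne⟩
      refine ⟨ψ, h1, ?_⟩
      obtain ⟨S6, ν, D⟩ := exists_data hs2 hs3 ht hG hu h3.1.1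
      obtain ⟨x, N, hN, hP, hν⟩ := (isOrb_iff _).1 (cfd_orb hs2 hs3 ht hG D h3)
      have hν' : ν = ob x N hN := hν
      have hx : (nm g).natAbs • x = 0 := by
        refine orbit_torsion x N hN hP (nm g) fun h0 => h2 (off2 D g ?_)
        rw [hν']
        exact h0
      refine Set.mem_biUnion (x := ob x N hN) ⟨x, N, hN, hP, hx, rfl⟩ ⟨h3, fun n => ?_⟩
      rw [← hν']
      exact (D.hμ n).symm
    rw [hclosed.closure_eq] at hmem
    obtain ⟨ρ, -, h1, -⟩ := Set.mem_iUnion₂.1 hmem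
    exact h1
  · rintro ⟨hcl, hoff⟩
    refine ⟨hcl, fun hφ => ?_⟩
    obtain ⟨S6, ν, D⟩ := exists_data hs2 hs3 ht hG hu hφ.1.1
    obtain ⟨x, N, hN, hP, hν⟩ := (isOrb_iff _).1 (cfd_orb hs2 hs3 ht hG D hφ)
    have hν' : ν = ob x N hN := hν
    have hinv : Pool.Agent.H635F.Inv (ob x N hN) := inv_ob hN hP
    obtain ⟨d, hd⟩ := exists_dil hG hs2 hs3 (N : ℤ) 0
    have hd' : ∀ x, (d : Equiv.Perm ℚ) x = (2 ^ N : ℚ) * x := fun x => by rw [hd]; simp
    have hl : (2 ^ N : ℚ) ≠ 0 := by positivity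
    have h2N : (1 : ℚ) < 2 ^ N := one_lt_pow₀ (by norm_num) (by omega)
    have hF : ∀ n : ℤ, φ (u ^ n) = F n (ob x N hN) := fun n => by
      rw [← hν']; exact (D.hμ n).symm
    obtain ⟨hlin, -⟩ := lin_of (g := d) (l := 2 ^ N) (r := 0) fun x => by rw [hd', add_zero]
    have hnm : (nm d).natAbs • x = 0 := by
      have e : nm d = -((2 ^ N - 1 : ℕ) : ℤ) := by
        unfold nm
        rw [hlin]
        have e1 : (1 - 2 ^ N : ℚ) = ((-((2 ^ N - 1 : ℕ) : ℤ) : ℤ) : ℚ) := by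
          rw [Nat.cast_sub Nat.one_le_two_pow]
          push_cast
          ring
        rw [e1, Rat.num_intCast]
      rw [e, Int.natAbs_neg, Int.natAbs_natCast]
      exact per_torsion x N hP.1
    have hk := th_comm hs2 hs3 ht hG hu x N hN hP d d (2 ^ N) hl hd' hlin hnm
    have htr : ∃ r : ℚ, ∀ x, ((u * d * u⁻¹ * d⁻¹ : G) : Equiv.Perm ℚ) x = x + r :=
      ⟨1 - 2 ^ N, comm_dil hu d _ hl hd'⟩
    have hk' := trans_val hs2 hs3 ht hG hu hφ.1.1 _ hinv hF _ htr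
    rw [hk] at hk'
    have h1 := (dil_central hG hs2 hs3 ht hu hφ.1 d _ hd' hk').2
    have h2 : φ d = 0 := by
      refine hoff d ?_
      rintro ⟨r, hr⟩
      have e0 := hr 0
      have e1 := hr 1
      rw [hd'] at e0 e1
      linarith
    rw [h2, norm_zero] at h1
    exact zero_ne_one h1

end Pool.Agent.H266.FE
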